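import Pool.Agent.Lib.MP_294da1_gt.Br.Set

/-! The algebraic side of the bridge. -/

set_option autoImplicit false

namespace Pool.Agent.Lib.MP_294da1_gt.Br

open Pool.Agent.Lib.MP_a47850_al Pool.Agent.Lib.MP_a47850_al.Mcg Set Filter Topology

variable {g : ℕ}

open FreeGroup hiding map_mul map_inv map_one

theorem alg_ne {h : F g} (h1 : h ≠ 1) (y a : F g) : ∀ᶠ k : ℕ in atTop, h ^ k * y ≠ a := by
  have inj : Function.Injective fun k : ℕ => h ^ k * y := fun i j e => by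
    have e1 : h ^ i = h ^ j := mul_right_cancel e
    have := zpow_eq_one' h1 (n := (i : ℤ) - j) (by rw [zpow_sub]; simp [e1])
    omega
  rw [← Nat.cofinite_eq_atTop]
  exact inj.tendsto_cofinite.eventually (eventually_cofinite_ne a)

open Classical in
theorem alg_ev0 {h a b y : F g} (h1 : h ≠ 1) (hab : a ≠ b) (hy : y ∈ Q h) :
    ∀ᶠ k : ℕ in atTop, ((if a ∈ Q h then 1 else 0) - if b ∈ Q h then 1 else 0 : ℝ) =
      (if o a ((h ^ k)⁻¹ * y) b then 1 else 0) - if o a (h ^ k * y) b then 1 else 0 := by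
  by_cases ha : a ∈ Q h <;> by_cases hb : b ∈ Q h
  · obtain ⟨p, hp⟩ := exists_not_Q h1
    filter_upwards [Q_cof h1 hy ha hp, Q_cof h1 hy hb hp, Q_cof' h1 hy ha hp,
      Q_cof' h1 hy hb hp] with k k1 k2 k3 k4
    rcases o_total (x := p) (y := a) (z := b) (fun e => hp (e ▸ ha)) hab
      (fun e => hp (e ▸ hb)) with e | e
    · simp [ha, hb, o_asymm (o_cyc (o_mid k1 e)), o_asymm (o_mid e k4)]
    · simp [ha, hb, o_cyc' (o_mid k2 e), o_cyc (o_mid e k3)]
  · filter_upwards [Q_cof h1 hy ha hb, Q_cof' h1 hy ha hb] with k k1 k2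
    simp [ha, hb, o_cyc k2, o_asymm (o_cyc' k1)]
  · filter_upwards [Q_cof h1 hy hb ha, Q_cof' h1 hy hb ha] with k k1 k2
    simp [ha, hb, k1, o_asymm k2]
  · refine Eventually.of_forall fun k => ?_
    have m1 : h ^ k * y ∉ (Q h)ᶜ := not_not.2 ((Q_pow h y k).2 hy)
    have m2 : (h ^ k)⁻¹ * y ∉ (Q h)ᶜ := not_not.2 ((Q_pow h _ k).1 (by simpa using hy))
    have : o a ((h ^ k)⁻¹ * y) b ↔ o a (h ^ k * y) b :=
      ⟨fun e => o_cyc' ((Q_arc h1).compl hb ha m2 m1 (o_cyc e)),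
        fun e => o_cyc' ((Q_arc h1).compl hb ha m1 m2 (o_cyc e))⟩
    simp [ha, hb, this]

open Classical in
theorem alg_ev {h a b : F g} (h1 : h ≠ 1) (hab : a ≠ b) (y : F g) :
    ∀ᶠ k : ℕ in atTop, ((if a ∈ Q h then 1 else 0) - if b ∈ Q h then 1 else 0 : ℝ) =
      (if o a ((h ^ k)⁻¹ * y) b then 1 else 0) - if o a (h ^ k * y) b then 1 else 0 := by
  by_cases hy : y ∈ Q h
  · exact alg_ev0 h1 hab hy
  filter_upwards [alg_ev0 (inv_ne_one.2 h1) hab ((Q_inv h1).2 hy)] with k hk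
  simp only [Q_inv h1, inv_pow, inv_inv] at hk
  by_cases ha : a ∈ Q h <;> by_cases hb : b ∈ Q h <;>
    simp only [ha, hb, not_true, not_false_iff, if_true, if_false] at hk ⊢ <;> linarith

theorem alg_hd {n m : ℕ} {w : F g} (c : Ch n w m) (h : n < m) : hd w = n + 1 := by
  cases c with
  | nil => omega
  | cons hl hx =>
    have := hx.hd_ne (y := 1) (by rw [hd_one]; omega)
    rw [mul_one] at this
    rw [hd_L_mul this, hl]

theorem alg_J {n : ℕ} {w t : F g} (n1 : 1 ≤ n) (c1 : Ch 0 w n) (c2 : Ch n (w⁻¹ * zt g) (4 * g))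
    (n2 : n < 4 * g) (t1 : t ≠ 1) (t2 : t ≠ w⁻¹) : o 1 t w⁻¹ ↔ ¬ n < hd t := by
  have e1 : hd w⁻¹ = n := c1.hd_inv.resolve_left fun e => by omega
  have e2 := alg_hd c2 n2
  have r : ∀ q, rk g 0 q = q := fun q => by simp [rk]
  rw [o_one]
  constructor
  · rintro ⟨-, e⟩
    rw [K_lt (Nat.zero_le _), r, r, e1] at e
    omega
  · intro e
    refine ⟨t1, (lt_or_gt_of_ne fun e3 => t2 (K0_inj.1 e3)).resolve_right fun e3 => ?_⟩
    refine adj w⁻¹ t (Or.inl ⟨e3, ?_⟩)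
    rw [K_lt (Nat.zero_le _), r, r, e2]
    omega

open Classical in
theorem alg_sg {n : ℕ} {w x z : F g} (n1 : 1 ≤ n) (c1 : Ch 0 w n)
    (c2 : Ch n (w⁻¹ * zt g) (4 * g)) (n2 : n < 4 * g) (z1 : z ≠ x * w) (z2 : z ≠ x) :
    sg n ((x * w)⁻¹ * z) = 1 / 4 - (if o (x * w) z x then 1 else 0) / 2 := by
  have := alg_J (t := (x * w)⁻¹ * z) n1 c1 c2 n2 (fun e => z1 (inv_mul_eq_one.1 e).symm)
    (fun e => z2 (by rw [inv_mul_eq_iff_eq_mul] at e; simpa using e))
  rw [← o_mul (x * w), mul_one, mul_inv_cancel_left, mul_inv_cancel_right] at this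
  unfold sg
  by_cases e : n < hd ((x * w)⁻¹ * z)
  · rw [if_pos e, if_neg fun e' => this.1 e' e]; norm_num
  · rw [if_neg e, if_pos (this.2 e)]; norm_num

/-- a zero-one function with the jumps of the wall is the wall -/
theorem alg_wall (hg : 0 < g) {h : F g} (h1 : h ≠ 1) (W : F g → ℝ) (hW : ∀ x, W x = 0 ∨ W x = 1)
    (y : F g) (H : ∀ (x w : F g) (n : ℕ), 1 ≤ n → n < 4 * g → Ch 0 w n → ∀ᶠ k : ℕ in atTop,
      W (x * w) - W x =
        2 * (sg n ((x * w)⁻¹ * (h ^ k * y)) - sg n ((x * w)⁻¹ * ((h ^ k)⁻¹ * y)))) (x : F g) :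
    W x = 1 ↔ x ∈ Q h := by
  classical
  set D : F g → ℝ := fun x => W x - if x ∈ Q h then 1 else 0 with hD
  have step : ∀ (w : F g) (n : ℕ), 1 ≤ n → n < 4 * g → Ch 0 w n → Ch n (w⁻¹ * zt g) (4 * g) →
      ∀ x, D (x * w) = D x := by
    intro w n n1 n2 c1 c2 x
    have hw : x * w ≠ x := by
      intro e
      have e' : w = 1 := by simpa using e
      rcases c1.hd_inv with ⟨-, e2⟩ | e2
      · omega
      · rw [e', inv_one, hd_one] at e2; omega
    obtain ⟨k, ⟨⟨⟨⟨k1, k2⟩, k3⟩, k4⟩, k5⟩, k6⟩ := ((((((H x w n n1 n2 c1).and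
      (alg_ev h1 hw y)).and (alg_ne h1 y (x * w))).and (alg_ne h1 y x)).and
      (alg_ne (inv_ne_one.2 h1) y (x * w))).and (alg_ne (inv_ne_one.2 h1) y x)).exists
    rw [inv_pow] at k5 k6
    rw [alg_sg n1 c1 c2 n2 k3 k4, alg_sg n1 c1 c2 n2 k5 k6] at k1
    simp only [hD]
    linarith
  have gen : ∀ x s, D (x * of s) = D x := by
    rintro x ⟨j, s⟩
    have h0 := ch_gam0 (g := g) (h := j) j.2.le
    have h2 := ch_gam (g := g) (h := j + 1) j.2 le_rfl
    have hz : zt g = gam g j * (a j * b j * (a j)⁻¹ * (b j)⁻¹) *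
        ((gam g (j + 1))⁻¹ * gam g g) := by
      rw [← gam_succ]; group
    have hj := j.2
    have s0 : ∀ x, D (x * gam g j) = D x := by
      rcases Nat.eq_zero_or_pos j with e | e
      · intro x; rw [e, gam_zero, mul_one]
      · exact step _ _ (by omega) (by omega) h0 (ch_gam j.2.le le_rfl)
    have s1 : ∀ x, D (x * (gam g j * a j)) = D x :=
      step _ _ (by omega) (by omega) (h0.mul (ch1 j)) (by
        have := (((ch2 j).mul (ch3 j)).mul (ch4 j)).mul h2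
        rwa [show (gam g j * a j)⁻¹ * zt g =
          b j * (a j)⁻¹ * (b j)⁻¹ * ((gam g (j + 1))⁻¹ * gam g g) by rw [hz]; group])
    have s2 : ∀ x, D (x * (gam g j * a j * b j)) = D x :=
      step _ _ (by omega) (by omega) ((h0.mul (ch1 j)).mul (ch2 j)) (by
        have := ((ch3 j).mul (ch4 j)).mul h2
        rwa [show (gam g j * a j * b j)⁻¹ * zt g =
          (a j)⁻¹ * (b j)⁻¹ * ((gam g (j + 1))⁻¹ * gam g g) by rw [hz]; group])
    cases s
    · change D (x * a j) = D x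
      rw [show x * a j = x * (gam g j)⁻¹ * (gam g j * a j) by group, s1, ← s0]
      simp
    · change D (x * b j) = D x
      rw [show x * b j = x * (gam g j * a j)⁻¹ * (gam g j * a j * b j) by group, s2, ← s1,
        inv_mul_cancel_right]
  obtain ⟨x0, h0⟩ := Q_nonempty h1
  obtain ⟨p, hp⟩ := exists_not_Q h1
  have e1 := const_of_gen D gen x x0
  have e2 := const_of_gen D gen x p
  simp only [hD, h0, hp, if_true, if_false] at e1 e2
  by_cases hx : x ∈ Q h
  · simp only [hx, if_true, iff_true] at e1 e2 ⊢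
    rcases hW x0 with a | a <;> rcases hW p with b | b <;> linarith
  · simp only [hx, if_false, iff_false] at e1 e2 ⊢
    intro e
    rcases hW x0 with a | a <;> linarith

theorem stab_fin {h t : F g} (h1 : h ≠ 1) (ht : ∀ x, t * x ∈ Q h ↔ x ∈ Q h) :
    ∃ (k : ℕ) (m : ℤ), 0 < k ∧ t ^ k = h ^ m := by
  obtain ⟨x0, h0⟩ := Q_nonempty h1
  obtain ⟨p, hp⟩ := exists_not_Q h1
  have hpow : ∀ (k : ℕ) x, t ^ k * x ∈ Q h ↔ x ∈ Q h := by
    intro k
    induction k with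
    | zero => simp
    | succ k ih => intro x; rw [pow_succ', mul_assoc, ht, ih]
  choose n hn using fun k : ℕ => exists_lv h1 h0 ((hpow k x0).2 h0)
  have hm : ∀ k : ℕ, h ^ n k * (t ^ k * x0) ∈
      {x | ¬ (x ∈ Iv (h * x0) x0 ↔ x * (x0⁻¹ * p) ∈ Iv (h * x0) x0)} := by
    intro k
    simp only [Set.mem_ofPred_eq, hn k, true_iff]
    intro e
    have := ((mem_Iv h1 h0 hp).1 e).1
    rw [show h ^ n k * (t ^ k * x0) * (x0⁻¹ * p) = h ^ n k * (t ^ k * p) by group, Q_zpow,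
      hpow] at this
    exact hp this
  obtain ⟨i, j, hij, e⟩ := (fc_Iv (h * x0) x0 (x0⁻¹ * p)).exists_lt_map_eq_of_forall_mem hm
  obtain ⟨d, rfl⟩ := Nat.exists_eq_add_of_lt hij
  refine ⟨d + 1, n i - n (i + d + 1), Nat.succ_pos d, ?_⟩
  have e2 : h ^ n (i + d + 1) * t ^ (d + 1) * (t ^ i * x0) = h ^ n i * (t ^ i * x0) := by
    rw [e]; group
  rw [sub_eq_neg_add, zpow_add, zpow_neg, ← mul_right_cancel e2, inv_mul_cancel_left]

theorem conj_ne_inv {h : F g} (S : Simple h) (t : F g) : t * h * t⁻¹ ≠ h⁻¹ := by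
  intro e
  have e2 : (t * t) * h * (t * t)⁻¹ = h := by
    rw [show (t * t) * h * (t * t)⁻¹ = t * (t * h * t⁻¹) * t⁻¹ by group, e,
      show t * h⁻¹ * t⁻¹ = (t * h * t⁻¹)⁻¹ by group, e, inv_inv]
  obtain ⟨m, hm⟩ := S.prim _ (Q_comm e2)
  have e3 : h ^ m = h⁻¹ ^ m := by
    rw [← e, conj_zpow, ← hm]; group
  have e4 : m + m = 0 := zpow_eq_one' S.ne (by
    rw [zpow_add]; nth_rewrite 2 [e3]; simp)
  have e5 : m = 0 := by omega
  have e6 : t = 1 := by
    by_contra ht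
    have := zpow_eq_one' ht (n := 2) (by rw [zpow_two, hm, e5, zpow_zero])
    omega
  exact ne_inv S.ne (by simpa [e6] using e)

theorem conj_eq {h s t : F g} (S : Simple h) (e : s * h * s⁻¹ = t * h * t⁻¹) :
    ∃ k : ℤ, s = t * h ^ k := by
  obtain ⟨k, hk⟩ := S.prim (t⁻¹ * s) (Q_comm (by
    rw [show t⁻¹ * s * h * (t⁻¹ * s)⁻¹ = t⁻¹ * (s * h * s⁻¹) * t by group, e]; group))
  exact ⟨k, by rw [← hk]; group⟩

theorem main' (hg : 0 < g) : ∃ N : ℕ, ∀ (n : ℕ) (c : Fin n → F g) (τ : Fin n → MulAut (F g)),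
    (∀ i, Simple (c i)) → (∀ i, IsTw (c i) (τ i)) → (∀ i j, One (c i) (cl (c j))) →
    (List.ofFn τ).prod = MulAut.conj (zt g) → n ≤ N := by
  obtain ⟨N, hN⟩ := ((finite_words g (Nat.card (Sg g))).image List.length).bddAbove
  refine ⟨N + 1, fun n c τ S T one h3 => ?_⟩
  by_cases h4 : 1 < n
  swap
  · omega
  have nbp : ∀ i, zt g ∉ cl (c i) := fun i hi => by
    have e := (T i).unique (S i) (isTw_zt hg) (cl_eq hi)
    have := sublist_length (w := List.ofFn τ)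
      (List.singleton_sublist.2 ((List.mem_ofFn' τ _).2 ⟨i, rfl⟩))
      (fun σ hσ => by
        obtain ⟨j, rfl⟩ := (List.mem_ofFn' τ _).1 hσ
        exact (T j).pos hg (S j)) (by simp [e, h3])
    simp at this; omega
  obtain ⟨f, hf⟩ := count c S one
  have : Nonempty (Fin n) := ⟨⟨0, by omega⟩⟩
  set e : Fin n → Fin (Nat.card (Sg g)) := Finite.equivFin (Sg g) ∘ f with he
  have hp : ∀ i, τ (Function.invFun e (e i)) = τ i := fun i =>
    (T _).unique (S _) (T i) (hf _ _ ((Finite.equivFin (Sg g)).injective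
      (Function.invFun_eq (f := e) ⟨i, rfl⟩))).symm
  have := hN ⟨_, ⟨⟨hg, c ∘ Function.invFun e, τ ∘ Function.invFun e, fun _ => S _,
    fun _ => T _, fun _ _ => one _ _, fun _ => nbp _, List.ofFn e,
    fun e0 => by have := congrArg List.length e0; simp at this; omega, by
      rw [List.map_ofFn, ← h3]
      congr 2
      exact funext hp⟩, rfl⟩, rfl⟩
  simp at this; omega

end Pool.Agent.Lib.MP_294da1_gt.Br
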