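import Pool.Agent.Lib.MP_294da1_gt.Br.Set

/-! Degree of plane maps through logarithms. -/

set_option autoImplicit false

namespace Pool.Agent.Lib.MP_294da1_gt.Br

open Pool.Agent.Lib.MP_a47850_al Pool.Agent.Lib.MP_a47850_al.Mcg Set Filter Topology

variable {g : ℕ}

theorem pl_log {U : Set ℂ} (hU : Convex ℝ U) (ho : IsOpen U) (ne : U.Nonempty) {f : ℂ → ℂ}
    (hc : ContinuousOn f U) (h0 : ∀ q ∈ U, f q ≠ 0) :
    ∃ l : ℂ → ℂ, ContinuousOn l U ∧ ∀ q ∈ U, Complex.exp (l q) = f q := by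
  have := hU.contractibleSpace ne
  have hs : IsSimplyConnected U := inferInstanceAs (SimplyConnectedSpace U)
  obtain ⟨l, h1, h2⟩ := Complex.exists_continuousOn_eqOn_exp_comp hs ho hc
    fun ⟨q, hq, e⟩ => h0 q hq e
  exact ⟨l, h1, fun q hq => h2 hq⟩

theorem pl_const {A : Type} [TopologicalSpace A] [PreconnectedSpace A] {l : A → ℂ}
    (hc : Continuous l) (h : ∀ a, Complex.exp (l a) = 1) (a b : A) : l a = l b :=
  Complex.isCoveringMap_exp.const_of_comp hc
    (fun a b => Subtype.ext ((h a).trans (h b).symm)) a b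

theorem pl_per {m : ℂ → ℂ} (h : ∀ w, m (w + 2 * Real.pi * Complex.I) = m w) (w : ℂ) :
    m (Complex.log (Complex.exp w)) = m w := by
  obtain ⟨n, hn⟩ := Complex.exp_eq_exp_iff_exists_int.1 (Complex.exp_log (Complex.exp_ne_zero w))
  rw [hn]
  exact (Function.Periodic.int_mul (f := m) h n) w

theorem pl_desc {m : ℂ → ℂ} (hc : Continuous m)
    (h : ∀ w, m (w + 2 * Real.pi * Complex.I) = m w) {z : ℂ} (hz : z ≠ 0) :
    ContinuousAt (fun z => m (Complex.log z)) z := by
  have e : map Complex.exp (𝓝 (Complex.log z)) = 𝓝 z := by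
    rw [Complex.isOpenMap_exp.map_nhds_eq Complex.continuous_exp.continuousAt, Complex.exp_log hz]
  rw [ContinuousAt, ← e, tendsto_map'_iff]
  have : (fun z => m (Complex.log z)) ∘ Complex.exp = m := funext (pl_per h)
  rw [this]
  exact hc.continuousAt

theorem exists_degAt {f : ℂ → ℂ} {p : ℂ} {r : ℝ} (hr : 0 < r)
    (hc : ContinuousOn f (Metric.ball p r \ {p})) (h0 : ∀ q ∈ Metric.ball p r \ {p}, f q ≠ 0) :
    ∃ d, DegAt f p d := by
  let ρ : ℂ → ℂ := fun w => p + Complex.exp ((min w.re (Real.log (r / 2)) : ℝ) + w.im * Complex.I)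
  have cρ : Continuous ρ := by fun_prop
  have mρ : ∀ w, ρ w ∈ Metric.ball p r \ {p} := fun w => by
    refine ⟨?_, fun e => Complex.exp_ne_zero _ (add_eq_left.1 e)⟩
    rw [Metric.mem_ball, dist_eq_norm, add_sub_cancel_left, Complex.norm_exp]
    have : ((min w.re (Real.log (r / 2)) : ℝ) + w.im * Complex.I : ℂ).re
        = min w.re (Real.log (r / 2)) := by simp
    rw [this]
    calc _ ≤ Real.exp (Real.log (r / 2)) := Real.exp_le_exp.2 (min_le_right _ _)
      _ = r / 2 := Real.exp_log (by linarith)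
      _ < r := by linarith
  have pρ : ∀ w, ρ (w + 2 * Real.pi * Complex.I) = ρ w := fun w => by
    have a : (w + 2 * Real.pi * Complex.I).re = w.re := by simp
    have b : (w + 2 * Real.pi * Complex.I).im = w.im + 2 * Real.pi := by simp
    simp only [ρ, a, b]
    congr 1
    rw [← Complex.exp_periodic ((min w.re (Real.log (r / 2)) : ℝ) + w.im * Complex.I)]
    congr 1
    push_cast
    ring
  obtain ⟨L, h1, h2⟩ := pl_log convex_univ isOpen_univ univ_nonempty
    (hc.comp_continuous cρ mρ).continuousOn fun w _ => h0 _ (mρ w)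
  have cL : Continuous L := continuousOn_univ.1 h1
  have e1 : ∀ w, Complex.exp (L (w + 2 * Real.pi * Complex.I) - L w) = 1 := fun w => by
    rw [Complex.exp_sub, h2 _ trivial, h2 _ trivial, Function.comp, Function.comp, pρ,
      div_self (h0 _ (mρ w))]
  obtain ⟨d, hd⟩ := Complex.exp_eq_one_iff.1 (e1 0)
  have e2 : ∀ w, L (w + 2 * Real.pi * Complex.I) - L w = d * (2 * Real.pi * Complex.I) :=
    fun w => (pl_const (l := fun w => L (w + 2 * Real.pi * Complex.I) - L w) (by fun_prop) e1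
      w 0).trans hd
  have e3 : ∀ w, L (w + 2 * Real.pi * Complex.I) - d * (w + 2 * Real.pi * Complex.I)
      = L w - d * w := fun w => by linear_combination e2 w
  refine ⟨d, r / 2, by linarith, fun q => L (Complex.log (q - p)) - d * Complex.log (q - p),
    fun q hq => ?_, fun q hq => ?_⟩
  · have := pl_desc (m := fun w => L w - d * w) (by fun_prop) e3 (sub_ne_zero.2 hq.2)
    exact (ContinuousAt.comp (f := fun q => q - p) this (by fun_prop)).continuousWithinAt
  · have n : q - p ≠ 0 := sub_ne_zero.2 hq.2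
    have lt : ‖q - p‖ < r / 2 := by simpa [dist_eq_norm] using hq.1
    have e4 : ρ (Complex.log (q - p)) = q := by
      simp only [ρ]
      rw [min_eq_left (by
        rw [Complex.log_re]; exact Real.log_le_log (norm_pos_iff.2 n) lt.le), Complex.re_add_im,
        Complex.exp_log n]
      ring
    rw [Complex.exp_sub, h2 _ trivial, Function.comp, e4, Complex.exp_int_mul, Complex.exp_log n]
    field_simp

theorem DegInf.unique {f : ℂ → ℂ} {d d' : ℤ} (h : DegInf f d) (h' : DegInf f d') : d = d' := by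
  obtain ⟨M, hM, l, c, e⟩ := h
  obtain ⟨M', hM', l', c', e'⟩ := h'
  let w : ℝ → ℂ := fun t => (Real.log (M + M') : ℝ) + t * Complex.I
  have cw : Continuous w := by fun_prop
  have n : ∀ t, ‖Complex.exp (w t)‖ = M + M' := fun t => by
    have : (w t).re = Real.log (M + M') := by simp [w]
    rw [Complex.norm_exp, this, Real.exp_log (by linarith)]
  have m : ∀ t, M ≤ ‖Complex.exp (w t)‖ := fun t => by rw [n]; linarith
  have m' : ∀ t, M' ≤ ‖Complex.exp (w t)‖ := fun t => by rw [n]; linarith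
  have c1 := c.comp_continuous (Complex.continuous_exp.comp cw) m
  have c2 := c'.comp_continuous (Complex.continuous_exp.comp cw) m'
  have k := pl_const (l := fun t => d * w t + l (Complex.exp (w t)) -
      (d' * w t + l' (Complex.exp (w t))))
    (((continuous_const.mul cw).add c1).sub ((continuous_const.mul cw).add c2)) (fun t => by
      rw [Complex.exp_sub, Complex.exp_add (d * w t), Complex.exp_add (d' * w t),
        Complex.exp_int_mul, Complex.exp_int_mul, ← e _ (m t), e' _ (m' t)]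
      exact div_self (mul_ne_zero (zpow_ne_zero _ (Complex.exp_ne_zero _))
        (Complex.exp_ne_zero _))) (2 * Real.pi) 0
  have e1 : w (2 * Real.pi) = w 0 + 2 * Real.pi * Complex.I := by simp [w]
  simp only [e1, Complex.exp_periodic (w 0)] at k
  have : ((d : ℂ) - d') * (2 * Real.pi * Complex.I) = 0 := by linear_combination k
  rcases mul_eq_zero.1 this with k | k
  · exact_mod_cast sub_eq_zero.1 k
  · exact (Complex.two_pi_I_ne_zero k).elim

/-- a factor without zero near the point does not change the local degree -/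
theorem pl_at {f f' u : ℂ → ℂ} {p : ℂ} {d : ℤ} {r : ℝ} (h : DegAt f p d) (hr : 0 < r)
    (hc : ContinuousOn u (Metric.ball p r)) (h0 : ∀ q ∈ Metric.ball p r, u q ≠ 0)
    (e : ∀ q ∈ Metric.ball p r, f' q = f q * u q) : DegAt f' p d := by
  obtain ⟨s, hs, l, c, e'⟩ := h
  obtain ⟨m, m1, m2⟩ := pl_log (convex_ball p r) Metric.isOpen_ball ⟨p, Metric.mem_ball_self hr⟩
    hc h0
  have s1 : Metric.ball p (min r s) \ {p} ⊆ Metric.ball p r := fun q hq =>
    Metric.ball_subset_ball (min_le_left _ _) hq.1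
  have s2 : Metric.ball p (min r s) \ {p} ⊆ Metric.ball p s \ {p} := fun q hq =>
    ⟨Metric.ball_subset_ball (min_le_right _ _) hq.1, hq.2⟩
  refine ⟨min r s, lt_min hr hs, fun q => l q + m q, (c.mono s2).add (m1.mono s1), fun q hq => ?_⟩
  rw [e q (s1 hq), e' q (s2 hq), Complex.exp_add, m2 q (s1 hq), mul_assoc]

/-- a linear factor at infinity -/
theorem pl_inf {f f' : ℂ → ℂ} {p : ℂ} {d d' : ℤ} {M : ℝ} (h : DegInf f d)
    (e : ∀ q, M ≤ ‖q‖ → f' q = f q * (q - p) ^ d') : DegInf f' (d' + d) := by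
  obtain ⟨N, hN, l, c, e'⟩ := h
  have key : ∀ q : ℂ, max (max M N) (‖p‖ + 1) ≤ ‖q‖ → M ≤ ‖q‖ ∧ N ≤ ‖q‖ ∧ q ≠ 0 ∧
      1 + -p / q ∈ Complex.slitPlane := fun q hq => by
    have a := (le_max_left _ _).trans ((le_max_left _ _).trans hq)
    have b := (le_max_right _ _).trans ((le_max_left _ _).trans hq)
    have c := (le_max_right _ _).trans hq
    have n : 0 < ‖q‖ := by linarith
    refine ⟨a, b, norm_pos_iff.1 n, Complex.mem_slitPlane_of_norm_lt_one ?_⟩
    rw [norm_div, norm_neg, div_lt_one n]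
    linarith
  refine ⟨max (max M N) (‖p‖ + 1), lt_max_of_lt_left (lt_max_of_lt_right hN),
    fun q => l q + d' * Complex.log (1 + -p / q), (c.mono fun q hq => (key q hq).2.1).add
      (continuousOn_const.mul (ContinuousOn.clog (continuousOn_const.add
        (continuousOn_const.div continuousOn_id fun q hq => (key q hq).2.2.1))
        fun q hq => (key q hq).2.2.2)), fun q hq => ?_⟩
  obtain ⟨a, b, n, s⟩ := key q hq
  have : q - p = q * (1 + -p / q) := by field_simp; ring
  rw [e q a, e' q b, Complex.exp_add, Complex.exp_int_mul,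
    Complex.exp_log (Complex.slitPlane_ne_zero s), this, mul_zpow, zpow_add₀ n]
  ring

/-- removing one zero -/
theorem pl_fill {f : ℂ → ℂ} {p : ℂ} {d : ℤ} (hc : Continuous f) (h : DegAt f p d) {r : ℝ}
    (hr : 0 < r) : ∃ f' : ℂ → ℂ, Continuous f' ∧ ∃ s, 0 < s ∧ s < r ∧
      (∀ q, ‖q - p‖ ≤ s → f' q ≠ 0) ∧ ∀ q, s ≤ ‖q - p‖ → f' q = f q * (q - p) ^ (-d) := by
  obtain ⟨t, ht, l, c, e⟩ := h
  have hs : 0 < min r t / 2 := half_pos (lt_min hr ht)
  have s1 : min r t / 2 < r := by linarith [min_le_left r t]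
  have s2 : min r t / 2 < t := by linarith [min_le_right r t]
  generalize min r t / 2 = s at hs s1 s2
  have n : ∀ q, s ≤ ‖q - p‖ → q - p ≠ 0 := fun q hq => norm_pos_iff.1 (by linarith)
  have sub : ∀ q ∈ Metric.sphere p s, q ∈ Metric.ball p t \ {p} := fun q hq => by
    rw [mem_sphere_iff_norm] at hq
    exact ⟨by rw [Metric.mem_ball, dist_eq_norm]; linarith, sub_ne_zero.1 (n q hq.ge)⟩
  obtain ⟨m, hm⟩ := ContinuousMap.exists_restrict_eq (Metric.isClosed_sphere (x := p) (ε := s))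
    ⟨_, continuousOn_iff_continuous_domRestrict.1 (c.mono sub)⟩
  have eq : ∀ q, ‖q - p‖ = s → Complex.exp (m q) = f q * (q - p) ^ (-d) := fun q hq => by
    have hq' := mem_sphere_iff_norm.2 hq
    have : m q = l q := DFunLike.congr_fun hm ⟨q, hq'⟩
    have n' := zpow_ne_zero d (n q hq.ge)
    rw [this, e q (sub q hq'), zpow_neg]
    field_simp
  refine ⟨fun q => if ‖q - p‖ ≤ s then Complex.exp (m q) else f q * (q - p) ^ (-d),
    continuous_if_le (by fun_prop) continuous_const (by fun_prop) (hc.continuousOn.mul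
      ((continuousOn_id.sub continuousOn_const).zpow₀ _ fun q hq => Or.inl (n q hq))) eq,
    s, hs, s1, fun q hq => ?_, fun q hq => ?_⟩
  · simp only [if_pos hq]
    exact Complex.exp_ne_zero _
  · by_cases k : ‖q - p‖ ≤ s
    · simp only [if_pos k]
      exact eq q (le_antisymm k hq)
    · simp only [if_neg k]

theorem degInf_sum {ι : Type} (Z : Finset ι) (c : ι → ℂ) (d : ι → ℤ) (hi : InjOn c Z) {f : ℂ → ℂ}
    (hc : Continuous f) (h0 : ∀ q, f q = 0 → ∃ i ∈ Z, q = c i)
    (hd : ∀ i ∈ Z, DegAt f (c i) (d i)) : DegInf f (∑ i ∈ Z, d i) := by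
  classical
  induction Z using Finset.induction_on generalizing f with
  | empty =>
    obtain ⟨l, h1, h2⟩ := pl_log convex_univ isOpen_univ univ_nonempty hc.continuousOn
      fun q _ e => by simpa using h0 q e
    exact ⟨1, one_pos, l, h1.mono (subset_univ _), fun q _ => by simp [h2 q trivial]⟩
  | insert i Z hiZ ih =>
    have ne : ∀ j ∈ Z, c j ≠ c i := fun j hj e =>
      hiZ (hi (by simp [hj]) (by simp) e ▸ hj)
    obtain ⟨r, hr, far⟩ : ∃ r > 0, ∀ j ∈ Z, r ≤ ‖c j - c i‖ := by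
      have : ∀ᶠ r in 𝓝[>] (0 : ℝ), ∀ j ∈ Z, r ≤ ‖c j - c i‖ :=
        (eventually_all_finset Z).2 fun j hj => mem_nhdsWithin_of_mem_nhds
          (Iic_mem_nhds (norm_pos_iff.2 (sub_ne_zero.2 (ne j hj))))
      obtain ⟨r, h1, h2⟩ := (this.and self_mem_nhdsWithin).exists
      exact ⟨r, h2, h1⟩
    obtain ⟨f', c', s, hs, sr, n1, n2⟩ := pl_fill hc (hd i (by simp)) hr
    have n : ∀ q, s ≤ ‖q - c i‖ → q - c i ≠ 0 := fun q hq => norm_pos_iff.1 (by linarith)
    have k := ih (hi.mono (by simp)) c' (fun q e => ?_) fun j hj => ?_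
    · rw [Finset.sum_insert hiZ]
      refine pl_inf (p := c i) (M := ‖c i‖ + s) k fun q hq => ?_
      have a : s ≤ ‖q - c i‖ := by linarith [norm_sub_norm_le q (c i)]
      have n' := zpow_ne_zero (d i) (n q a)
      rw [n2 q a, zpow_neg]
      field_simp
    · have a : s ≤ ‖q - c i‖ := (not_le.1 fun k => n1 q k e).le
      rw [n2 q a] at e
      obtain ⟨j, hj, rfl⟩ := h0 q ((mul_eq_zero.1 e).resolve_right (zpow_ne_zero _ (n q a)))
      exact ⟨j, (Finset.mem_insert.1 hj).resolve_left fun e => n _ a (by rw [e, sub_self]), rfl⟩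
    · have a : ∀ q ∈ Metric.ball (c j) (r - s), s ≤ ‖q - c i‖ := fun q hq => by
        rw [Metric.mem_ball, dist_eq_norm, norm_sub_rev] at hq
        have := norm_sub_le_norm_sub_add_norm_sub (c j) q (c i)
        linarith [far j hj]
      exact pl_at (u := fun q => (q - c i) ^ (-d i)) (hd j (by simp [hj])) (sub_pos.2 sr)
        ((continuousOn_id.sub continuousOn_const).zpow₀ _ fun q hq => Or.inl (n q (a q hq)))
        (fun q hq => zpow_ne_zero _ (n q (a q hq))) fun q hq => n2 q (a q hq)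

/-- a map that never points opposite to the model has the degree of the model -/
theorem pl_model {f m : ℂ → ℂ} {d : ℤ} (hm : DegInf m d) (hc : Continuous f) (M : ℝ)
    (h : ∀ q, M ≤ ‖q‖ → ∀ s : ℝ, 0 ≤ s → f q ≠ -s * m q) : DegInf f d := by
  obtain ⟨N, hN, l, c, e⟩ := hm
  have key : ∀ q : ℂ, max M N ≤ ‖q‖ → N ≤ ‖q‖ ∧ q ≠ 0 ∧ q ^ d * Complex.exp (l q) ≠ 0 ∧
      f q / (q ^ d * Complex.exp (l q)) ∈ Complex.slitPlane := fun q hq => by
    have a := (le_max_left _ _).trans hq
    have b := (le_max_right _ _).trans hq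
    have n : q ≠ 0 := norm_pos_iff.1 (by linarith)
    have n' := mul_ne_zero (zpow_ne_zero d n) (Complex.exp_ne_zero (l q))
    refine ⟨b, n, n', ?_⟩
    rw [← e q b] at n' ⊢
    by_contra k
    rw [Complex.mem_slitPlane_iff, not_or, not_lt, not_not] at k
    refine h q a (-(f q / m q).re) (by linarith) ?_
    have : ((f q / m q).re : ℂ) = f q / m q := Complex.ext (by simp) (by simp [k.2])
    push_cast
    rw [this]
    field_simp
  have c1 := c.mono (t := {q | max M N ≤ ‖q‖}) fun q hq => (key q hq).1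
  refine ⟨max M N, lt_max_of_lt_right hN,
    fun q => l q + Complex.log (f q / (q ^ d * Complex.exp (l q))), c1.add (ContinuousOn.clog
      (hc.continuousOn.div ((continuousOn_id.zpow₀ _ fun q hq => Or.inl (key q hq).2.1).mul
        c1.cexp) fun q hq => (key q hq).2.2.1) fun q hq => (key q hq).2.2.2), fun q hq => ?_⟩
  obtain ⟨-, -, n, s⟩ := key q hq
  rw [Complex.exp_add, Complex.exp_log (Complex.slitPlane_ne_zero s), ← mul_assoc,
    mul_div_cancel₀ _ n]

theorem pl_c {c : ℂ} (hc : c ≠ 0) : DegInf (fun _ => c) 0 :=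
  ⟨1, one_pos, fun _ => Complex.log c, continuousOn_const, fun q _ => by
    simp [Complex.exp_log hc]⟩

theorem pl_id : DegInf (fun q => q) 1 :=
  ⟨1, one_pos, fun _ => 0, continuousOn_const, fun q _ => by simp⟩

theorem pl_conj {c : ℂ} (hc : c ≠ 0) : DegInf (fun q => c * (starRingEnd ℂ) q) (-1) := by
  have n : ∀ q : ℂ, 1 ≤ ‖q‖ → 0 < ‖q‖ ^ 2 := fun q hq => by positivity
  refine ⟨1, one_pos, fun q => Complex.log c + (Real.log (‖q‖ ^ 2) : ℝ), continuousOn_const.add
    (Complex.continuous_ofReal.comp_continuousOn (ContinuousOn.log (by fun_prop)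
      fun q hq => (n q hq).ne')), fun q hq => ?_⟩
  have n' : q ≠ 0 := norm_pos_iff.1 (by linarith)
  rw [Complex.exp_add, Complex.exp_log hc, ← Complex.ofReal_exp, Real.exp_log (n q hq),
    ← Complex.normSq_eq_norm_sq, ← Complex.mul_conj]
  field_simp

theorem pl_big {q : ℂ} {M : ℝ} (h : |M| + 2 ≤ ‖q‖) :
    (|q.im| ≤ 1 → (q.re ≤ -M ∧ q.re < 0) ∨ (M ≤ q.re ∧ 0 < q.re)) ∧
      (|q.re| ≤ 1 → (q.im ≤ -M ∧ q.im < 0) ∨ (M ≤ q.im ∧ 0 < q.im)) := by
  have a := Complex.norm_le_abs_re_add_abs_im q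
  have b := le_abs_self M
  have c := abs_nonneg M
  constructor <;> intro k
  · rcases abs_cases q.re with e | e
    · exact Or.inr ⟨by linarith, by linarith⟩
    · exact Or.inl ⟨by linarith, by linarith⟩
  · rcases abs_cases q.im with e | e
    · exact Or.inr ⟨by linarith, by linarith⟩
    · exact Or.inl ⟨by linarith, by linarith⟩

/-- strip picture: `f.im` has the sign of the height outside the strip, `f.re` has the signs
`a` on the left and `b` on the right inside the strip -/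
theorem degInf_strip {f : ℂ → ℂ} (hc : Continuous f) {M a b : ℝ} (ha : a = 1 ∨ a = -1)
    (hb : b = 1 ∨ b = -1) (h0 : ∀ q : ℂ, q.im ≤ 0 → (f q).im < 0)
    (h1 : ∀ q : ℂ, 1 ≤ q.im → 0 < (f q).im)
    (hl : ∀ q : ℂ, 0 ≤ q.im → q.im ≤ 1 → q.re ≤ -M → 0 < a * (f q).re)
    (hr : ∀ q : ℂ, 0 ≤ q.im → q.im ≤ 1 → M ≤ q.re → 0 < b * (f q).re) :
    ∃ d : ℤ, DegInf f d ∧ (2 * d : ℝ) = b - a := by
  have key : ∀ {m : ℂ → ℂ} {d : ℤ}, DegInf m d → (∀ q : ℂ, (q.im ≤ 0 → (m q).im ≤ 0) ∧
      (0 ≤ q.im → 0 ≤ (m q).im) ∧ (q.re < 0 → 0 ≤ a * (m q).re) ∧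
      (0 < q.re → 0 ≤ b * (m q).re)) → DegInf f d := fun {m d} hm H => by
    refine pl_model hm hc (|M| + 2) fun q hq s hs e => ?_
    obtain ⟨k1, k2, k3, k4⟩ := H q
    have e1 : (f q).re = -s * (m q).re := by rw [e]; simp
    have e2 : (f q).im = -s * (m q).im := by rw [e]; simp
    rcases le_total q.im 0 with u | u
    · nlinarith [h0 q u, mul_nonneg hs (neg_nonneg.2 (k1 u))]
    rcases le_total 1 q.im with v | v
    · nlinarith [h1 q v, mul_nonneg hs (k2 u)]
    rcases (pl_big hq).1 (abs_le.2 ⟨by linarith, v⟩) with w | w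
    · have := hl q u v w.1
      rw [e1] at this
      nlinarith [mul_nonneg hs (k3 w.2)]
    · have := hr q u v w.1
      rw [e1] at this
      nlinarith [mul_nonneg hs (k4 w.2)]
  rcases ha with rfl | rfl <;> rcases hb with rfl | rfl
  · exact ⟨0, key (pl_c one_ne_zero) fun q => by simp, by norm_num⟩
  · refine ⟨-1, key (pl_conj (c := -1) (by simp)) fun q => ?_, by norm_num⟩
    simp only [neg_mul, one_mul, Complex.neg_im, Complex.neg_re, Complex.conj_im, Complex.conj_re]
    refine ⟨fun _ => ?_, fun _ => ?_, fun _ => ?_, fun _ => ?_⟩ <;> linarith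
  · refine ⟨1, key pl_id fun q => ?_, by norm_num⟩
    refine ⟨fun _ => ?_, fun _ => ?_, fun _ => ?_, fun _ => ?_⟩ <;> linarith
  · exact ⟨0, key (pl_c (c := -1) (by simp)) fun q => by simp, by norm_num⟩

/-- band picture -/
theorem degInf_band {f : ℂ → ℂ} (hc : Continuous f) {M a b : ℝ} (ha : a = 1 ∨ a = -1)
    (hb : b = 1 ∨ b = -1) (h0 : ∀ q : ℂ, q.re ≤ -1 / 4 → (f q).re < 0)
    (h1 : ∀ q : ℂ, 1 / 4 ≤ q.re → 0 < (f q).re)
    (hl : ∀ q : ℂ, |q.re| ≤ 1 / 4 → q.im ≤ -M → 0 < a * (f q).im)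
    (hr : ∀ q : ℂ, |q.re| ≤ 1 / 4 → M ≤ q.im → 0 < b * (f q).im) :
    ∃ d : ℤ, DegInf f d ∧ (2 * d : ℝ) = b - a := by
  have key : ∀ {m : ℂ → ℂ} {d : ℤ}, DegInf m d → (∀ q : ℂ, (q.re ≤ 0 → (m q).re ≤ 0) ∧
      (0 ≤ q.re → 0 ≤ (m q).re) ∧ (q.im < 0 → 0 ≤ a * (m q).im) ∧
      (0 < q.im → 0 ≤ b * (m q).im)) → DegInf f d := fun {m d} hm H => by
    refine pl_model hm hc (|M| + 2) fun q hq s hs e => ?_
    obtain ⟨k1, k2, k3, k4⟩ := H q
    have e1 : (f q).re = -s * (m q).re := by rw [e]; simp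
    have e2 : (f q).im = -s * (m q).im := by rw [e]; simp
    rcases le_total q.re (-1 / 4) with u | u
    · nlinarith [h0 q u, mul_nonneg hs (neg_nonneg.2 (k1 (by linarith)))]
    rcases le_total (1 / 4) q.re with v | v
    · nlinarith [h1 q v, mul_nonneg hs (k2 (by linarith))]
    have t : |q.re| ≤ 1 / 4 := abs_le.2 ⟨by linarith, v⟩
    rcases (pl_big hq).2 (by linarith) with w | w
    · have := hl q t w.1
      rw [e2] at this
      nlinarith [mul_nonneg hs (k3 w.2)]
    · have := hr q t w.1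
      rw [e2] at this
      nlinarith [mul_nonneg hs (k4 w.2)]
  rcases ha with rfl | rfl <;> rcases hb with rfl | rfl
  · exact ⟨0, key (pl_c Complex.I_ne_zero) fun q => by simp, by norm_num⟩
  · refine ⟨-1, key (pl_conj one_ne_zero) fun q => ?_, by norm_num⟩
    simp only [neg_mul, one_mul, Complex.conj_im, Complex.conj_re]
    refine ⟨fun _ => ?_, fun _ => ?_, fun _ => ?_, fun _ => ?_⟩ <;> linarith
  · refine ⟨1, key pl_id fun q => ?_, by norm_num⟩
    refine ⟨fun _ => ?_, fun _ => ?_, fun _ => ?_, fun _ => ?_⟩ <;> linarith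
  · exact ⟨0, key (pl_c (neg_ne_zero.2 Complex.I_ne_zero)) fun q => by simp, by norm_num⟩

/-- a small perturbation with finitely many zeros -/
theorem exists_perturb {V : ℝ → ℝ} (hV : Continuous V) {T : ℝ} (hT : 0 ≤ T)
    (h : ∀ t, T ≤ |t| → |V t| = 1 / 4) : ∃ e : ℝ → ℝ, Continuous e ∧ (∀ t, |e t| ≤ 1 / 8) ∧
      (∀ t, T + 1 ≤ |t| → e t = 0) ∧ {t | V t + e t = 0}.Finite := by
  obtain ⟨P, hP⟩ := exists_polynomial_near_of_continuousOn (-(T + 1)) (T + 1) V hV.continuousOn
    (1 / 8) (by norm_num)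
  have z : ∀ t, T + 1 ≤ |t| → max 0 (min 1 (T + 1 - |t|)) * (P.eval t - V t) = 0 := fun t ht => by
    rw [max_eq_left (min_le_of_right_le (by linarith)), zero_mul]
  have b : ∀ t, |max 0 (min 1 (T + 1 - |t|)) * (P.eval t - V t)| ≤ 1 / 8 := fun t => by
    rcases le_total (T + 1) |t| with k | k
    · rw [z t k]; norm_num
    · have := (hP t (abs_le.1 k)).le
      rw [abs_mul, abs_of_nonneg (le_max_left _ _)]
      exact (mul_le_of_le_one_left (abs_nonneg _)
        (max_le zero_le_one (min_le_left _ _))).trans this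
  have n : P ≠ 0 := fun e => by
    have a := hP T ⟨by linarith, by linarith⟩
    rw [e, Polynomial.eval_zero, zero_sub, abs_neg, h T (le_abs_self T)] at a
    norm_num at a
  refine ⟨fun t => max 0 (min 1 (T + 1 - |t|)) * (P.eval t - V t), by fun_prop, b, z,
    (Polynomial.finite_setOfPred_isRoot n).subset fun t ht => ?_⟩
  have ht' : V t + max 0 (min 1 (T + 1 - |t|)) * (P.eval t - V t) = 0 := ht
  rcases le_total T |t| with k | k
  · have a := b t
    rw [← neg_eq_of_add_eq_zero_right ht', abs_neg, h t k] at a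
    norm_num at a
  · rw [min_eq_left (by linarith), max_eq_right zero_le_one] at ht'
    show P.eval t = 0
    linarith

end Pool.Agent.Lib.MP_294da1_gt.Br
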