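import Pool.Agent.Lib.MP_294da1_gt.Br.Strip
import Pool.Agent.Lib.MP_294da1_gt.Br.Plane

/-! A positive strip and a vertical band cross with opposite signs. -/

set_option autoImplicit false

namespace Pool.Agent.Lib.MP_294da1_gt.Br

open Pool.Agent.Lib.MP_a47850_al Pool.Agent.Lib.MP_a47850_al.Mcg Set Filter Topology

variable {g : ℕ} {φ : ℂ → Surf g} {σ : ℂ → E g} {h : F g} {u v : E g → ℝ}

theorem bd_inj (L : Lf φ σ h) (h1 : h ≠ 1) : Function.Injective σ := fun q q' e => by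
  obtain ⟨k, a, b⟩ := (L.eq_iff 1 q q').1 (by rw [one_smul]; exact e)
  rw [a, zpow_eq_one' h1 b.symm]; simp

theorem bd_two {f : ℂ → ℝ} (hf : Continuous f) {C : Set ℂ} (hC : Convex ℝ C)
    (h : ∀ q ∈ C, |f q| = 1 / 4) {q q' : ℂ} (a : q ∈ C) (b : q' ∈ C) : f q = f q' := by
  have key : ∀ q ∈ C, ∀ q' ∈ C, f q ≤ 0 → 0 ≤ f q' → False := fun q a q' b c d => by
    obtain ⟨w, hw, e⟩ := hC.isPreconnected.intermediate_value a b hf.continuousOn ⟨c, d⟩
    have := h w hw
    rw [e] at this; norm_num at this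
  have c := h q a
  have d := h q' b
  rcases le_total (f q) 0 with i | i <;> rcases le_total (f q') 0 with j | j
  · rw [abs_of_nonpos i] at c; rw [abs_of_nonpos j] at d; linarith
  · exact (key q a q' b i j).elim
  · exact (key q' b q a j i).elim
  · rw [abs_of_nonneg i] at c; rw [abs_of_nonneg j] at d; linarith

theorem bd_off {x : F g} {n : ℕ} (V : Band x n v) {e : E g} (he : e ∉ sq x) : |v e| = 1 / 4 := by
  obtain ⟨y, z, rfl⟩ := (X g).s_surj e
  rw [V.off y (by rintro rfl; exact he ⟨z, rfl⟩), sg]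
  split_ifs <;> norm_num [abs_of_neg]

theorem bd_iso {ι : Type} (Z : Finset ι) (c : ι → ℂ) (p : ℂ) :
    ∃ r > 0, ∀ i ∈ Z, c i ∉ Metric.ball p r \ {p} := by
  have hc : IsClosed (c '' Z \ {p}) := ((Z.finite_toSet.image c).subset sdiff_subset).isClosed
  obtain ⟨r, hr, hb⟩ := Metric.isOpen_iff.1 hc.isOpen_compl p fun h => h.2 rfl
  exact ⟨r, hr, fun i hi h => hb h.1 ⟨⟨i, hi, rfl⟩, h.2⟩⟩

theorem bd_pr (n : ℝ) (z : Sq g) : pr g (n + (cx g z - n).re) (cx g z - n).im = z :=
  (Top.eq_pr (by simp [cx]) (by simp [cx])).symm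

theorem bd_cx : Continuous (cx g) := by
  have : cx g = fun z => Complex.equivRealProdCLM.symm z.1 := by
    funext z; apply Complex.ext <;> simp [cx]
  rw [this]; fun_prop

theorem bd_clamp {x y : ℝ} (h : max 0 (min x (4 * g)) = y) (h0 : 0 < y) (h1 : y < 4 * g) :
    x = y := by
  rcases le_total x (4 * g) with a | a
  · rw [min_eq_left a] at h
    rcases le_total 0 x with b | b
    · rwa [max_eq_right b] at h
    · rw [max_eq_left b] at h; linarith
  · rw [min_eq_right a, max_eq_right (Top.g4 g)] at h; linarith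

/-- the local degree is the same in the strip and in the square -/
theorem bd_transfer (L : Lf φ σ h) {K : E g → ℂ} {x : F g} {p : ℂ} {z : Sq g} (n : ℝ)
    (e : σ p = (X g).s x z) (hz : 0 < z.1.2) {d : ℤ}
    (D : DegAt (fun w => K ((X g).s x (pr g (n + w.re) w.im))) (cx g z - n) d) :
    DegAt (fun q => K (σ q)) p d := by
  obtain ⟨r1, hr1, ψ, l, cl, hl⟩ := L.ann.2.2.2.2 p z (by rw [← L.lifts, e]; rfl) hz
  obtain ⟨r2, hr2, m, cm, hm⟩ := D
  have o : IsOpen ((X g).s x '' {w | 0 < w.1.2 ∧ cx g w - n ∈ Metric.ball (cx g z - n) r2}) :=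
    open_in x (IsOpen.and (isOpen_lt continuous_const (by fun_prop))
      (Metric.isOpen_ball.preimage (bd_cx.sub continuous_const))) fun w hw => hw.1
  obtain ⟨r3, hr3, hb⟩ := Metric.isOpen_iff.1 (o.preimage L.cont) p
    ⟨z, ⟨hz, Metric.mem_ball_self hr2⟩, e.symm⟩
  have s1 : Metric.ball p (min r1 r3) \ {p} ⊆ Metric.ball p r1 \ {p} :=
    sdiff_subset_sdiff_left (Metric.ball_subset_ball (min_le_left _ _))
  have key : ∀ q ∈ Metric.ball p (min r1 r3) \ {p}, σ q = (X g).s x (ψ q) ∧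
      cx g (ψ q) - n = cx g z - n + (q - p) * Complex.exp (l q) ∧
      cx g (ψ q) - n ∈ Metric.ball (cx g z - n) r2 \ {cx g z - n} := by
    intro q hq
    obtain ⟨w, ⟨w1, w2⟩, w3⟩ := hb (Metric.ball_subset_ball (min_le_right _ _) hq.1)
    obtain ⟨a, b⟩ := hl q (s1 hq)
    obtain rfl : w = ψ q := pt_in w1 (by rw [← a, ← L.lifts, ← w3]; rfl)
    refine ⟨w3.symm, by rw [← b]; ring, w2, fun c => ?_⟩
    rw [mem_singleton_iff, sub_left_inj] at c
    rw [c, sub_self] at b
    exact mul_ne_zero (sub_ne_zero.2 hq.2) (Complex.exp_ne_zero _) b.symm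
  have cl' := cl.mono s1
  refine ⟨min r1 r3, lt_min hr1 hr3,
    fun q => d * l q + m (cx g z - n + (q - p) * Complex.exp (l q)), ?_, fun q hq => ?_⟩
  · refine (continuousOn_const.mul cl').add (cm.comp (continuousOn_const.add
      ((continuousOn_id.sub continuousOn_const).mul cl'.cexp)) fun q hq => ?_)
    have := key q hq
    exact this.2.1 ▸ this.2.2
  · obtain ⟨a, b, c⟩ := key q hq
    have := hm _ c
    simp only [bd_pr] at this
    simp only [a, this, b, add_sub_cancel_left, mul_zpow, Complex.exp_add, Complex.exp_int_mul,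
      mul_assoc]

theorem band_eq (L : Lf φ σ h) (h1 : h ≠ 1) (U : Side σ u) {x : F g} {n : ℕ} (n1 : 1 ≤ n)
    (n2 : n < 4 * g) (V : Band x n v) : ∃ T : ℝ, ∀ q q' : ℂ, 0 ≤ q.im → q.im ≤ 1 → 0 ≤ q'.im →
      q'.im ≤ 1 → T ≤ q.re → q'.re ≤ -T →
      u (bp x) - u ((X g).s x (pr g n 0)) = 2 * (v (σ q) - v (σ q')) := by
  classical
  obtain ⟨T0, hT0⟩ := L.far h1 x
  have inj := bd_inj L h1
  have n1' : (1 : ℝ) ≤ n := by exact_mod_cast n1
  have n2' : (n : ℝ) + 1 ≤ 4 * g := Top.cast_le n2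
  set T := |T0| + 1 with hT
  have T0' : 0 ≤ T := by positivity
  have far : ∀ q : ℂ, 0 ≤ q.im → q.im ≤ 1 → T ≤ |q.re| → |v (σ q)| = 1 / 4 := fun q a b c =>
    bd_off V fun k => by linarith [hT0 q a b k, le_abs_self T0]
  have cv : Continuous fun q => v (σ q) := V.cont.comp L.cont
  have cst : Convex ℝ {q : ℂ | 0 ≤ q.im ∧ q.im ≤ 1} :=
    (convex_halfSpace_im_ge 0).inter (convex_halfSpace_im_le 1)
  have rt : ∀ q q' : ℂ, 0 ≤ q.im → q.im ≤ 1 → T ≤ q.re → 0 ≤ q'.im → q'.im ≤ 1 → T ≤ q'.re →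
      v (σ q) = v (σ q') := fun q q' a b c d e f =>
    bd_two cv (cst.inter (convex_halfSpace_re_ge T))
      (fun q hq => far q hq.1.1 hq.1.2 (hq.2.trans (le_abs_self _))) ⟨⟨a, b⟩, c⟩ ⟨⟨d, e⟩, f⟩
  have lt : ∀ q q' : ℂ, 0 ≤ q.im → q.im ≤ 1 → q.re ≤ -T → 0 ≤ q'.im → q'.im ≤ 1 → q'.re ≤ -T →
      v (σ q) = v (σ q') := fun q q' a b c d e f =>
    bd_two cv (cst.inter (convex_halfSpace_re_le (-T)))
      (fun q hq => far q hq.1.1 hq.1.2 ((le_neg.1 hq.2).trans (neg_le_abs _))) ⟨⟨a, b⟩, c⟩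
      ⟨⟨d, e⟩, f⟩
  refine ⟨T, fun q0 q1 a0 b0 a1 b1 c0 c1 => ?_⟩
  have cl : Continuous fun t : ℝ => (⟨t, 1 / 2⟩ : ℂ) :=
    (Complex.continuous_ofReal.add (continuous_const (y := Complex.I / 2))).congr fun t => by
      apply Complex.ext <;> simp
  obtain ⟨e, ce, e1, e2, e3⟩ := exists_perturb (cv.comp cl) T0'
    fun t ht => far _ (by norm_num) (by norm_num) ht
  have cC : IsCompact {q : ℂ | |q.re| ≤ T + 1 ∧ 0 ≤ q.im ∧ q.im ≤ 1} := by
    refine Metric.isCompact_of_isClosed_isBounded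
      (IsClosed.and (isClosed_le (by fun_prop) continuous_const)
        (IsClosed.and (isClosed_le continuous_const (by fun_prop))
          (isClosed_le (by fun_prop) continuous_const)))
      ((Metric.isBounded_closedBall (x := (0 : ℂ)) (r := T + 2)).subset fun q hq => ?_)
    have := Complex.norm_le_abs_re_add_abs_im q
    rw [abs_of_nonneg hq.2.1] at this
    rw [mem_closedBall_zero_iff]
    linarith [hq.1, hq.2.2]
  obtain ⟨ε, cε, ε1, ε2⟩ := ext_cont L.cont L.isOpenMap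
    (G := fun q => e q.re * max 0 (1 - 2 * |q.im - 1 / 2|)) (by fun_prop)
    (fun q q' k => by rw [inj k]) (cC.image L.cont).isClosed (y := 0) (fun q hq => by
      by_cases k : |q.re| ≤ T + 1
      · rw [max_eq_left, mul_zero]
        by_contra k'
        have := abs_lt.1 (show |q.im - 1 / 2| < 1 / 2 by linarith)
        exact hq ⟨k, by linarith, by linarith⟩
      · rw [e2 _ (not_le.1 k).le, zero_mul])
  have εb : ∀ y, |ε y| ≤ 1 / 8 := fun y => by
    by_cases k : y ∈ σ '' {q : ℂ | |q.re| ≤ T + 1 ∧ 0 ≤ q.im ∧ q.im ≤ 1}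
    · obtain ⟨q, -, rfl⟩ := k
      rw [ε1, abs_mul, abs_of_nonneg (le_max_left 0 (1 - 2 * |q.im - 1 / 2|))]
      have : max 0 (1 - 2 * |q.im - 1 / 2|) ≤ 1 :=
        max_le zero_le_one (by linarith [abs_nonneg (q.im - 1 / 2)])
      nlinarith [e1 q.re, abs_nonneg (e q.re), le_max_left 0 (1 - 2 * |q.im - 1 / 2|)]
    · rw [ε2 y k]; norm_num
  let K : E g → ℂ := fun y => ⟨v y + ε y, u y - 1 / 2⟩
  have cK : Continuous K :=
    ((Complex.continuous_ofReal.comp (V.cont.add cε)).add ((Complex.continuous_ofReal.comp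
      (U.cont.sub (continuous_const (y := 1 / 2)))).mul (continuous_const (y := Complex.I)))).congr
      fun y => by apply Complex.ext <;> simp [K]
  have zK : ∀ y, K y = 0 → ∃ t ∈ e3.toFinset, y = σ ⟨t, 1 / 2⟩ := fun y hy => by
    have r : v y + ε y = 0 := congrArg Complex.re hy
    have i : u y - 1 / 2 = 0 := congrArg Complex.im hy
    obtain ⟨q, rfl, k, -⟩ := U.mid (e := y) (by linarith) (by linarith)
    obtain ⟨t, s⟩ := q
    obtain rfl : s = 1 / 2 := by simp only at k; linarith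
    refine ⟨_, e3.mem_toFinset.2 ?_, rfl⟩
    rw [ε1] at r
    simpa using r
  have ex : ∀ t : ℝ, ∃ z : Sq g, t ∈ e3.toFinset → σ ⟨t, 1 / 2⟩ = (X g).s x z ∧ 0 < z.1.1 ∧
      z.1.1 < 4 * g ∧ 0 < z.1.2 ∧ z.1.2 < 4 * g := fun t => by
    by_cases ht : t ∈ e3.toFinset
    swap
    · exact ⟨pr g 0 0, fun k => absurd k ht⟩
    have k : v (σ ⟨t, 1 / 2⟩) + e t = 0 := e3.mem_toFinset.1 ht
    have k1 : |v (σ ⟨t, 1 / 2⟩)| ≤ 1 / 8 := by rw [eq_neg_of_add_eq_zero_left k, abs_neg]; exact e1 t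
    obtain ⟨z, hz⟩ : σ ⟨t, 1 / 2⟩ ∈ sq x := by
      by_contra k2
      rw [bd_off V k2] at k1; norm_num at k1
    have nb : z ∉ Bd g := fun k2 =>
      L.not_bd 1 ⟨t, 1 / 2⟩ ⟨z, k2, by rw [one_smul, ← hz]; rfl⟩
    rw [← hz, V.on, abs_le] at k1
    have x1 : -1 / 8 ≤ z.1.1 - n := by
      have := k1.1
      rcases le_max_iff.1 this with i | i
      · linarith
      · linarith [min_le_right (1 / 4) (z.1.1 - n)]
    have x2 : z.1.1 - n ≤ 1 / 8 := by
      rcases min_le_iff.1 ((le_max_right _ _).trans k1.2) with i | i <;> linarith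
    refine ⟨z, fun _ => ⟨hz.symm, by linarith, by linarith, z.2.2.1.lt_of_ne fun k2 => nb ?_,
      z.2.2.2.lt_of_ne fun k2 => nb (Or.inr (Or.inr (Or.inl k2)))⟩⟩
    refine Or.inr (Or.inr (Or.inr ⟨k2.symm, fun m => ?_⟩))
    rcases le_or_gt n m with i | i
    · have : (n : ℝ) ≤ m := by exact_mod_cast i
      exact Or.inl (by linarith)
    · have : (m : ℝ) + 1 ≤ n := by exact_mod_cast i
      exact Or.inr (by linarith)
  choose z hz using ex
  let f2 : ℂ → ℂ := fun w => K ((X g).s x (pr g (n + w.re) w.im))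
  have c2 : Continuous f2 := cK.comp (((X g).cont_s x).comp (by fun_prop))
  have z2 : ∀ w, f2 w = 0 → ∃ t ∈ e3.toFinset, w = cx g (z t) - n := fun w hw => by
    obtain ⟨t, ht, k⟩ := zK _ hw
    obtain ⟨k1, k2, k3, k4, k5⟩ := hz t ht
    have := (s_in k4 (k1.symm.trans k.symm)).2
    have i := bd_clamp (congrArg (·.1.1) this).symm k2 k3
    have j := bd_clamp (congrArg (·.1.2) this).symm k4 k5
    refine ⟨t, ht, Complex.ext ?_ ?_⟩ <;> simp [cx] <;> linarith
  have exd : ∀ t, ∃ d, DegAt f2 (cx g (z t) - n) d := fun t => by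
    obtain ⟨r, hr, k⟩ := bd_iso e3.toFinset (fun t => cx g (z t) - n) (cx g (z t) - n)
    refine exists_degAt hr c2.continuousOn fun q hq k' => ?_
    obtain ⟨s, hs, rfl⟩ := z2 q k'
    exact k s hs hq
  choose d hd using exd
  have D2 := degInf_sum e3.toFinset (fun t => cx g (z t) - n) d (fun s hs t ht k => by
    have k1 : z s = z t := by
      rw [← bd_pr n (z s), ← bd_pr n (z t)]
      simp only [Complex.ofReal_natCast] at k ⊢
      rw [k]
    have := inj ((hz s hs).1.trans (k1 ▸ (hz t ht).1.symm))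
    exact congrArg Complex.re this) c2 z2 fun t _ => hd t
  have D1 := degInf_sum e3.toFinset (fun t => (⟨t, 1 / 2⟩ : ℂ)) d
    (fun s _ t _ k => congrArg Complex.re k) (f := fun q => K (σ q)) (cK.comp L.cont)
    (fun q hq => by
      obtain ⟨t, ht, k⟩ := zK _ hq
      exact ⟨t, ht, inj k⟩)
    fun t ht => bd_transfer L n (hz t ht).1 (hz t ht).2.2.2.1 (hd t)
  have sgn : ∀ a : ℝ, |a| = 1 / 4 → (4 * a = 1 ∨ 4 * a = -1) ∧
      ∀ b : ℝ, |b| ≤ 1 / 8 → 0 < 4 * a * (a + b) := fun a k => by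
    rcases (abs_eq (by norm_num)).1 k with rfl | rfl
    · exact ⟨Or.inl (by norm_num), fun b hb => by linarith [(abs_le.1 hb).1]⟩
    · exact ⟨Or.inr (by norm_num), fun b hb => by linarith [(abs_le.1 hb).2]⟩
  have s0 := sgn _ (far q0 a0 b0 (c0.trans (le_abs_self _)))
  have s1 := sgn _ (far q1 a1 b1 ((le_neg.1 c1).trans (neg_le_abs _)))
  obtain ⟨d1, E1, F1⟩ := degInf_strip (f := fun q => K (σ q)) (cK.comp L.cont) (M := T) s1.1 s0.1
    (fun q hq => by
      change u (σ q) - 1 / 2 < 0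
      rw [U.on, max_eq_left ((min_le_right _ _).trans hq)]; norm_num)
    (fun q hq => by
      change 0 < u (σ q) - 1 / 2
      rw [U.on, min_eq_left hq]; norm_num)
    (fun q a b c => by
      change 0 < _ * (v (σ q) + ε (σ q))
      rw [lt q q1 a b c a1 b1 c1]; exact s1.2 _ (εb _))
    (fun q a b c => by
      change 0 < _ * (v (σ q) + ε (σ q))
      rw [rt q q0 a b c a0 b0 c0]; exact s0.2 _ (εb _))
  have sg2 : ∀ a : ℝ, (a = 0 ∨ a = 1) → (2 * a - 1 = 1 ∨ 2 * a - 1 = -1) ∧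
      0 < (2 * a - 1) * (a - 1 / 2) := by
    rintro a (rfl | rfl) <;> norm_num
  have gp := fun (a : ℝ) (ha : |a - n| ≤ 1 / 4) => joined_gap x n2.le ha
  have t0 := sg2 _ (U.bd L (gp n (by simp)).source_mem)
  have t1 := sg2 _ (U.bd L (bp_mem x))
  obtain ⟨d2, E2, F2⟩ := degInf_band c2 (M := 4 * g) t0.1 t1.1
    (fun q hq => by
      change v _ + ε _ < 0
      have : (pr g (n + q.re) q.im).1.1 - n ≤ -1 / 4 := by
        change max 0 (min _ _) - _ ≤ _
        rw [sub_le_iff_le_add]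
        exact max_le (by linarith) ((min_le_left _ _).trans (by linarith))
      rw [V.on, max_eq_left ((min_le_right _ _).trans this)]
      linarith [(abs_le.1 (εb ((X g).s x (pr g (n + q.re) q.im)))).2])
    (fun q hq => by
      change 0 < v _ + ε _
      have : 1 / 4 ≤ (pr g (n + q.re) q.im).1.1 - n := by
        change _ ≤ max 0 (min _ _) - _
        rw [le_sub_iff_add_le]
        exact le_max_of_le_right (le_min (by linarith) (by linarith))
      rw [V.on, min_eq_left this, max_eq_right (by norm_num)]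
      linarith [(abs_le.1 (εb ((X g).s x (pr g (n + q.re) q.im)))).1])
    (fun q a b => by
      change 0 < _ * (u _ - 1 / 2)
      have : pr g (n + q.re) q.im = pr g (n + q.re) 0 := by
        refine Subtype.ext (Prod.ext rfl ?_)
        change max 0 (min _ _) = max 0 (min _ _)
        have := Top.g4 g
        rw [max_eq_left ((min_le_left _ _).trans (by linarith)), max_eq_left (min_le_left _ _)]
      rw [this, ← U.joined L (gp (n + q.re) (by simpa using a))]
      exact t0.2)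
    (fun q a b => by
      change 0 < _ * (u _ - 1 / 2)
      rw [← U.joined L (joined_out x (z := pr g (n + q.re) q.im) (Or.inr (Or.inr (by
        change max 0 (min _ _) = _
        rw [min_eq_right b, max_eq_right (Top.g4 g)]))))]
      exact t1.2)
  have : d1 = d2 := (E1.unique D1).trans (D2.unique E2)
  rw [this] at F1
  linarith

end Pool.Agent.Lib.MP_294da1_gt.Br
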