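import Pool.Agent.Lib.MP_294da1_gt.Br.Set

/-! Point set topology of the cover. -/

set_option autoImplicit false

namespace Pool.Agent.Lib.MP_294da1_gt.Br

open Pool.Agent.Lib.MP_a47850_al Pool.Agent.Lib.MP_a47850_al.Mcg Set Filter Topology

section gen

variable {ι P S : Type} [TopologicalSpace P] [TopologicalSpace S] (Y : Top.Pat ι P S)

theorem base_closed_E {U : Set Y.E} (h : ∀ x, IsClosed (Y.s x ⁻¹' U)) : IsClosed U :=
  isOpen_compl_iff.1 (Y.open_E fun x => (h x).isOpen_compl)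

theorem base_arcs [Finite ι] [T2Space P] {C : Set P} {D D' : ι → Set P} (hC : IsClosed C)
    (hD : ∀ k, IsClosed (D k)) (hD' : ∀ k, IsClosed (D' k)) :
    IsClosed (C ∪ (⋃ k, Y.A k '' (Y.B k ⁻¹' D k)) ∪ ⋃ k, Y.B k '' (Y.A k ⁻¹' D' k)) :=
  (hC.union (isClosed_iUnion_of_finite fun k =>
    (Y.A k).continuous.isClosedMap _ ((hD k).preimage (Y.B k).continuous))).union
    (isClosed_iUnion_of_finite fun k =>
      (Y.B k).continuous.isClosedMap _ ((hD' k).preimage (Y.A k).continuous))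

theorem base_q_closed [Finite ι] [T2Space P] : IsClosedMap Y.q := by
  intro C hC
  refine Y.quo.isClosed_preimage.1 ?_
  have e : Y.q ⁻¹' (Y.q '' C) =
      C ∪ (⋃ k, Y.A k '' (Y.B k ⁻¹' C)) ∪ ⋃ k, Y.B k '' (Y.A k ⁻¹' C) := by
    ext z
    constructor
    · rintro ⟨w, hw, e⟩
      rcases (Y.eq w z).1 e with rfl | ⟨k, t, rfl, rfl⟩ | ⟨k, t, rfl, rfl⟩
      · exact Or.inl (Or.inl hw)
      · exact Or.inr (mem_iUnion.2 ⟨k, t, hw, rfl⟩)
      · exact Or.inl (Or.inr (mem_iUnion.2 ⟨k, t, hw, rfl⟩))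
    · rintro ((h | h) | h)
      · exact ⟨z, h, rfl⟩
      · obtain ⟨k, t, ht, rfl⟩ := mem_iUnion.1 h
        exact ⟨_, ht, (Y.q_AB k t).symm⟩
      · obtain ⟨k, t, ht, rfl⟩ := mem_iUnion.1 h
        exact ⟨_, ht, Y.q_AB k t⟩
  rw [e]
  exact base_arcs Y hC (fun _ => hC) fun _ => hC

include Y in
theorem base_t2 [Finite ι] [T2Space P] [CompactSpace P] : T2Space S := by
  have hp : IsProperMap Y.q := by
    refine isProperMap_iff_isClosedMap_and_compact_fibers.2
      ⟨Y.q.continuous, base_q_closed Y, fun y => ?_⟩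
    obtain ⟨z, rfl⟩ := Y.quo.surjective y
    have c := (base_q_closed Y _ (isClosed_singleton (x := z))).preimage Y.q.continuous
    rw [image_singleton] at c
    exact c.isCompact
  have c := (hp.prodMap hp).isClosedMap _ (isClosed_diagonal (X := P))
  have e : Prod.map Y.q Y.q '' diagonal P = diagonal S := by
    ext ⟨a, b⟩
    constructor
    · rintro ⟨⟨z, w⟩, h, e⟩
      obtain rfl : z = w := h
      obtain ⟨rfl, rfl⟩ := Prod.mk.inj e
      rfl
    · intro h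
      obtain rfl : a = b := h
      obtain ⟨z, rfl⟩ := Y.quo.surjective a
      exact ⟨(z, z), rfl, rfl⟩
  rw [e] at c
  exact t2_iff_isClosed_diagonal.2 c

theorem base_fam [Finite ι] [T2Space P] {C : FreeGroup ι → Set P} (hC : ∀ x, IsClosed (C x)) :
    IsClosed (⋃ x, Y.s x '' C x) := by
  refine base_closed_E Y fun y => ?_
  have e : Y.s y ⁻¹' (⋃ x, Y.s x '' C x) =
      C y ∪ (⋃ k, Y.A k '' (Y.B k ⁻¹' C (y * FreeGroup.of k))) ∪
        ⋃ k, Y.B k '' (Y.A k ⁻¹' C (y * (FreeGroup.of k)⁻¹)) := by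
    ext z
    constructor
    · intro h
      obtain ⟨x, w, hw, e⟩ := mem_iUnion.1 h
      rcases (Y.s_eq _ _ _ _).1 e with ⟨rfl, rfl⟩ | ⟨k, t, rfl, rfl, rfl⟩ | ⟨k, t, rfl, rfl, rfl⟩
      · exact Or.inl (Or.inl hw)
      · refine Or.inr (mem_iUnion.2 ⟨k, t, ?_, rfl⟩)
        rw [mul_inv_cancel_right]
        exact hw
      · exact Or.inl (Or.inr (mem_iUnion.2 ⟨k, t, hw, rfl⟩))
    · rintro ((h | h) | h)
      · exact mem_iUnion.2 ⟨y, z, h, rfl⟩
      · obtain ⟨k, t, ht, rfl⟩ := mem_iUnion.1 h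
        exact mem_iUnion.2 ⟨_, _, ht, (Y.s_AB y k t).symm⟩
      · obtain ⟨k, t, ht, rfl⟩ := mem_iUnion.1 h
        refine mem_iUnion.2 ⟨_, _, ht, ?_⟩
        rw [Y.s_AB, inv_mul_cancel_right]
  rw [e]
  exact base_arcs Y (hC y) (fun _ => hC _) fun _ => hC _

theorem base_sq [Finite ι] [T2Space P] (T : Set (FreeGroup ι)) :
    IsClosed (⋃ x ∈ T, range (Y.s x)) := by
  have e : (⋃ x ∈ T, range (Y.s x)) = ⋃ x, Y.s x '' {_z | x ∈ T} := by
    ext a
    simp only [mem_iUnion, mem_range, mem_image, mem_ofPred_eq]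
    exact ⟨fun ⟨x, h, z, e⟩ => ⟨x, z, h, e⟩, fun ⟨x, z, h, e⟩ => ⟨x, h, z, e⟩⟩
  rw [e]
  exact base_fam Y fun _ => isClosed_const

theorem base_lf [Finite ι] [T2Space P] : LocallyFinite fun x => range (Y.s x) := by
  intro e
  obtain ⟨y, z, rfl⟩ := Y.s_surj e
  have hN : ({y} ∪ range (fun k => y * FreeGroup.of k) ∪
      range (fun k => y * (FreeGroup.of k)⁻¹) : Set (FreeGroup ι)).Finite :=
    ((finite_singleton y).union (finite_range _)).union (finite_range _)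
  refine ⟨_, (base_sq Y ({y} ∪ range (fun k => y * FreeGroup.of k) ∪
    range (fun k => y * (FreeGroup.of k)⁻¹))ᶜ).isOpen_compl.mem_nhds ?_, hN.subset ?_⟩
  · intro h
    obtain ⟨x, hx, w, e⟩ := mem_iUnion₂.1 h
    refine hx ?_
    rcases (Y.s_eq _ _ _ _).1 e with ⟨rfl, -⟩ | ⟨k, t, -, -, rfl⟩ | ⟨k, t, -, -, rfl⟩
    · exact Or.inl (Or.inl rfl)
    · exact Or.inr ⟨k, mul_inv_cancel_right _ _⟩
    · exact Or.inl (Or.inr ⟨k, rfl⟩)
  · rintro x ⟨a, ha, hn⟩
    by_contra hx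
    exact hn (mem_iUnion₂.2 ⟨x, hx, ha⟩)

end gen

variable {g : ℕ}

instance t2Surf (g : ℕ) : T2Space (Surf g) := base_t2 (X g)

instance t2E (g : ℕ) : T2Space (E g) := by
  refine ⟨fun a b hab => ?_⟩
  by_cases h : (X g).p a = (X g).p b
  · exact (X g).cov.isCoveringMap.isSeparatedMap a b h hab
  · exact separated_by_continuous (X g).cont_p h

instance connE (g : ℕ) : PreconnectedSpace (E g) := by
  refine preconnectedSpace_of_forall_constant fun f hf a b => ?_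
  have c : ∀ x z w, f ((X g).s x z) = f ((X g).s x w) := fun x z w =>
    PreconnectedSpace.constant inferInstance (hf.comp ((X g).cont_s x))
  obtain ⟨x, z, rfl⟩ := (X g).s_surj a
  obtain ⟨y, w, rfl⟩ := (X g).s_surj b
  have d := const_of_gen (fun x : F g => f ((X g).s x z)) (fun x k => by
    rw [c _ z ((X g).B k 0), ← (X g).s_AB, c x _ z]) x y
  exact d.trans (c y z w)

theorem closed_sq (S : Set (F g)) : IsClosed (⋃ x ∈ S, sq x) := base_sq (X g) S

theorem fin_sq {K : Set (E g)} (hK : IsCompact K) : {x : F g | (sq x ∩ K).Nonempty}.Finite :=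
  (base_lf (X g)).finite_nonempty_inter_compact hK

theorem fin_orbit {K : Set (E g)} (hK : IsCompact K) (x : F g) :
    {γ : F g | ∃ e ∈ K, γ • e ∈ sq x}.Finite := by
  refine ((fin_sq hK).image fun y => x * y⁻¹).subset ?_
  rintro γ ⟨e, he, z, hz⟩
  refine ⟨γ⁻¹ * x, ⟨e, ⟨z, ?_⟩, he⟩, by simp⟩
  rw [← (X g).smul_s, hz, inv_smul_smul]

theorem closed_orbit {K : Set (E g)} (hK : IsCompact K) (G : Set (F g)) :
    IsClosed (⋃ γ ∈ G, (γ • ·) '' K) := by
  refine base_closed_E (X g) fun x => ?_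
  have e : (X g).s x ⁻¹' (⋃ γ ∈ G, (γ • ·) '' K) =
      ⋃ γ ∈ {γ : F g | ∃ e ∈ K, γ • e ∈ sq x} ∩ G, (X g).s x ⁻¹' ((γ • ·) '' K) := by
    ext z
    constructor
    · intro h
      obtain ⟨γ, hγ, a, ha, e⟩ := mem_iUnion₂.1 h
      exact mem_iUnion₂.2 ⟨γ, ⟨⟨a, ha, z, e.symm⟩, hγ⟩, a, ha, e⟩
    · intro h
      obtain ⟨γ, hγ, h⟩ := mem_iUnion₂.1 h
      exact mem_iUnion₂.2 ⟨γ, hγ.2, h⟩
  rw [e]
  exact ((fin_orbit hK x).inter_of_left G).isClosed_biUnion fun γ _ =>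
    (hK.image ((X g).cont_smul γ)).isClosed.preimage ((X g).cont_s x)

theorem base_A0 (k : Fin g × Bool) (t : unitInterval) : ((X g).A k t).1.2 = 0 := Top.pr_y0 _

theorem base_B0 (k : Fin g × Bool) (t : unitInterval) : ((X g).B k t).1.2 = 0 := Top.pr_y0 _

theorem base_A1 (k : Fin g × Bool) (t : unitInterval) :
    ((X g).A k t).1.1 = Top.nA k + 1 / 4 + t / 2 := Top.aA_x k t

theorem base_B1 (k : Fin g × Bool) (t : unitInterval) :
    ((X g).B k t).1.1 = Top.nB k + 3 / 4 - t / 2 := Top.aB_x k t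

theorem base_posA (k : Fin g × Bool) : (pos (k, true) : ℝ) = Top.nA k + 1 := by
  have : pos (k, true) = Top.nA k + 1 := by
    obtain ⟨i, _ | _⟩ := k <;> simp [pos, Top.nA]
  rw [this]
  push_cast
  rfl

theorem base_posB (k : Fin g × Bool) : (pos (k, false) : ℝ) = Top.nB k + 1 := by
  have : pos (k, false) = Top.nB k + 1 := by
    obtain ⟨i, _ | _⟩ := k <;> simp [pos, Top.nB]
  rw [this]
  push_cast
  rfl

theorem s_in {x y : F g} {z w : Sq g} (hz : 0 < z.1.2) (e : (X g).s x z = (X g).s y w) :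
    x = y ∧ z = w := by
  rcases ((X g).s_eq _ _ _ _).1 e with h | ⟨k, t, rfl, -⟩ | ⟨k, t, -, rfl, -⟩
  · exact h
  · exact (hz.ne' (base_A0 k t)).elim
  · exact (hz.ne' (base_B0 k t)).elim

theorem pt_in {z w : Sq g} (hz : 0 < z.1.2) (e : pt g z = pt g w) : z = w := by
  rcases ((X g).eq _ _).1 e with h | ⟨k, t, rfl, -⟩ | ⟨k, t, -, rfl⟩
  · exact h
  · exact (hz.ne' (base_A0 k t)).elim
  · exact (hz.ne' (base_B0 k t)).elim

theorem open_in (x : F g) {V : Set (Sq g)} (hV : IsOpen V) (h : ∀ z ∈ V, 0 < z.1.2) :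
    IsOpen ((X g).s x '' V) := by
  have nA : ∀ l t, (X g).A l t ∉ V := fun l t k => (h _ k).ne' (base_A0 l t)
  have o := ((X g).good x 1 V ∅ hV isOpen_empty (disjoint_empty _)
    (fun l t k => (h _ k).ne' (base_B0 l t)) (fun _ _ k => k)
    (fun l t => ⟨fun k => (nA l t k).elim, fun k => k.elim⟩) fun l t k => (nA l t k).elim).1
  rwa [image_empty, union_empty] at o

theorem base_AB (x : F g) (k : Fin g × Bool) (t : unitInterval) {a b : ℝ}
    (ha : a = Top.nA k + 1 / 4 + t / 2) (hb : b = Top.nB k + 3 / 4 - t / 2) :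
    (X g).s x (pr g a 0) = (X g).s (x * FreeGroup.of k) (pr g b 0) := by
  rw [ha, hb]
  exact (X g).s_AB x k t

/-- the arc number `pos l - 1` of the square `x` is the arc number `pos (linv l) - 1` of the square
`x * L l`, reflected -/
theorem s_arc (x : F g) (l : Lt g) {t : ℝ} (h0 : 1 / 4 ≤ t) (h1 : t ≤ 3 / 4) :
    (X g).s x (pr g (pos l - 1 + t) 0) = (X g).s (x * L l) (pr g (pos (linv l) - t) 0) := by
  obtain ⟨k, _ | _⟩ := l
  · have e := base_AB (x * (FreeGroup.of k)⁻¹) k ⟨3 / 2 - 2 * t, by linarith, by linarith⟩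
      (a := pos (k, true) - t) (b := pos (k, false) - 1 + t)
      (by rw [base_posA]; ring) (by rw [base_posB]; ring)
    rw [inv_mul_cancel_right] at e
    rw [L_false]
    exact e.symm
  · exact base_AB x k ⟨2 * t - 1 / 2, by linarith, by linarith⟩
      (a := pos (k, true) - 1 + t) (b := pos (k, false) - t)
      (by rw [base_posA]; ring) (by rw [base_posB]; ring)

/-- all identifications -/
theorem s_cases {x y : F g} {z w : Sq g} (e : (X g).s x z = (X g).s y w) : (x = y ∧ z = w) ∨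
    ∃ (l : Lt g) (t : ℝ), 1 / 4 ≤ t ∧ t ≤ 3 / 4 ∧ y = x * L l ∧ z.1 = ((pos l : ℝ) - 1 + t, 0) ∧
      w.1 = ((pos (linv l) : ℝ) - t, 0) := by
  rcases ((X g).s_eq _ _ _ _).1 e with h | ⟨k, t, rfl, rfl, rfl⟩ | ⟨k, t, rfl, rfl, rfl⟩
  · exact Or.inl h
  · refine Or.inr ⟨(k, true), 1 / 4 + t / 2, by linarith [t.2.1], by linarith [t.2.2], rfl,
      Prod.ext ?_ (base_A0 k t), Prod.ext ?_ (base_B0 k t)⟩
    · rw [base_A1, base_posA]
      ring
    · rw [base_B1]
      change _ = (pos (k, false) : ℝ) - _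
      rw [base_posB]
      ring
  · refine Or.inr ⟨(k, false), 3 / 4 - t / 2, by linarith [t.2.2], by linarith [t.2.1], ?_,
      Prod.ext ?_ (base_B0 k t), Prod.ext ?_ (base_A0 k t)⟩
    · rw [L_false, mul_inv_cancel_right]
    · rw [base_B1, base_posB]
      ring
    · rw [base_A1]
      change _ = (pos (k, true) : ℝ) - _
      rw [base_posA]
      ring

/-- extension by a constant -/
theorem ext_cont {Y : Type} [TopologicalSpace Y] {σ : ℂ → E g} (hc : Continuous σ)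
    (ho : IsOpenMap σ) {G : ℂ → Y} (hG : Continuous G) (hw : ∀ q q', σ q = σ q' → G q = G q')
    {C : Set ℂ} (hC : IsClosed (σ '' C)) {y : Y} (hy : ∀ q, q ∉ C → G q = y) :
    ∃ f : E g → Y, Continuous f ∧ (∀ q, f (σ q) = G q) ∧ ∀ e, e ∉ σ '' C → f e = y := by
  have ex : ∀ e : E g, ∃ v : Y, (∀ q, σ q = e → v = G q) ∧ (e ∉ range σ → v = y) := by
    intro e
    by_cases h : e ∈ range σ
    · obtain ⟨q, rfl⟩ := h
      exact ⟨G q, fun q' k => hw _ _ k.symm, fun k => (k ⟨q, rfl⟩).elim⟩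
    · exact ⟨y, fun q k => (h ⟨q, k⟩).elim, fun _ => rfl⟩
  choose f f1 f2 using ex
  have a : ∀ q, f (σ q) = G q := fun q => f1 _ q rfl
  have b : ∀ e, e ∉ σ '' C → f e = y := by
    intro e he
    by_cases h : e ∈ range σ
    · obtain ⟨q, rfl⟩ := h
      exact (a q).trans (hy q fun k => he ⟨q, k, rfl⟩)
    · exact f2 e h
  refine ⟨f, continuous_iff_continuousAt.2 fun e => ?_, a, b⟩
  by_cases h : e ∈ σ '' C
  · obtain ⟨q, -, rfl⟩ := h
    rw [ContinuousAt, ← ho.map_nhds_eq hc.continuousAt, tendsto_map'_iff, a,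
      show f ∘ σ = G from funext a]
    exact hG.continuousAt
  · exact (continuousAt_const (y := y)).congr
      (mem_of_superset (hC.isOpen_compl.mem_nhds h) fun e' k => (b e' k).symm)

end Pool.Agent.Lib.MP_294da1_gt.Br
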