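import Pool.Agent.Lib.MP_294da1_gt.Br.Strip

/-! A line that crosses a wall algebraically passes its strip; curves meeting at most once. -/

set_option autoImplicit false

namespace Pool.Agent.Lib.MP_294da1_gt.Br

open Pool.Agent.Lib.MP_a47850_al Pool.Agent.Lib.MP_a47850_al.Mcg Set Filter Topology

variable {g : ℕ}

variable {φ ψ : ℂ → Surf g} {σ τ : ℂ → E g} {h d : F g} {u : E g → ℝ}

/-- only finitely many translates of a square along the axis meet the strip of a crossed wall -/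
theorem cr_fin (M : Lf ψ τ d) {k γ : F g} (hk : k = γ * d * γ⁻¹ ∨ k = γ * d⁻¹ * γ⁻¹)
    (s : SD h k) (y : F g) :
    {n : ℤ | ∃ q : ℂ, 0 ≤ q.im ∧ q.im ≤ 1 ∧ τ q ∈ sq (γ⁻¹ * (h ^ n * y))}.Finite := by
  obtain ⟨G, hG, H⟩ := M.walls y
  have fin : ((fun δ => δ * d * δ⁻¹) '' G ∪ (fun δ => δ * d⁻¹ * δ⁻¹) '' G).Finite :=
    (hG.image _).union (hG.image _)
  refine (fin.preimage (f := fun n : ℤ => h ^ (-n) * k * (h ^ (-n))⁻¹) ?_).subset ?_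
  · intro m _ n _ e
    have := s.chain_inj e
    omega
  · rintro n ⟨q, q0, q1, z, hz⟩
    obtain ⟨δ, hδ, j, hj⟩ := H (h ^ (-n) * γ) q q0 q1 ⟨z, by
      rw [← hz, (X g).smul_s, show h ^ (-n) * γ * (γ⁻¹ * (h ^ n * y)) = y by group]⟩
    have e : γ = h ^ n * δ * d ^ j := by rw [mul_assoc, ← hj]; group
    rcases hk with hk | hk
    · exact Or.inl ⟨δ, hδ, by simp only [hk, e]; group⟩
    · exact Or.inr ⟨δ, hδ, by simp only [hk, e]; group⟩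

/-- the side function on a square that misses the strip -/
theorem cr_val (U : Side τ u) {x : F g} (hx : ∀ q : ℂ, 0 ≤ q.im → q.im ≤ 1 → τ q ∉ sq x)
    (z : Sq g) : u ((X g).s x z) = u (bp x) ∧ (u (bp x) = 0 ∨ u (bp x) = 1) :=
  ⟨U.const (C := sq x) (isPreconnected_range ((X g).cont_s x))
    (fun q q0 q1 => hx q q0.le q1.le) ⟨z, rfl⟩ ⟨_, rfl⟩,
    U.off _ fun q q0 q1 e => hx q q0.le q1.le ⟨_, e.symm⟩⟩

theorem cr_shift (L : Lf φ σ h) (t b : ℝ) (n : ℤ) :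
    σ ⟨t + n, b⟩ = h ^ n • σ ⟨t, b⟩ := by
  rw [← L.per_int]
  congr 1
  apply Complex.ext <;> simp

/-- a line that crosses a wall algebraically passes every height of its strip -/
theorem crossing (L : Lf φ σ h) (M : Lf ψ τ d) (U : Side τ u) (W : Wall u d) (S : Simple d)
    {k : F g} (hk : k ∈ cl d) (s : SD h k) {a : ℝ} (a0 : 0 < a) (a1 : a < 1) :
    ∃ (γ : F g) (t r : ℝ), (k = γ * d * γ⁻¹ ∨ k = γ * d⁻¹ * γ⁻¹) ∧
      σ ⟨t, 1 / 2⟩ = γ • τ ⟨r, a⟩ := by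
  obtain ⟨γ, hγ⟩ := id hk
  obtain ⟨y, z, hyz⟩ := (X g).s_surj (σ ⟨0, 1 / 2⟩)
  have fin := cr_fin M hγ s y
  obtain ⟨N, hN⟩ : ∃ N : ℕ, ∀ n : ℤ, (N : ℤ) ≤ |n| →
      ∀ q : ℂ, 0 ≤ q.im → q.im ≤ 1 → τ q ∉ sq (γ⁻¹ * (h ^ n * y)) := by
    obtain ⟨B, hB⟩ := (fin.image fun n : ℤ => n.natAbs).bddAbove
    refine ⟨B + 1, fun n hn q q0 q1 hq => ?_⟩
    have : n.natAbs ≤ B := hB ⟨n, ⟨q, q0, q1, hq⟩, rfl⟩
    rw [Int.abs_eq_natAbs] at hn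
    omega
  have val : ∀ n : ℤ, (N : ℤ) ≤ |n| → u (γ⁻¹ • σ ⟨n, 1 / 2⟩) = u (bp (γ⁻¹ * (h ^ n * y))) ∧
      (u (bp (γ⁻¹ * (h ^ n * y))) = 0 ∨ u (bp (γ⁻¹ * (h ^ n * y))) = 1) := by
    intro n hn
    have e := cr_shift L 0 (1 / 2) n
    rw [zero_add, hyz] at e
    rw [e, (X g).smul_s, (X g).smul_s]
    exact cr_val U (hN n hn) z
  obtain ⟨n1, h1⟩ := s.absorb S.fam hk y
  obtain ⟨n2, h2⟩ := s.escape S.fam hk y
  have i1 : h ^ ((n1 + N : ℕ) : ℤ) * y ∈ Q k :=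
    s.zpow_mem (m := (n1 : ℤ)) (by omega) (by simpa using h1)
  have i2 : h ^ (-((n2 + N : ℕ) : ℤ)) * y ∉ Q k := fun e =>
    h2 (by simpa using s.zpow_mem (n := -(n2 : ℤ)) (by omega) e)
  obtain ⟨v1, w1⟩ := val ((n1 + N : ℕ) : ℤ) (le_abs.2 (Or.inl (by omega)))
  obtain ⟨v2, w2⟩ := val (-((n2 + N : ℕ) : ℤ)) (le_abs.2 (Or.inr (by omega)))
  have cf : Continuous fun t : ℝ => u (γ⁻¹ • σ ⟨t, 1 / 2⟩) := by
    refine U.cont.comp (((X g).cont_smul _).comp (L.cont.comp ?_))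
    have : (fun t : ℝ => (⟨t, 1 / 2⟩ : ℂ)) = fun t : ℝ => (t : ℂ) + ⟨0, 1 / 2⟩ := by
      funext t; apply Complex.ext <;> simp
    rw [this]
    fun_prop
  have both : (∃ t : ℝ, u (γ⁻¹ • σ ⟨t, 1 / 2⟩) = 0) ∧ ∃ t : ℝ, u (γ⁻¹ • σ ⟨t, 1 / 2⟩) = 1 := by
    rcases hγ with e | e
    · rw [e, Q_conj'] at i1 i2
      exact ⟨⟨_, v2.trans (w2.resolve_right fun e' => i2 ((W _).1 e'))⟩, _, v1.trans ((W _).2 i1)⟩
    · rw [e, Q_conj', Q_inv S.ne] at i1 i2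
      exact ⟨⟨_, v1.trans (w1.resolve_right fun e' => i1 ((W _).1 e'))⟩, _,
        v2.trans ((W _).2 (not_not.1 i2))⟩
  obtain ⟨⟨t0, e0⟩, t1, e1⟩ := both
  obtain ⟨t, ht⟩ : a ∈ range fun t : ℝ => u (γ⁻¹ • σ ⟨t, 1 / 2⟩) :=
    intermediate_value_univ t0 t1 cf ⟨by simp only [e0]; exact a0.le, by simp only [e1]; exact a1.le⟩
  simp only at ht
  obtain ⟨q, q1, q2, -⟩ := U.mid (e := γ⁻¹ • σ ⟨t, 1 / 2⟩) (by rw [ht]; exact a0.ne')
    (by rw [ht]; exact a1.ne)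
  refine ⟨γ, t, q.re, hγ, ?_⟩
  rw [ht] at q2
  rw [← q2, show (⟨q.re, q.im⟩ : ℂ) = q from rfl, q1, smul_inv_smul]

theorem cr_proj (L : Lf φ σ h) (M : Lf ψ τ d) {γ : F g} {p q : ℂ} (e : σ p = γ • τ q) :
    φ p = ψ q := by
  rw [← L.lifts, ← M.lifts, e, (X g).p_smul]

theorem cr_excl {w : F g} (h1 : w ≠ 1) (s : SD h w) (s' : SD h w⁻¹) : False := by
  obtain ⟨x, a, b⟩ := s.2
  exact (Q_inv h1).1 (s'.1 x ((Q_inv h1).2 a)) b

theorem one (L : Lf φ σ h) (M : Lf ψ τ d) (U : Side τ u) (W : Wall u d) (S : Simple d)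
    (H : range (core g φ) = range (core g ψ) ∨
      (range (core g φ) ∩ range (core g ψ)).Subsingleton) : One h (cl d) := by
  intro k hk k' hk' s s'
  rcases H with H | H
  · exfalso
    obtain ⟨γ, t, r, -, e⟩ := crossing L M U W S hk s (a := 1 / 4) (by norm_num) (by norm_num)
    obtain ⟨t', ht'⟩ : core g φ t ∈ range (core g ψ) := H ▸ mem_range_self t
    obtain ⟨j, hj⟩ := (M.ann.2.2.1 _ _).1 (ht'.trans (cr_proj L M e))
    have := congrArg Complex.im hj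
    norm_num at this
  obtain ⟨γ, t, r, hγ, e⟩ := crossing L M U W S hk s (a := 1 / 2) (by norm_num) (by norm_num)
  obtain ⟨γ', t', r', hγ', e'⟩ := crossing L M U W S hk' s' (a := 1 / 2) (by norm_num) (by norm_num)
  have c : core g φ t = core g φ t' :=
    H ⟨mem_range_self t, r, (cr_proj L M e).symm⟩ ⟨mem_range_self t', r', (cr_proj L M e').symm⟩
  obtain ⟨n, hn⟩ := (L.ann.2.2.1 _ _).1 c
  have e2 : (γ'⁻¹ * (h ^ n * γ)) • τ ⟨r, 1 / 2⟩ = τ ⟨r', 1 / 2⟩ := by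
    rw [mul_smul, mul_smul, ← e, ← L.per_int, ← hn, e', inv_smul_smul]
  obtain ⟨j, -, hj⟩ := (M.eq_iff _ _ _).1 e2
  have e3 : γ' = h ^ n * γ * (d ^ j)⁻¹ := by rw [← hj]; group
  have ne : h ^ n * k * (h ^ n)⁻¹ ≠ 1 := S.fam.ne _ (cl_conj hk _)
  have sn := s.conj_zpow n
  rcases hγ with a | a <;> rcases hγ' with b | b
  · exact ⟨n, by rw [b, a, e3]; group⟩
  · exact (cr_excl ne sn (by
      rwa [show (h ^ n * k * (h ^ n)⁻¹)⁻¹ = k' by rw [b, a, e3]; group])).elim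
  · exact (cr_excl ne sn (by
      rwa [show (h ^ n * k * (h ^ n)⁻¹)⁻¹ = k' by rw [b, a, e3]; group])).elim
  · exact ⟨n, by rw [b, a, e3]; group⟩

end Pool.Agent.Lib.MP_294da1_gt.Br
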