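import Pool.Agent.Lib.MP_a47850_al.Mcg

/-! Curves, Dehn twists and restricted positive factorizations on the surface `Surf g`. -/

set_option autoImplicit false

namespace Pool.Agent.Lib.MP_294da1_gt.Br

open Pool.Agent.Lib.MP_a47850_al.Mcg

/-- A point of the square as a complex number. -/
def cx (g : ℕ) (z : Sq g) : ℂ := ⟨z.1.1, z.1.2⟩

/-- `φ` is an orientation preserving embedding of the open annulus `ℂ / ℤ` onto an open subset of
the interior of the surface. Orientation: read in the chart given by the open square, `φ` has local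
degree one at every point `p`, that is `(φ q - φ p) / (q - p)` has a continuous logarithm. -/
def Ann (g : ℕ) (φ : ℂ → Surf g) : Prop :=
  Continuous φ ∧ IsOpenMap φ ∧ (∀ p q, φ p = φ q ↔ ∃ k : ℤ, q = p + k) ∧
    (∀ p, ∀ z ∈ Bd g, φ p ≠ pt g z) ∧
    ∀ p z, φ p = pt g z → 0 < z.1.2 → ∃ r > 0, ∃ (ψ : ℂ → Sq g) (l : ℂ → ℂ),
      ContinuousOn l (Metric.ball p r \ {p}) ∧ ∀ q ∈ Metric.ball p r \ {p},
        φ q = pt g (ψ q) ∧ cx g (ψ q) - cx g z = (q - p) * Complex.exp (l q)

/-- The core curve of the annulus, a loop of period one. -/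
noncomputable def core (g : ℕ) (φ : ℂ → Surf g) (t : ℝ) : Surf g := φ ⟨t, 1 / 2⟩

/-- `T` is the right-handed Dehn twist in the annulus `φ`. -/
def Tw (g : ℕ) (φ : ℂ → Surf g) (T : Homeo g) : Prop :=
  (∀ q, hom g T (φ q) = φ (q + (max 0 (min 1 q.im) : ℝ))) ∧ ∀ x ∉ Set.range φ, hom g T x = x

/-- Freely homotopic loops of period one. -/
def Htp (g : ℕ) (α β : ℝ → Surf g) : Prop :=
  ∃ H : ℝ × ℝ → Surf g, Continuous H ∧ (∀ t s, H (t + 1, s) = H (t, s)) ∧
    (∀ t, H (t, 0) = α t) ∧ ∀ t, H (t, 1) = β t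

/-- The curve bounds an embedded disk. -/
def Disk (g : ℕ) (α : ℝ → Surf g) : Prop :=
  ∃ D : ℂ → Surf g, ContinuousOn D (Metric.closedBall 0 1) ∧ Set.InjOn D (Metric.closedBall 0 1) ∧
    D '' Metric.sphere 0 1 = Set.range α

/-- The curve is homotopic to a simple loop running round the boundary circle. -/
def Par (g : ℕ) (α : ℝ → Surf g) : Prop :=
  ∃ δ : ℝ → Surf g, (∀ s t, δ s = δ t ↔ ∃ k : ℤ, t = s + k) ∧ Set.range δ = pt g '' Bd g ∧
    Htp g α δ

/-- The curves can be deformed to curves that coincide or meet in at most one point. -/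
def Near (g : ℕ) (α β : ℝ → Surf g) : Prop :=
  ∃ φ ψ, Ann g φ ∧ Ann g ψ ∧ Htp g α (core g φ) ∧ Htp g β (core g ψ) ∧
    (Set.range (core g φ) = Set.range (core g ψ) ∨
      (Set.range (core g φ) ∩ Set.range (core g ψ)).Subsingleton)

/-- The mapping class of a homeomorphism. -/
def cls (g : ℕ) (T : Homeo g) : Mod g := QuotientGroup.mk T

/-- There is a restricted positive factorization of the boundary twist of length `n`. -/
def Fact (g n : ℕ) : Prop :=
  ∃ (φ : Fin n → ℂ → Surf g) (T : Fin n → Homeo g) (φ₀ : ℂ → Surf g) (T₀ : Homeo g),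
    (∀ i, Ann g (φ i) ∧ Tw g (φ i) (T i) ∧ ¬ Disk g (core g (φ i))) ∧
    (∀ i j, Near g (core g (φ i)) (core g (φ j))) ∧
    Ann g φ₀ ∧ Tw g φ₀ T₀ ∧ Par g (core g φ₀) ∧
    (List.ofFn fun i => cls g (T i)).prod = cls g T₀

end Pool.Agent.Lib.MP_294da1_gt.Br
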