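import Pool.Agent.Lib.MP_294da1_gt.Br.Base

/-! An equivariant embedding of the cover in the upper half plane. -/

set_option autoImplicit false

namespace Pool.Agent.Lib.MP_294da1_gt.Br

open Pool.Agent.Lib.MP_a47850_al Pool.Agent.Lib.MP_a47850_al.Mcg Set Filter Topology

variable {g : ℕ}

/-- inversion in the square of radius `1 / 4`, followed by a reflection -/
noncomputable def embI (w : ℝ × ℝ) : ℝ × ℝ := (16 * ‖w‖ ^ 2)⁻¹ • (-w.1, w.2)

theorem emb_norm (w : ℝ × ℝ) : ‖embI w‖ = (16 * ‖w‖)⁻¹ := by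
  have e : ‖(-w.1, w.2)‖ = ‖w‖ := by rw [Prod.norm_def, Prod.norm_def, norm_neg]
  rw [embI, norm_smul, e, Real.norm_of_nonneg (by positivity)]
  rcases eq_or_ne ‖w‖ 0 with h | h
  · simp [h]
  · field_simp

theorem emb_inv (w : ℝ × ℝ) : embI (embI w) = w := by
  rcases eq_or_ne w 0 with rfl | h
  · simp [embI]
  · have := norm_ne_zero_iff.2 h
    rw [embI, emb_norm, embI]
    ext <;> simp only [Prod.smul_fst, Prod.smul_snd, smul_eq_mul] <;> field_simp

/-- the centres -/
noncomputable def embC (n : ℕ) : ℝ × ℝ := ((n : ℝ) - 1 / 2, 0)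

/-- the generators -/
noncomputable def embM (l : Lt g) (p : ℝ × ℝ) : ℝ × ℝ :=
  embC (pos l) + embI (p - embC (pos (linv l)))

theorem emb_MM (l : Lt g) (p : ℝ × ℝ) : embM (linv l) (embM l p) = p := by
  simp only [embM, linv_linv, add_sub_cancel_left, emb_inv, add_sub_cancel]

/-- the action of the free group -/
noncomputable def embA (g : ℕ) : F g →* Equiv.Perm (ℝ × ℝ) := FreeGroup.lift fun k =>
  ⟨embM (k, true), embM (k, false), emb_MM (k, true), emb_MM (k, false)⟩

theorem emb_L (l : Lt g) (y : F g) (p : ℝ × ℝ) : embA g (L l * y) p = embM l (embA g y p) := by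
  rw [map_mul, Equiv.Perm.mul_apply]
  obtain ⟨k, _ | _⟩ := l
  · rw [L_false, map_inv, embA, FreeGroup.lift_apply_of]; rfl
  · rw [L_true, embA, FreeGroup.lift_apply_of]; rfl

theorem emb_arc (l : Lt g) {t : ℝ} (h0 : 1 / 4 ≤ t) (h1 : t ≤ 3 / 4) :
    embM l ((pos (linv l) : ℝ) - t, 1 / 4) = ((pos l : ℝ) - 1 + t, 1 / 4) := by
  have e : (((pos (linv l) : ℝ) - t, 1 / 4) : ℝ × ℝ) - embC (pos (linv l)) = (1 / 2 - t, 1 / 4) := by
    ext <;> simp [embC]
  have n : ‖((1 / 2 - t, 1 / 4) : ℝ × ℝ)‖ = 1 / 4 := by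
    rw [Prod.norm_def, Real.norm_of_nonneg (by norm_num : (0 : ℝ) ≤ 1 / 4)]
    exact max_eq_right (abs_le.2 ⟨by linarith, by linarith⟩)
  rw [embM, e, embI, n]
  ext <;> simp [embC] <;> ring

theorem emb_pp {p : ℝ × ℝ} (hp : ∀ n, 1 / 4 ≤ ‖p - embC n‖) (x : F g) : x ≠ 1 →
    ‖embA g x p - embC (hd x)‖ ≤ 1 / 4 ∧ (‖embA g x p - embC (hd x)‖ = 1 / 4 →
      ∃ l, x = L l ∧ ‖p - embC (pos (linv l))‖ = 1 / 4) := by
  induction x using red_ind with
  | h1 => exact fun h => (h rfl).elim
  | h2 l y hy ih =>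
    intro _
    rw [emb_L, hd_L_mul hy, embM, add_sub_cancel_left, emb_norm]
    have key : ∀ a : ℝ, 1 / 4 ≤ a → (16 * a)⁻¹ ≤ 1 / 4 ∧ ((16 * a)⁻¹ = 1 / 4 → a = 1 / 4) :=
      fun a ha => ⟨by rw [inv_le_comm₀ (by linarith) (by norm_num)]; linarith, fun e => by
        rw [inv_eq_iff_eq_inv] at e; linarith⟩
    rcases eq_or_ne y 1 with rfl | y1
    · rw [map_one, Equiv.Perm.one_apply]
      exact ⟨(key _ (hp _)).1, fun e => ⟨l, mul_one _, (key _ (hp _)).2 e⟩⟩
    · have a := (ih y1).1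
      have b : 1 ≤ ‖embC (hd y) - embC (pos (linv l))‖ := by
        refine le_trans ?_ (norm_fst_le _)
        have : (1 : ℤ) ≤ |(hd y : ℤ) - pos (linv l)| := Int.one_le_abs (by omega)
        simp only [embC, Prod.fst_sub, sub_sub_sub_cancel_right, Real.norm_eq_abs]
        exact_mod_cast this
      have c := norm_sub_le_norm_sub_add_norm_sub (embC (hd y)) (embA g y p) (embC (pos (linv l)))
      rw [norm_sub_rev (embC (hd y)) (embA g y p)] at c
      exact ⟨(key _ (by linarith)).1, fun e => by linarith [(key _ (by linarith)).2 e]⟩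

/-- the base square, above the small squares -/
noncomputable def embE (z : Sq g) : ℝ × ℝ := (z.1.1, z.1.2 + 1 / 4)

theorem emb_out (z : Sq g) (n : ℕ) : z.1.2 + 1 / 4 ≤ ‖embE z - embC n‖ := by
  refine le_trans ?_ (norm_snd_le _)
  simp only [embE, embC, Prod.snd_sub, sub_zero]
  exact le_abs_self _

theorem emb_cont (x : F g) :
    (Continuous fun z : Sq g => embA g x (embE z)) ∧ ∀ z : Sq g, 0 < (embA g x (embE z)).2 := by
  induction x using red_ind with
  | h1 =>
    rw [map_one]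
    exact ⟨by unfold embE; simp only [Equiv.Perm.one_apply]; fun_prop,
      fun z => add_pos_of_nonneg_of_pos z.2.2.1 (by norm_num)⟩
  | h2 l y _ ih =>
    have n : ∀ z : Sq g, 0 < ‖embA g y (embE z) - embC (pos (linv l))‖ := fun z =>
      norm_pos_iff.2 fun e => (ih.2 z).ne' (by simpa [embC] using congrArg Prod.snd e)
    have c := ih.1.sub (continuous_const (y := embC (pos (linv l))))
    simp only [emb_L, embM, embI]
    refine ⟨continuous_const.add (((continuous_const.mul (c.norm.pow 2)).inv₀ fun z =>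
      (mul_pos (by norm_num) (pow_pos (n z) 2)).ne').smul (c.fst.neg.prodMk c.snd)), fun z => ?_⟩
    have := n z
    have := ih.2 z
    simp only [embC, Prod.snd_add, Prod.smul_snd, Prod.snd_sub, sub_zero, zero_add, smul_eq_mul] at *
    positivity

theorem exists_emb (g : ℕ) : ∃ j : E g → ℂ, Continuous j ∧ Function.Injective j := by
  have key : ∀ {x y : F g} {z w : Sq g}, (X g).s x z = (X g).s y w →
      embA g x (embE z) = embA g y (embE w) := fun {x y z w} e => by
    rcases s_cases e with ⟨rfl, rfl⟩ | ⟨l, t, h0, h1, rfl, a, b⟩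
    · rfl
    · have := emb_L l 1 (embE w)
      rw [mul_one, map_one, Equiv.Perm.one_apply] at this
      rw [map_mul, Equiv.Perm.mul_apply, this, embE, embE, a, b]
      simp only [zero_add, emb_arc l h0 h1]
  let j : E g → ℝ × ℝ := Quot.lift (fun x => embA g x.1 (embE x.2)) fun a b r => key (Quot.sound r)
  refine ⟨Complex.equivRealProdCLM.symm ∘ j, Complex.equivRealProdCLM.symm.continuous.comp
    ((X g).cont_E fun x => (emb_cont x).1), Complex.equivRealProdCLM.symm.injective.comp ?_⟩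
  intro u v e
  obtain ⟨x, z, rfl⟩ := (X g).s_surj u
  obtain ⟨y, w, rfl⟩ := (X g).s_surj v
  obtain ⟨t, rfl⟩ : ∃ t : F g, y = x * t := ⟨x⁻¹ * y, (mul_inv_cancel_left x y).symm⟩
  change embA g x (embE z) = embA g (x * t) (embE w) at e
  rw [map_mul, Equiv.Perm.mul_apply, (embA g x).apply_eq_iff_eq] at e
  have inj : ∀ {z : Sq g} {a : ℝ}, embE z = (a, 1 / 4) → z = pr g a 0 := fun {z a} h =>
    Top.eq_pr (congrArg Prod.fst h) (add_eq_right.1 (congrArg Prod.snd h))
  rcases eq_or_ne t 1 with rfl | t1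
  · rw [map_one, Equiv.Perm.one_apply] at e
    have e' := Prod.ext_iff.1 e
    rw [mul_one, Subtype.ext (Prod.ext e'.1 (add_right_cancel e'.2) : z.1 = w.1)]
  · have o : ∀ (z : Sq g) n, 1 / 4 ≤ ‖embE z - embC n‖ := fun z n => by
      linarith [emb_out z n, z.2.2.1]
    have k := emb_pp (o w) t t1
    rw [← e] at k
    obtain ⟨l, rfl, r⟩ := k.2 (k.1.antisymm (o z _))
    have w0 : w.1.2 = 0 := by linarith [emb_out w (pos (linv l)), w.2.2.1]
    have w1 := abs_le.1 ((norm_fst_le _).trans r.le)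
    simp only [embE, embC, Prod.fst_sub] at w1
    have ew : embE w = ((pos (linv l) : ℝ) - (pos (linv l) - w.1.1), 1 / 4) := by
      rw [embE, w0, zero_add, sub_sub_cancel]
    have := emb_L l 1 (embE w)
    rw [mul_one, map_one, Equiv.Perm.one_apply, ← e, ew,
      emb_arc l (by linarith) (by linarith)] at this
    exact (congrArg _ (inj this)).trans ((s_arc x l (by linarith) (by linarith)).trans
      (congrArg _ (inj ew).symm))

end Pool.Agent.Lib.MP_294da1_gt.Br
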