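import Pool.Agent.Lib.MP_294da1_gt.Br.Strip
import Pool.Agent.Lib.MP_294da1_gt.Br.Emb
import Pool.Agent.Lib.MP_d32f96_gt.All

/-! A curve with trivial class bounds a disk. -/

set_option autoImplicit false

namespace Pool.Agent.Lib.MP_294da1_gt.Br

open Pool.Agent.Lib.MP_a47850_al Pool.Agent.Lib.MP_a47850_al.Mcg Set Filter Topology

variable {g : ℕ}

variable {φ : ℂ → Surf g} {σ : ℂ → E g}

/-- factoring a continuous map through a map from a compact space -/
theorem dk_fac {Y Z W : Type} [TopologicalSpace Y] [TopologicalSpace Z] [TopologicalSpace W]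
    [CompactSpace Y] [T2Space Z] (w : W) {a : Y → Z} {b : Y → W} (ha : Continuous a)
    (hb : Continuous b) (h : ∀ x y, a x = a y → b x = b y) :
    ∃ c : Z → W, ContinuousOn c (range a) ∧ ∀ y, c (a y) = b y := by
  have e : ∀ y, Function.extend a b (fun _ => w) (a y) = b y := fun y =>
    Function.FactorsThrough.extend_apply (fun x y hxy => h x y hxy) _ y
  refine ⟨_, continuousOn_iff_isClosed.2 fun t ht =>
    ⟨a '' (b ⁻¹' t), ((ht.preimage hb).isCompact.image ha).isClosed, ?_⟩, e⟩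
  ext z
  constructor
  · rintro ⟨hz, y, rfl⟩
    rw [mem_preimage, e] at hz
    exact ⟨⟨y, hz, rfl⟩, y, rfl⟩
  · rintro ⟨⟨y, hy, rfl⟩, -⟩
    exact ⟨by rw [mem_preimage, e]; exact hy, y, rfl⟩

theorem dk_ee {z : ℂ} (hz : ‖z‖ = 1) : ∃ t ∈ Icc (0 : ℝ) 1, MP_1e9af3_an.ee t = z := by
  refine ⟨Int.fract (z.arg / (2 * Real.pi)), ⟨Int.fract_nonneg _, (Int.fract_lt_one _).le⟩, ?_⟩
  have e : MP_1e9af3_an.ee ((z.arg / (2 * Real.pi) : ℝ) : ℂ) = z := by
    have := Complex.norm_mul_exp_arg_mul_I z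
    rw [hz, Complex.ofReal_one, one_mul] at this
    rw [← this, MP_1e9af3_an.ee, MP_1e9af3_an.tpi, this]
    have p : (Real.pi : ℂ) ≠ 0 := Complex.ofReal_ne_zero.2 Real.pi_ne_zero
    rw [show 2 * (Real.pi : ℂ) * Complex.I * ((z.arg / (2 * Real.pi) : ℝ) : ℂ) =
      z.arg * Complex.I by push_cast; field_simp, this]
  rw [← e]
  refine MP_1e9af3_an.ee_eq_iff.2 ⟨-⌊z.arg / (2 * Real.pi)⌋, ?_⟩
  rw [e, Int.fract]
  push_cast
  ring

theorem dk_iff (L : Lf φ σ 1) (s t : ℝ) :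
    σ ⟨s, 1 / 2⟩ = σ ⟨t, 1 / 2⟩ ↔ MP_1e9af3_an.ee t = MP_1e9af3_an.ee s := by
  have := L.eq_iff 1 ⟨s, 1 / 2⟩ ⟨t, 1 / 2⟩
  rw [one_smul] at this
  rw [this, MP_1e9af3_an.ee_eq_iff]
  refine exists_congr fun k => ⟨fun h => ?_, fun h => ⟨?_, (one_zpow k).symm⟩⟩
  · have e : t = s + k := by simpa using congrArg Complex.re h.1
    rw [e]
    push_cast
    rfl
  · have e : t = s + k := by exact_mod_cast h
    exact Complex.ext (by simpa using e) (by simp)

theorem dk_cont (L : Lf φ σ 1) : Continuous fun t : ℝ => σ ⟨t, 1 / 2⟩ := by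
  refine L.cont.comp ?_
  simp only [Complex.mk_eq_add_mul_I]
  fun_prop

/-- the lifted curve on the unit circle -/
theorem dk_loop (L : Lf φ σ 1) : ∃ Γ : ℂ → E g, ContinuousOn Γ (Metric.sphere 0 1) ∧
    InjOn Γ (Metric.sphere 0 1) ∧ Γ '' Metric.sphere 0 1 = range fun t : ℝ => σ ⟨t, 1 / 2⟩ := by
  obtain ⟨Γ, c, e⟩ := dk_fac (σ 0) (a := fun t : Icc (0 : ℝ) 1 => MP_1e9af3_an.ee (t.1 : ℂ))
    (b := fun t : Icc (0 : ℝ) 1 => σ ⟨t.1, 1 / 2⟩) (by fun_prop)
    ((dk_cont L).comp continuous_subtype_val) fun x y h => (dk_iff L _ _).2 h.symm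
  have s : ∀ z ∈ Metric.sphere (0 : ℂ) 1, ∃ t : Icc (0 : ℝ) 1, MP_1e9af3_an.ee (t.1 : ℂ) = z :=
    fun z hz => by
      obtain ⟨t, ht, h⟩ := dk_ee (mem_sphere_zero_iff_norm.1 hz)
      exact ⟨⟨t, ht⟩, h⟩
  refine ⟨Γ, c.mono s, fun z hz z' hz' h => ?_, Subset.antisymm ?_ ?_⟩
  · obtain ⟨t, rfl⟩ := s z hz
    obtain ⟨t', rfl⟩ := s z' hz'
    rw [e, e] at h
    exact ((dk_iff L _ _).1 h).symm
  · rintro _ ⟨z, hz, rfl⟩
    obtain ⟨t, rfl⟩ := s z hz
    exact ⟨t.1, (e t).symm⟩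
  · rintro _ ⟨t, rfl⟩
    have hz := mem_sphere_zero_iff_norm.2 (MP_1e9af3_an.norm_ee_real t)
    obtain ⟨t', h⟩ := s _ hz
    exact ⟨_, hz, by rw [← h, e]; exact (dk_iff L _ _).2 h.symm⟩

/-- a finite union of squares is a full compact set in the plane -/
theorem dk_fill {j : E g → ℂ} (hj : Continuous j) (ij : Function.Injective j) {C : Set (E g)}
    (hC : IsCompact C) : ∃ (K : Set ℂ) (i : ℂ → E g), j '' C ⊆ K ∧ ContinuousOn i K ∧
      (∀ k ∈ K, j (i k) = k) ∧ ∀ w ∉ K, MP_d32f96_gt.Out K w := by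
  have := (fin_sq hC).to_subtype
  set S := {x : F g | (sq x ∩ C).Nonempty}
  have cb : Continuous fun y : Σ _ : S, Sq g => (X g).s y.1.1 y.2 :=
    continuous_sigma fun x => (X g).cont_s x.1
  obtain ⟨i, ci, ei⟩ := dk_fac (bp 1) (hj.comp cb) cb fun x y h => ij h
  refine ⟨_, i, ?_, ci, ?_, fun w hw => ?_⟩
  · rintro _ ⟨e, he, rfl⟩
    obtain ⟨x, z, rfl⟩ := (X g).s_surj e
    exact ⟨⟨⟨x, _, ⟨z, rfl⟩, he⟩, z⟩, rfl⟩
  · rintro _ ⟨y, rfl⟩
    rw [ei]
    rfl
  · obtain ⟨l, hl⟩ := exists_log S (fun e => j e - w)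
      (fun x _ => (hj.comp ((X g).cont_s x)).sub continuous_const)
      fun x hx z h => hw ⟨⟨⟨x, hx⟩, z⟩, sub_eq_zero.1 h⟩
    obtain ⟨m, cm, em⟩ := dk_fac 0 (hj.comp cb)
      (b := fun y : Σ _ : S, Sq g => l ((X g).s y.1.1 y.2))
      (continuous_sigma fun x => (hl x.1 x.2).1) fun x y h => congrArg l (ij h)
    refine (MP_d32f96_gt.sLogOut_of _ w (isCompact_range (hj.comp cb))).1
      ⟨fun z => m z / MP_1e9af3_an.tpi, cm.div_const _, ?_⟩
    rintro _ ⟨y, rfl⟩
    rw [← MP_1e9af3_an.exp_eq_ee, em]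
    exact (hl y.1.1 y.1.2).2 y.2

/-- the disk upstairs -/
theorem disk_up (L : Lf φ σ 1) : ∃ D : ℂ → E g, ContinuousOn D (Metric.closedBall 0 1) ∧
    InjOn D (Metric.closedBall 0 1) ∧ D '' Metric.sphere 0 1 = range (fun t : ℝ => σ ⟨t, 1 / 2⟩) ∧
    IsOpen (D '' Metric.ball 0 1) := by
  obtain ⟨j, hj, ij⟩ := exists_emb g
  obtain ⟨Γ, cΓ, iΓ, eΓ⟩ := dk_loop L
  obtain ⟨K, i, hK, ci, ei, out⟩ := dk_fill hj ij ((isCompact_sphere 0 1).image_of_continuousOn cΓ)
  obtain ⟨H, hH⟩ := MP_d32f96_gt.tSP (j ∘ Γ) (hj.comp_continuousOn cΓ) (ij.comp_injOn iΓ)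
  have s : ∀ z ∈ Metric.sphere (0 : ℂ) 1, H z ∈ K := fun z hz => by
    rw [hH z (mem_sphere_zero_iff_norm.1 hz)]
    exact hK ⟨_, ⟨z, hz, rfl⟩, rfl⟩
  have m : ∀ z ∈ Metric.closedBall (0 : ℂ) 1, H z ∈ K := fun z hz => by
    by_contra hw
    have zb : z ∈ Metric.ball (0 : ℂ) 1 :=
      lt_of_le_of_ne hz fun e => hw (s z e)
    refine out _ hw (((isCompact_closedBall 0 1).image H.continuous).isBounded.subset
      (Subset.trans ?_ (image_mono Metric.ball_subset_closedBall)))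
    refine isPreconnected_connectedComponentIn.subset_left_of_subset_union
      (H.isOpenMap _ Metric.isOpen_ball)
      (H.isOpenMap _ (Metric.isClosed_closedBall (x := 0) (ε := 1)).isOpen_compl) ?_ ?_
      ⟨_, mem_connectedComponentIn hw, z, zb, rfl⟩
    · exact (disjoint_image_iff H.injective).2
        (disjoint_compl_right.mono_left Metric.ball_subset_closedBall)
    · intro y hy
      obtain ⟨x, rfl⟩ := H.surjective y
      rcases lt_trichotomy (dist x 0) 1 with h | h | h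
      · exact Or.inl ⟨x, h, rfl⟩
      · exact absurd (s x h) (connectedComponentIn_subset _ _ hy)
      · exact Or.inr ⟨x, not_le.2 h, rfl⟩
  refine ⟨fun z => i (H z), ci.comp H.continuous.continuousOn m, fun z hz z' hz' h => ?_, ?_, ?_⟩
  · exact H.injective (by rw [← ei _ (m z hz), ← ei _ (m z' hz')]; exact congrArg j h)
  · rw [← eΓ]
    refine image_congr fun z hz => ij ?_
    rw [ei _ (s z hz)]
    exact hH z (mem_sphere_zero_iff_norm.1 hz)
  · have : (fun z => i (H z)) '' Metric.ball 0 1 = j ⁻¹' (H '' Metric.ball 0 1) := by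
      ext e
      constructor
      · rintro ⟨z, hz, rfl⟩
        exact ⟨z, hz, (ei _ (m z (Metric.ball_subset_closedBall hz))).symm⟩
      · rintro ⟨z, hz, h⟩
        exact ⟨z, hz, ij ((ei _ (m z (Metric.ball_subset_closedBall hz))).trans h)⟩
    rw [this]
    exact (H.isOpenMap _ Metric.isOpen_ball).preimage hj

/-- a deck transformation that maps a compact set into itself is trivial -/
theorem dk_fin {K : Set (E g)} (hK : IsCompact K) {e : E g} (he : e ∈ K) {γ : F g}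
    (h : ∀ e ∈ K, γ • e ∈ K) : γ = 1 := by
  by_contra h1
  obtain ⟨x, z, rfl⟩ := (X g).s_surj e
  have p : ∀ n : ℕ, γ ^ n • (X g).s x z ∈ K := fun n => by
    induction n with
    | zero => rwa [pow_zero, one_smul]
    | succ n ih => rw [pow_succ', mul_smul]; exact h _ ih
  refine infinite_of_injective_forall_mem (f := fun n : ℕ => (γ ^ n)⁻¹) (fun a b hab => ?_)
    (fun n => ?_) (fin_orbit hK x)
  · have e : γ ^ ((a : ℤ) - b) = 1 := by
      rw [zpow_sub, zpow_natCast, zpow_natCast, inv_injective hab, mul_inv_cancel]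
    exact_mod_cast sub_eq_zero.1 (zpow_eq_one' h1 e)
  · exact ⟨_, p n, z, (inv_smul_smul _ _).symm⟩

/-- the disk is one side of the curve -/
theorem dk_side (L : Lf φ σ 1) {u : E g → ℝ} (U : Side σ u) {D : ℂ → E g}
    (c : ContinuousOn D (Metric.closedBall 0 1)) (i : InjOn D (Metric.closedBall 0 1))
    (e : D '' Metric.sphere 0 1 = range fun t : ℝ => σ ⟨t, 1 / 2⟩)
    (o : IsOpen (D '' Metric.ball 0 1)) : ∃ s : ℝ, (s = 1 ∨ s = -1) ∧
      ∀ y, y ∈ D '' Metric.closedBall 0 1 ↔ 0 ≤ s * (u y - 1 / 2) := by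
  have half : ∀ y, u y = 1 / 2 ↔ y ∈ D '' Metric.sphere 0 1 := fun y => by
    rw [e]
    constructor
    · intro h
      obtain ⟨q, rfl, h', -⟩ := U.mid (e := y) (by rw [h]; norm_num) (by rw [h]; norm_num)
      exact ⟨q.re, congrArg σ (Complex.ext rfl (h'.trans h).symm)⟩
    · rintro ⟨t, rfl⟩
      rw [U.on]
      norm_num
  have ne : ∀ z ∈ Metric.ball (0 : ℂ) 1, u (D z) ≠ 1 / 2 := fun z hz h => by
    obtain ⟨w, hw, h'⟩ := (half _).1 h
    rw [i (Metric.sphere_subset_closedBall hw) (Metric.ball_subset_closedBall hz) h'] at hw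
    exact (ne_of_lt hz) hw
  have cu := U.cont.comp_continuousOn (c.mono Metric.ball_subset_closedBall)
  obtain ⟨s, hs, pos⟩ : ∃ s : ℝ, (s = 1 ∨ s = -1) ∧
      ∀ z ∈ Metric.ball (0 : ℂ) 1, 0 < s * (u (D z) - 1 / 2) := by
    have z0 : (0 : ℂ) ∈ Metric.ball (0 : ℂ) 1 := Metric.mem_ball_self one_pos
    have pc := (convex_ball (0 : ℂ) 1).isPreconnected
    rcases lt_or_gt_of_ne (ne 0 z0) with h | h
    · refine ⟨-1, Or.inr rfl, fun z hz => ?_⟩
      have := pc.gt_of_ne cu ne ⟨0, z0, h⟩ hz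
      simp only [Function.comp] at this
      linarith
    · refine ⟨1, Or.inl rfl, fun z hz => ?_⟩
      have := pc.lt_of_ne cu ne ⟨0, z0, h⟩ hz
      simp only [Function.comp] at this
      linarith
  have sgn : ∀ q, (0 < s * (u (σ q) - 1 / 2) ↔ 0 < s * (q.im - 1 / 2)) := fun q => by
    rw [U.on]
    rcases hs with rfl | rfl
    · simp only [one_mul, sub_pos, lt_max_iff, lt_min_iff]
      norm_num
    · simp only [neg_mul, one_mul, neg_sub, sub_pos, max_lt_iff, min_lt_iff]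
      norm_num
  have s0 : ∀ y, s * (u y - 1 / 2) = 0 ↔ u y = 1 / 2 := fun y => by
    rcases hs with rfl | rfl <;> constructor <;> intro h <;> linarith
  have cl : IsClosed (D '' Metric.closedBall 0 1) :=
    ((isCompact_closedBall 0 1).image_of_continuousOn c).isClosed
  have split : ∀ y ∈ D '' Metric.closedBall 0 1, u y ≠ 1 / 2 → y ∈ D '' Metric.ball 0 1 := by
    rintro _ ⟨z, hz, rfl⟩ h
    exact ⟨z, lt_of_le_of_ne hz fun h' => h ((half _).2 ⟨z, h', rfl⟩), rfl⟩
  have up : ∀ q : ℂ, 0 < s * (q.im - 1 / 2) → σ q ∈ D '' Metric.ball 0 1 := by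
    have cv : Convex ℝ {q : ℂ | 0 < s * (q.im - 1 / 2)} := by
      intro a ha b hb x y hx hy hxy
      simp only [mem_ofPred_eq, Complex.add_im, Complex.smul_im, smul_eq_mul] at ha hb ⊢
      have : s * (x * a.im + y * b.im - 1 / 2) =
          x * (s * (a.im - 1 / 2)) + y * (s * (b.im - 1 / 2)) + s * (x + y - 1) / 2 := by ring
      rw [this, hxy, sub_self, mul_zero, zero_div, add_zero]
      rcases hx.eq_or_lt with rfl | hx'
      · rw [zero_add] at hxy
        rw [hxy]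
        linarith
      · exact add_pos_of_pos_of_nonneg (mul_pos hx' ha) (mul_nonneg hy hb.le)
    have h1 : (1 : ℂ) ∈ Metric.sphere (0 : ℂ) 1 := by simp
    have m : D 1 ∈ closure (D '' Metric.ball 0 1) := by
      refine ((c 1 (Metric.sphere_subset_closedBall h1)).mono
        Metric.ball_subset_closedBall).mem_closure_image ?_
      rw [closure_ball 0 one_ne_zero]
      exact Metric.sphere_subset_closedBall h1
    obtain ⟨t, ht⟩ : D 1 ∈ range fun t : ℝ => σ ⟨t, 1 / 2⟩ := e ▸ ⟨1, h1, rfl⟩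
    obtain ⟨_, ⟨q, rfl⟩, z, hz, hq⟩ := mem_closure_iff.1 m _ L.isOpenMap.isOpen_range ⟨_, ht⟩
    intro q' hq'
    refine (cv.isPreconnected.image σ L.cont.continuousOn).subset_left_of_subset_union o
      cl.isOpen_compl (disjoint_compl_right.mono_left (image_mono Metric.ball_subset_closedBall))
      ?_ ⟨σ q, mem_image_of_mem σ ((sgn q).1 (hq ▸ pos z hz)), z, hz, hq⟩
      (mem_image_of_mem σ hq')
    rintro _ ⟨w, hw, rfl⟩
    by_cases h : σ w ∈ D '' Metric.closedBall 0 1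
    · exact Or.inl (split _ h fun h' => ((sgn w).2 hw).ne' ((s0 _).2 h'))
    · exact Or.inr h
  have cs : Continuous fun y => s * (u y - 1 / 2) :=
    continuous_const.mul (U.cont.sub continuous_const)
  have key : {y | 0 < s * (u y - 1 / 2)} ∩ (D '' Metric.closedBall 0 1)ᶜ = ∅ := by
    refine (isClopen_iff.1
      ⟨⟨?_⟩, (isOpen_lt continuous_const cs).inter cl.isOpen_compl⟩).resolve_right fun h => ?_
    · have : ({y | 0 < s * (u y - 1 / 2)} ∩ (D '' Metric.closedBall 0 1)ᶜ)ᶜ =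
          {y | s * (u y - 1 / 2) < 0} ∪ D '' Metric.ball 0 1 ∪ range σ := by
        ext y
        simp only [mem_compl_iff, mem_inter_iff, mem_ofPred_eq, mem_union, not_and, not_not]
        constructor
        · intro h
          rcases lt_trichotomy (s * (u y - 1 / 2)) 0 with h' | h' | h'
          · exact Or.inl (Or.inl h')
          · obtain ⟨t, ht⟩ : y ∈ range fun t : ℝ => σ ⟨t, 1 / 2⟩ := e ▸ (half y).1 ((s0 y).1 h')
            exact Or.inr ⟨_, ht⟩
          · exact Or.inl (Or.inr (split y (h h') fun h2 => h'.ne' ((s0 y).2 h2)))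
        · rintro ((h | h) | ⟨q, rfl⟩) h'
          · exact absurd h h'.not_gt
          · exact image_mono Metric.ball_subset_closedBall h
          · exact image_mono Metric.ball_subset_closedBall (up q ((sgn q).1 h'))
      rw [this]
      exact ((isOpen_lt cs continuous_const).union o).union L.isOpenMap.isOpen_range
    · exact (h.symm.subset (mem_univ (D 0))).2 ⟨0, Metric.mem_closedBall_self zero_le_one, rfl⟩
  refine ⟨s, hs, fun y => ⟨fun h => ?_, fun h => ?_⟩⟩
  · by_cases h' : u y = 1 / 2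
    · exact ((s0 y).2 h').ge
    · obtain ⟨z, hz, rfl⟩ := split y h h'
      exact (pos z hz).le
  · rcases h.eq_or_lt with h' | h'
    · exact image_mono Metric.sphere_subset_closedBall ((half y).1 ((s0 y).1 h'.symm))
    · by_contra h2
      exact key.subset ⟨h', h2⟩

theorem disk (hg : 0 < g) (L : Lf φ σ 1) : Disk g (core g φ) := by
  obtain ⟨D, c, i, e, o⟩ := disk_up L
  obtain ⟨u, U⟩ := L.exists_side
  obtain ⟨s, hs, m⟩ := dk_side L U c i e o
  have k := (isCompact_closedBall (0 : ℂ) 1).image_of_continuousOn c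
  refine ⟨fun z => (X g).p (D z), (X g).cont_p.comp_continuousOn c, fun z hz z' hz' h => ?_, ?_⟩
  · obtain ⟨γ, hγ⟩ := ((X g).fib _ _).1 h
    have hγ' : γ • D z' = D z := hγ
    by_cases h1 : γ = 1
    · rw [h1, one_smul] at hγ'
      exact i hz hz' hγ'.symm
    obtain ⟨a, b, ha, hb, -, -, n⟩ := Side.nest L U (γ := γ) fun k => by rwa [one_zpow]
    have n' : ∀ y, s * (u y - 1 / 2) = s * (a - 1 / 2) ∨
        s * (u (γ⁻¹ • y) - 1 / 2) = s * (b - 1 / 2) := fun y =>
      (n y).imp (fun h => by rw [h]) fun h => by rw [h]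
    exfalso
    rcases le_or_gt 0 (s * (a - 1 / 2)) with pa | pa <;>
      rcases le_or_gt 0 (s * (b - 1 / 2)) with pb | pb
    · have : Nonempty (Fin g × Bool) := ⟨(⟨0, hg⟩, true)⟩
      refine infinite_univ (α := F g) ((fin_sq (k.union (k.image ((X g).cont_smul γ)))).subset
        fun x _ => ⟨bp x, ⟨_, rfl⟩, ?_⟩)
      rcases n' (bp x) with h | h
      · exact Or.inl ((m _).2 (h ▸ pa))
      · exact Or.inr ⟨_, (m _).2 (h ▸ pb), smul_inv_smul _ _⟩
    · refine h1 (dk_fin k ⟨z, hz, rfl⟩ fun y hy => (m _).2 ?_)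
      rcases n' (γ • y) with h | h
      · exact h ▸ pa
      · rw [inv_smul_smul] at h
        exact absurd (h ▸ (m y).1 hy) pb.not_ge
    · refine h1 (inv_eq_one.1 (dk_fin k ⟨z, hz, rfl⟩ fun y hy => (m _).2 ?_))
      rcases n' y with h | h
      · exact absurd (h ▸ (m y).1 hy) pa.not_ge
      · exact h ▸ pb
    · rcases n' (D z) with h | h
      · exact absurd (h ▸ (m _).1 ⟨z, hz, rfl⟩) pa.not_ge
      · rw [← hγ', inv_smul_smul] at h
        exact absurd (h ▸ (m _).1 ⟨z', hz', rfl⟩) pb.not_ge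
  · rw [← image_image (X g).p D, e, ← range_comp]
    exact congrArg range (funext fun t => L.lifts _)

end Pool.Agent.Lib.MP_294da1_gt.Br
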