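import Pool.Agent.Lib.MP_294da1_gt.Br.Strip

/-! A disk upstairs whose boundary is moved off itself by the deck group embeds downstairs. -/

set_option autoImplicit false

namespace Pool.Agent.Lib.MP_294da1_gt.Br

open Pool.Agent.Lib.MP_a47850_al Pool.Agent.Lib.MP_a47850_al.Mcg Set Filter Topology

variable {g : ℕ}

variable {φ : ℂ → Surf g} {σ : ℂ → E g}

theorem dk2_esc {K : Set (E g)} (hK : IsCompact K) {γ : F g} (h1 : γ ≠ 1) (e : E g)
    (h : ∀ n : ℕ, γ ^ n • e ∈ K) : False := by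
  obtain ⟨x, z, rfl⟩ := (X g).s_surj e
  have inj : Function.Injective fun n : ℕ => (γ ^ n)⁻¹ := fun n m k =>
    injective_pow_iff_not_isOfFinOrder.2 (not_isOfFinOrder_of_isMulTorsionFree h1) (inv_injective k)
  refine infinite_of_injective_forall_mem inj (fun n => ?_) (fin_orbit hK x)
  exact ⟨_, h n, z, (inv_smul_smul _ _).symm⟩

theorem dk2_dich {Y : Type} [TopologicalSpace Y] {K B C : Set Y} (hK : IsClosed K) (hB : IsOpen B)
    (BK : B ⊆ K) (hC : IsPreconnected C) (d : ∀ e ∈ C, e ∈ K → e ∈ B) : C ⊆ B ∨ C ⊆ Kᶜ :=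
  hC.subset_or_subset hB hK.isOpen_compl (disjoint_compl_right.mono_left BK)
    fun e he => (em (e ∈ K)).imp (d e he) id

theorem dk2_free {K B : Set (E g)} (hK : IsCompact K) (cK : IsPreconnected K) (hB : IsOpen B)
    (BK : B ⊆ K) (cc : IsPreconnected (K \ B)) (ne : (K \ B).Nonempty)
    (d : ∀ γ : F g, γ ≠ 1 → ∀ e ∈ K \ B, γ • e ∉ K \ B) {γ : F g} (h1 : γ ≠ 1) {e : E g}
    (he : e ∈ K) : γ • e ∉ K := by
  intro he'
  obtain ⟨a, ha⟩ := ne
  have two : ∀ δ : F g, δ ≠ 1 → (∀ e ∈ K \ B, δ • e ∈ B) ∨ ∀ e ∈ K \ B, δ • e ∉ K := by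
    intro δ hδ
    refine (dk2_dich hK.isClosed hB BK (cc.image _ ((X g).cont_smul δ).continuousOn) ?_).imp
      (fun k e he => k ⟨e, he, rfl⟩) fun k e he => k ⟨e, he, rfl⟩
    rintro _ ⟨e, he, rfl⟩ k
    exact by_contra fun n => d δ hδ e he ⟨k, n⟩
  have mix : ∀ δ : F g, δ ≠ 1 → (∀ e ∈ K \ B, δ • e ∈ B) → (∀ e ∈ K \ B, δ⁻¹ • e ∉ K) →
      False := by
    intro δ hδ p q
    rcases dk2_dich hK.isClosed hB BK (cK.image _ ((X g).cont_smul δ).continuousOn) (by
      rintro _ ⟨e, he, rfl⟩ k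
      exact by_contra fun n => q _ ⟨k, n⟩ (by rwa [inv_smul_smul])) with k | k
    · refine dk2_esc hK hδ a fun n => ?_
      induction n with
      | zero => simpa using ha.1
      | succ n ih =>
        rw [pow_succ', mul_smul]
        exact BK (k ⟨_, ih, rfl⟩)
    · exact k ⟨a, ha.1, rfl⟩ (BK (p a ha))
  have h2 : γ⁻¹ ≠ 1 := inv_ne_one.2 h1
  have oB : IsOpen {y : E g | γ⁻¹ • y ∈ B} := hB.preimage ((X g).cont_smul _)
  have kK : IsCompact {y : E g | γ⁻¹ • y ∈ K} := by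
    have := hK.image ((X g).cont_smul γ)
    rwa [image_smul, ← preimage_smul_inv] at this
  rcases two γ h1 with p | p <;> rcases two γ⁻¹ h2 with q | q
  · have w : K ∪ {y : E g | γ⁻¹ • y ∈ K} = B ∪ {y : E g | γ⁻¹ • y ∈ B} := by
      refine Subset.antisymm ?_ (union_subset_union BK fun y hy => BK hy)
      rintro y (k | k)
      · exact (em (y ∈ B)).imp id fun n => q y ⟨k, n⟩
      · refine (em (γ⁻¹ • y ∈ B)).symm.imp (fun n => ?_) id
        have := p _ ⟨k, n⟩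
        rwa [smul_inv_smul] at this
    have u := (show IsClopen (K ∪ {y : E g | γ⁻¹ • y ∈ K}) from
      ⟨(hK.union kK).isClosed, w ▸ hB.union oB⟩).eq_univ ⟨a, Or.inl ha.1⟩
    exact dk2_esc (hK.union kK) h1 a fun n => u ▸ mem_univ _
  · exact mix γ h1 p q
  · exact mix γ⁻¹ h2 q (by rwa [inv_inv])
  · have w : K ∩ {y : E g | γ⁻¹ • y ∈ K} = B ∩ {y : E g | γ⁻¹ • y ∈ B} := by
      refine Subset.antisymm ?_ (inter_subset_inter BK fun y hy => BK hy)
      rintro y ⟨k, l⟩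
      refine ⟨by_contra fun n => q y ⟨k, n⟩ l, by_contra fun n => p _ ⟨l, n⟩ ?_⟩
      rwa [smul_inv_smul]
    have u := (show IsClopen (K ∩ {y : E g | γ⁻¹ • y ∈ K}) from
      ⟨hK.isClosed.inter kK.isClosed, w ▸ hB.inter oB⟩).eq_univ
        ⟨γ • e, he', by rwa [mem_ofPred_eq, inv_smul_smul]⟩
    exact ha.2 ((w ▸ u ▸ mem_univ a : a ∈ B ∩ {y : E g | γ⁻¹ • y ∈ B}).1)

theorem dk2_disk (L : Lf φ σ 1) {D : ℂ → E g} (c : ContinuousOn D (Metric.closedBall 0 1))
    (i : InjOn D (Metric.closedBall 0 1))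
    (s : D '' Metric.sphere 0 1 = range (fun t : ℝ => σ ⟨t, 1 / 2⟩))
    (o : IsOpen (D '' Metric.ball 0 1)) : Disk g (core g φ) := by
  have e : D '' Metric.closedBall 0 1 \ D '' Metric.ball 0 1 =
      range (fun t : ℝ => σ ⟨t, 1 / 2⟩) := by
    rw [← s, ← i.image_sdiff_subset Metric.ball_subset_closedBall, Metric.closedBall_sdiff_ball]
  have ct : Continuous fun t : ℝ => σ ⟨t, 1 / 2⟩ := by
    refine L.cont.comp ?_
    have : (fun t : ℝ => (⟨t, 1 / 2⟩ : ℂ)) = fun t : ℝ => (t : ℂ) + ⟨0, 1 / 2⟩ := by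
      funext t
      apply Complex.ext <;> simp
    rw [this]
    fun_prop
  refine ⟨fun q => (X g).p (D q), (X g).cont_p.comp_continuousOn c, fun a ha b hb k => ?_, ?_⟩
  · obtain ⟨γ, hγ⟩ := ((X g).fib _ _).1 k
    by_cases h1 : γ = 1
    · subst h1
      exact i ha hb (hγ.symm.trans (one_smul _ _))
    · refine (dk2_free ((isCompact_closedBall 0 1).image_of_continuousOn c)
        ((convex_closedBall 0 1).isPreconnected.image _ c) o
        (image_mono Metric.ball_subset_closedBall) (e ▸ isPreconnected_range ct)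
        (e ▸ range_nonempty _) ?_ h1 ⟨b, hb, rfl⟩ ⟨a, ha, hγ.symm⟩).elim
      rw [e]
      rintro δ hδ _ ⟨t, rfl⟩ ⟨t', k⟩
      obtain ⟨n, -, r⟩ := (L.eq_iff δ _ _).1 k.symm
      exact hδ (r.trans (one_zpow n))
  · rw [← image_image (X g).p D, s, ← range_comp]
    exact congrArg range (funext fun t => L.lifts _)

end Pool.Agent.Lib.MP_294da1_gt.Br
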