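import Pool.Agent.Lib.MP_294da1_gt.Br.Base

/-! Logarithms on unions of squares, lifts, boundary paths. -/

set_option autoImplicit false

namespace Pool.Agent.Lib.MP_294da1_gt.Br

open Pool.Agent.Lib.MP_a47850_al Pool.Agent.Lib.MP_a47850_al.Mcg Set Filter Topology

variable {g : ℕ}

theorem exists_prim {A : Type} [AddCommGroup A] (c : F g → Fin g × Bool → A) :
    ∃ a : F g → A, ∀ x k, a (x * FreeGroup.of k) = a x + c x k := by
  let π : Fin g × Bool → Equiv.Perm (F g × A) := fun k =>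
    ⟨fun p => (p.1 * FreeGroup.of k, p.2 + c p.1 k),
      fun p => (p.1 * (FreeGroup.of k)⁻¹, p.2 - c (p.1 * (FreeGroup.of k)⁻¹) k),
      fun p => by simp, fun p => by simp⟩
  let φ : F g →* Equiv.Perm (F g × A) := FreeGroup.lift fun k => (π k)⁻¹
  have e : ∀ k, φ (FreeGroup.of k)⁻¹ = π k := fun k => by
    rw [map_inv, FreeGroup.lift_apply_of, inv_inv]
  have h : ∀ w : F g, ∀ p, (φ w⁻¹ p).1 = p.1 * w := fun w => by
    induction w using FreeGroup.induction_on with
    | C1 => intro p; simp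
    | of k => intro p; rw [e]; rfl
    | inv_of k _ => intro p; rw [inv_inv, FreeGroup.lift_apply_of]; rfl
    | mul x y hx hy =>
      intro p; rw [mul_inv_rev, map_mul, Equiv.Perm.mul_apply, hy, hx, mul_assoc]
  refine ⟨fun x => (φ x⁻¹ (1, 0)).2, fun x k => ?_⟩
  have := h x (1, 0)
  rw [one_mul] at this
  show (φ (x * FreeGroup.of k)⁻¹ (1, 0)).2 = _
  rw [mul_inv_rev, map_mul, Equiv.Perm.mul_apply, e]
  show (φ x⁻¹ (1, 0)).2 + c (φ x⁻¹ (1, 0)).1 k = _
  rw [this]

/-- logarithm on a simply connected space -/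
theorem log_sc {Y : Type} [TopologicalSpace Y] [SimplyConnectedSpace Y]
    [LocallyPathConnectedSpace Y] {f : Y → ℂ} (hf : Continuous f) (h0 : ∀ y, f y ≠ 0) :
    ∃ l : Y → ℂ, Continuous l ∧ ∀ y, Complex.exp (l y) = f y := by
  obtain ⟨y⟩ : Nonempty Y := inferInstance
  obtain ⟨l, ⟨-, h⟩, -⟩ := Complex.isCoveringMap_exp.existsUnique_continuousMap_lifts
    (⟨fun y => ⟨f y, h0 y⟩, hf.subtype_mk _⟩ : C(Y, {z : ℂ // z ≠ 0})) y (Complex.log (f y))
    (Subtype.ext (Complex.exp_log (h0 y)))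
  exact ⟨l, l.continuous, fun z => congrArg Subtype.val (congrFun h z)⟩

/-- two logarithms on a connected space differ by a constant -/
theorem log_diff {Y : Type} [TopologicalSpace Y] [PreconnectedSpace Y] {a b : Y → ℂ}
    (ha : Continuous a) (hb : Continuous b) (h : ∀ y, Complex.exp (a y) = Complex.exp (b y)) :
    ∃ n : ℤ, ∀ y, a y = b y + n * (2 * Real.pi * Complex.I) := by
  rcases isEmpty_or_nonempty Y with k | ⟨⟨y⟩⟩
  · exact ⟨0, fun y => k.elim y⟩
  obtain ⟨n, hn⟩ := Complex.exp_eq_exp_iff_exists_int.1 (h y)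
  refine ⟨n, congrFun (Complex.isCoveringMap_exp.eq_of_comp_eq ha
    (g₂ := fun y => b y + n * (2 * Real.pi * Complex.I)) (by fun_prop) (funext fun z =>
      Subtype.ext ?_) y hn)⟩
  show Complex.exp (a z) = Complex.exp (b z + n * (2 * Real.pi * Complex.I))
  rw [Complex.exp_add, Complex.exp_int_mul_two_pi_mul_I, mul_one, h]

theorem exists_log (S : Set (F g)) (f : E g → ℂ)
    (hc : ∀ x ∈ S, Continuous fun z => f ((X g).s x z)) (h0 : ∀ x ∈ S, ∀ z, f ((X g).s x z) ≠ 0) :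
    ∃ l : E g → ℂ, ∀ x ∈ S, (Continuous fun z => l ((X g).s x z)) ∧
      ∀ z, Complex.exp (l ((X g).s x z)) = f ((X g).s x z) := by
  have h1 : ∀ x : F g, ∃ l : Sq g → ℂ, x ∈ S →
      Continuous l ∧ ∀ z, Complex.exp (l z) = f ((X g).s x z) := fun x => by
    by_cases hx : x ∈ S
    · exact (log_sc (hc x hx) (h0 x hx)).imp fun _ h _ => h
    · exact ⟨0, fun h => (hx h).elim⟩
  choose L hL using h1
  have h2 : ∀ (x : F g) k, ∃ n : ℤ, x ∈ S → x * FreeGroup.of k ∈ S → ∀ t, L x ((X g).A k t) =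
      L (x * FreeGroup.of k) ((X g).B k t) + n * (2 * Real.pi * Complex.I) := fun x k => by
    by_cases hx : x ∈ S ∧ x * FreeGroup.of k ∈ S
    · exact (log_diff ((hL _ hx.1).1.comp ((X g).A k).continuous)
        ((hL _ hx.2).1.comp ((X g).B k).continuous) fun t => ((hL _ hx.1).2 _).trans
          ((congrArg f ((X g).s_AB x k t)).trans ((hL _ hx.2).2 _).symm)).imp fun _ h _ _ => h
    · exact ⟨0, fun a b => (hx ⟨a, b⟩).elim⟩
  choose c hn using h2
  obtain ⟨a, ha⟩ := exists_prim c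
  let N : F g → Sq g → ℂ := fun x z => L x z + a x * (2 * Real.pi * Complex.I)
  have h3 : ∀ x k t, x ∈ S → x * FreeGroup.of k ∈ S →
      N x ((X g).A k t) = N (x * FreeGroup.of k) ((X g).B k t) := fun x k t u v => by
    simp only [N]; rw [hn x k u v, ha]; push_cast; ring
  have h4 : ∀ e : E g, ∃ v, ∀ x ∈ S, ∀ z, e = (X g).s x z → v = N x z := fun e => by
    by_cases h : ∃ y ∈ S, ∃ w, e = (X g).s y w
    · obtain ⟨y, hy, w, rfl⟩ := h
      refine ⟨N y w, fun x hx z k => ?_⟩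
      rcases ((X g).s_eq ..).1 k with ⟨rfl, rfl⟩ | ⟨k, t, rfl, rfl, rfl⟩ | ⟨k, t, rfl, rfl, rfl⟩
      exacts [rfl, h3 _ _ _ hy hx, (h3 _ _ _ hx hy).symm]
    · exact ⟨0, fun x hx z k => (h ⟨x, hx, z, k⟩).elim⟩
  choose l hl using h4
  refine ⟨l, fun x hx => ?_⟩
  simp only [fun z => hl _ x hx z rfl, N]
  refine ⟨(hL x hx).1.add continuous_const, fun z => ?_⟩
  rw [Complex.exp_add, Complex.exp_int_mul_two_pi_mul_I, mul_one, (hL x hx).2]

theorem exists_lift {Y : Type} [TopologicalSpace Y] [SimplyConnectedSpace Y]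
    [LocallyPathConnectedSpace Y] {f : Y → Surf g} (hf : Continuous f) (y : Y) {e : E g}
    (he : (X g).p e = f y) : ∃ a : Y → E g, Continuous a ∧ (∀ t, (X g).p (a t) = f t) ∧ a y = e :=
  let ⟨a, ⟨h, k⟩, _⟩ := (X g).cov.isCoveringMap.existsUnique_continuousMap_lifts ⟨f, hf⟩ y e he
  ⟨a, a.continuous, congrFun k, h⟩

theorem log_mem (x : F g) {z : Sq g} (hz : z ∈ Bd g) : (X g).s x z ∈ dE g := ⟨z, hz, rfl⟩

theorem bp_mem (x : F g) : bp x ∈ dE g := log_mem x (Or.inl (Top.pr_x _ le_rfl (Top.g4 g)))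

/-- a path in the boundary part of one square -/
theorem log_path (y : F g) {γ : ℝ → Sq g} (hγ : Continuous γ) {T : Set ℝ} (hT : Convex ℝ T)
    (h : ∀ t ∈ T, γ t ∈ Bd g) {c d : ℝ} (hc : c ∈ T) (hd : d ∈ T) :
    JoinedIn (dE g) ((X g).s y (γ c)) ((X g).s y (γ d)) :=
  (((hT.isPathConnected ⟨c, hc⟩).joinedIn c hc d hd).map (((X g).cont_s y).comp hγ)).mono
    (by rintro _ ⟨t, ht, rfl⟩; exact log_mem y (h t ht))

/-- left, top and right side -/
theorem joined_out (y : F g) {z : Sq g} (hz : z.1.1 = 0 ∨ z.1.1 = 4 * g ∨ z.1.2 = 4 * g) :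
    JoinedIn (dE g) (bp y) ((X g).s y z) := by
  have top : ∀ t, JoinedIn (dE g) (bp y) ((X g).s y (pr g t (4 * g))) := fun t =>
    log_path y (γ := fun t => pr g t (4 * g)) (by fun_prop) convex_univ
      (fun _ _ => Or.inr (Or.inr (Or.inl (Top.pr_y _ (Top.g4 g) le_rfl)))) (c := 0) trivial trivial
  rcases hz with h | h | h
  · rw [show z = pr g 0 z.1.2 from Top.eq_pr h rfl]
    exact log_path y (γ := fun t => pr g 0 t) (by fun_prop) convex_univ
      (fun _ _ => Or.inl (Top.pr_x _ le_rfl (Top.g4 g))) (c := 4 * g) trivial trivial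
  · rw [show z = pr g (4 * g) z.1.2 from Top.eq_pr h rfl]
    exact (top _).trans (log_path y (γ := fun t => pr g (4 * g) t) (by fun_prop) convex_univ
      (fun _ _ => Or.inr (Or.inl (Top.pr_x _ (Top.g4 g) le_rfl))) trivial trivial)
  · rw [show z = pr g z.1.1 (4 * g) from Top.eq_pr rfl h]
    exact top _

/-- the gaps of the bottom side lie on the boundary -/
theorem log_bd {n : ℕ} (hn : n ≤ 4 * g) {x : ℝ} (hx : x ∈ Icc ((n : ℝ) - 1 / 4) (n + 1 / 4)) :
    pr g x 0 ∈ Bd g := by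
  refine Or.inr (Or.inr (Or.inr ⟨Top.pr_y0 _, fun m => ?_⟩))
  have hn' : (n : ℝ) ≤ 4 * g := by exact_mod_cast hn
  rcases le_or_gt n m with k | k
  · have k' : (n : ℝ) ≤ m := by exact_mod_cast k
    exact Or.inl (max_le (by positivity) ((min_le_left _ _).trans (by linarith [hx.2])))
  · have k' : (m : ℝ) + 1 ≤ n := by exact_mod_cast k
    exact Or.inr (le_max_of_le_right (le_min (by linarith [hx.1]) (by linarith)))

theorem joined_gap (y : F g) {n : ℕ} (hn : n ≤ 4 * g) {a : ℝ} (ha : |a - n| ≤ 1 / 4) :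
    JoinedIn (dE g) ((X g).s y (pr g n 0)) ((X g).s y (pr g a 0)) :=
  log_path y (γ := fun t => pr g t 0) (by fun_prop) (convex_Icc _ _) (fun _ => log_bd hn)
    ⟨by linarith, by linarith⟩ ⟨by linarith [(abs_le.1 ha).1], by linarith [(abs_le.1 ha).2]⟩

theorem joined_ch {p p' : ℕ} {w : F g} (h : Ch p w p') (hp : p ≤ 4 * g) (y : F g) :
    JoinedIn (dE g) ((X g).s y (pr g p 0)) ((X g).s (y * w) (pr g p' 0)) := by
  induction h generalizing y with
  | nil p => rw [mul_one]; exact joined_gap y hp (by norm_num)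
  | @cons p p' l x hl _ ih =>
    have e : (pos l : ℝ) = p + 1 := by exact_mod_cast hl
    have a := joined_gap y hp (a := pos l - 1 + 1 / 4) (by rw [e, abs_le]; constructor <;> linarith)
    have b := joined_gap (y * L l) (pos_le (linv l)) (a := pos (linv l) - 1 / 4)
      (by rw [abs_le]; constructor <;> linarith)
    rw [s_arc y l le_rfl (by norm_num)] at a
    rw [← mul_assoc]
    exact (a.trans b.symm).trans (ih (pos_le _) _)

theorem joined_zt (y : F g) : JoinedIn (dE g) (bp y) (bp (y * zt g)) := by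
  have h := joined_ch (ch_gam0 (le_refl g)) (Nat.zero_le _) y
  push_cast at h
  exact ((joined_out y (Or.inl (Top.pr_x _ le_rfl (Top.g4 g)))).trans h).trans
    (joined_out _ (Or.inr (Or.inl (Top.pr_x _ (Top.g4 g) le_rfl)))).symm

end Pool.Agent.Lib.MP_294da1_gt.Br
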