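import Pool.Agent.Lib.MP_294da1_gt.Br.Simple

/-! Twists exist; a curve with nontrivial class bounds no disk. -/

set_option autoImplicit false

namespace Pool.Agent.Lib.MP_294da1_gt.Br

open Pool.Agent.Lib.MP_a47850_al Pool.Agent.Lib.MP_a47850_al.Mcg Set Filter Topology

variable {g : ℕ}

variable {φ : ℂ → Surf g} {σ : ℂ → E g} {h : F g}

/-- the shear of the annulus by the profile `c`, extended by the identity -/
theorem nva_shear (A : Ann g φ) {c : ℝ → ℝ} (hc : Continuous c)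
    (h0 : ∀ t, t ∉ Icc (0 : ℝ) 1 → ∃ k : ℤ, c t = k) : ∃ f : Surf g → Surf g, Continuous f ∧
      (∀ q, f (φ q) = φ (q + (c q.im : ℝ))) ∧ ∀ x ∉ range φ, f x = x := by
  classical
  obtain ⟨cφ, oφ, eφ, -, -⟩ := A
  let f : Surf g → Surf g := fun x =>
    if hx : x ∈ range φ then φ (hx.choose + (c hx.choose.im : ℝ)) else x
  have f1 : ∀ q, f (φ q) = φ (q + (c q.im : ℝ)) := fun q => by
    have hx : φ q ∈ range φ := ⟨q, rfl⟩
    obtain ⟨k, hk⟩ := (eφ _ _).1 hx.choose_spec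
    have hi : q.im = hx.choose.im := (congrArg Complex.im hk).trans (by simp)
    show dite _ _ _ = _
    rw [dif_pos hx, eφ]
    exact ⟨k, by rw [← hi]; linear_combination hk⟩
  have f2 : ∀ x ∉ range φ, f x = x := fun x hx => dif_neg hx
  refine ⟨f, continuous_iff_continuousAt.2 fun x => ?_, f1, f2⟩
  by_cases hx : x ∈ range φ
  · obtain ⟨q, rfl⟩ := hx
    have h1 : Continuous fun q : ℂ => φ (q + (c q.im : ℝ)) := by fun_prop
    have h2 : ContinuousAt (f ∘ φ) q := by
      rw [show f ∘ φ = fun q : ℂ => φ (q + (c q.im : ℝ)) from funext f1]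
      exact h1.continuousAt
    show Tendsto f (𝓝 (φ q)) (𝓝 (f (φ q)))
    rw [← oφ.map_nhds_eq cφ.continuousAt]
    exact h2
  · have hK : IsCompact (φ '' (Icc (0 : ℝ) 1 ×ℂ Icc (0 : ℝ) 1)) :=
      (isCompact_Icc.reProdIm isCompact_Icc).image cφ
    have hn : (φ '' (Icc (0 : ℝ) 1 ×ℂ Icc (0 : ℝ) 1))ᶜ ∈ 𝓝 x :=
      hK.isClosed.isOpen_compl.mem_nhds fun ⟨q, _, e⟩ => hx ⟨q, e⟩
    refine continuousAt_id.congr (mem_of_superset hn fun y hy => ?_)
    show y = f y
    by_cases hy' : y ∈ range φ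
    · obtain ⟨q, rfl⟩ := hy'
      have hq : q.im ∉ Icc (0 : ℝ) 1 := fun hq => hy ⟨q - (⌊q.re⌋ : ℤ), by
        refine ⟨?_, by simpa using hq⟩
        have e : (q - (⌊q.re⌋ : ℤ)).re = Int.fract q.re := by
          rw [Int.fract]; simp only [Complex.sub_re, Complex.intCast_re]
        show (q - (⌊q.re⌋ : ℤ)).re ∈ Icc (0 : ℝ) 1
        rw [e]
        exact ⟨Int.fract_nonneg _, (Int.fract_lt_one _).le⟩, (eφ _ _).2 ⟨⌊q.re⌋, by ring⟩⟩
      obtain ⟨k, hk⟩ := h0 _ hq
      rw [f1, eφ]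
      exact ⟨k, by rw [hk]; simp⟩
    · exact (f2 y hy').symm

theorem exists_tw (A : Ann g φ) : ∃ T, Tw g φ T := by
  have hk : ∀ t, t ∉ Icc (0 : ℝ) 1 → ∃ k : ℤ, max 0 (min 1 t) = (k : ℝ) := fun t ht => by
    rcases lt_or_ge t 0 with h | h
    · exact ⟨0, by rw [Int.cast_zero]; exact max_eq_left ((min_le_right _ _).trans h.le)⟩
    · have h1 : 1 ≤ t := le_of_not_ge fun h1 => ht ⟨h, h1⟩
      exact ⟨1, by rw [min_eq_left h1]; simp⟩
  obtain ⟨f, cf, f1, f2⟩ := nva_shear A (c := fun t => max 0 (min 1 t)) (by fun_prop) hk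
  obtain ⟨f', cf', f1', f2'⟩ := nva_shear A (c := fun t => -max 0 (min 1 t)) (by fun_prop)
    fun t ht => by
      obtain ⟨k, e⟩ := hk t ht
      exact ⟨-k, by rw [e, Int.cast_neg]⟩
  have l1 : Function.LeftInverse f' f := fun x => by
    by_cases hx : x ∈ range φ
    · obtain ⟨q, rfl⟩ := hx
      rw [f1, f1']
      congr 1
      simp
    · rw [f2 x hx, f2' x hx]
  have l2 : Function.RightInverse f' f := fun x => by
    by_cases hx : x ∈ range φ
    · obtain ⟨q, rfl⟩ := hx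
      rw [f1', f1]
      congr 1
      simp
    · rw [f2' x hx, f2 x hx]
  let T : Surf g ≃ₜ Surf g := ⟨⟨f, f', l1, l2⟩, cf, cf'⟩
  exact ⟨⟨T, fun z hz => f2 _ fun ⟨p, e⟩ => A.2.2.2.1 p z hz e⟩, f1, f2⟩

theorem not_disk (L : Lf φ σ h) (h1 : h ≠ 1) : ¬ Disk g (core g φ) := by
  rintro ⟨D, cD, iD, eD⟩
  let K : Set ℂ := Metric.closedBall 0 1
  have hv : Convex ℝ K := convex_closedBall _ _
  have : CompactSpace K := isCompact_iff_compactSpace.1 (isCompact_closedBall _ _)
  have : ContractibleSpace K := hv.contractibleSpace ⟨0, Metric.mem_closedBall_self zero_le_one⟩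
  have : LocallyPathConnectedSpace K := hv.locallyPathConnectedSpace
  have cD' : Continuous (K.domRestrict D) := continuousOn_iff_continuous_domRestrict.1 cD
  have iD' : Function.Injective (K.domRestrict D) := iD.injective
  let z : K := ⟨0, Metric.mem_closedBall_self zero_le_one⟩
  obtain ⟨w, hw⟩ := (X g).quo.surjective (K.domRestrict D z)
  obtain ⟨a, ca, la, -⟩ := exists_lift cD' z (e := (X g).s 1 w) hw
  have hθ : ∀ t, ∃ y : K, K.domRestrict D y = core g φ t := fun t => by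
    obtain ⟨y, hy, e⟩ : core g φ t ∈ D '' Metric.sphere 0 1 := eD ▸ mem_range_self t
    exact ⟨⟨y, Metric.sphere_subset_closedBall hy⟩, e⟩
  choose θ hθ using hθ
  have cc : Continuous (core g φ) := by
    have e : core g φ = fun t : ℝ => φ (t + (1 / 2 : ℝ) * Complex.I) := funext fun t =>
      congrArg φ (Complex.ext (by simp) (by simp))
    have := L.ann.1
    rw [e]
    fun_prop
  have cθ : Continuous θ := (cD'.isClosedEmbedding iD').isInducing.continuous_iff.2
    (cc.congr fun t => (hθ t).symm)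
  have c1 : Cls (core g φ) (1 : F g) := ⟨fun t => a (θ t), ca.comp cθ,
    fun t => (la _).trans (hθ t), fun t => by
      rw [one_smul]
      refine congrArg a (iD' ?_)
      rw [hθ, hθ]
      exact ((L.ann.2.2.1 _ _).2 ⟨1, Complex.ext (by simp) (by simp)⟩).symm⟩
  obtain ⟨γ, e⟩ := c1.conj L.cls
  exact h1 (by rw [e, mul_one, mul_inv_cancel])

end Pool.Agent.Lib.MP_294da1_gt.Br
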