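import Pool.Agent.Lib.MP_294da1_gt.Br.NvZb

/-! An annulus parallel to the boundary. -/

set_option autoImplicit false

namespace Pool.Agent.Lib.MP_294da1_gt.Br

open Pool.Agent.Lib.MP_a47850_al Pool.Agent.Lib.MP_a47850_al.Mcg Set Filter Topology _root_.Real

variable {g : ℕ}

/-- centre -/
noncomputable def nvzC (g n : ℕ) : ℝ := if n = 0 then 2 * g else n

/-- sense of rotation -/
noncomputable def nvzE (n : ℕ) : ℝ := if n = 0 then 1 else -1

/-- radius -/
noncomputable def nvzR (g n : ℕ) (R : ℝ) : ℝ := if n = 0 then 2 * g - R else R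

/-- first coordinate -/
noncomputable def nvzX (g n : ℕ) (t R : ℝ) : ℝ := nvzC g n + nvzE n * nvzR g n R * cos (π * t)

/-- second coordinate -/
noncomputable def nvzY (g n : ℕ) (t R : ℝ) : ℝ := nvzR g n R * sin (π * t)

/-- distance from the centre -/
noncomputable def nvzD (g n : ℕ) (z : Sq g) : ℝ := √((z.1.1 - nvzC g n) ^ 2 + z.1.2 ^ 2)

/-- angle -/
noncomputable def nvzT (g n : ℕ) (z : Sq g) : ℝ :=
  arccos (nvzE n * (z.1.1 - nvzC g n) / nvzD g n z) / π

theorem nvz_EE (n : ℕ) : nvzE n * nvzE n = 1 := by unfold nvzE; split_ifs <;> norm_num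

theorem nvz_RR (n : ℕ) (R : ℝ) : nvzR g n (nvzR g n R) = R := by
  unfold nvzR; split_ifs <;> ring

theorem nvz_Rpos (hg : 0 < g) (n : ℕ) {R : ℝ} (h0 : 0 < R) (h1 : R < 1) : 0 < nvzR g n R := by
  have g1 : (1 : ℝ) ≤ g := by exact_mod_cast hg
  unfold nvzR; split_ifs <;> linarith

theorem nvz_cR (n : ℕ) : Continuous (nvzR g n) := by
  unfold nvzR; split_ifs <;> fun_prop

theorem nvz_X0 (n : ℕ) (R : ℝ) : nvzX g n 0 R = nvzS g n - R ∧ nvzY g n 0 R = 0 ∧
    nvzX g n 1 R = n + R ∧ nvzY g n 1 R = 0 := by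
  unfold nvzX nvzY nvzC nvzE nvzR nvzS
  split_ifs with e
  · subst e; simp; ring
  · simp; ring

theorem nvz_co (hg : 0 < g) {n : ℕ} (hn : n < 4 * g) {t R : ℝ} (t0 : 0 ≤ t) (t1 : t ≤ 1)
    (h0 : 0 < R) (h1 : R < 1) : 0 < nvzX g n t R ∧ nvzX g n t R < 4 * g ∧ 0 ≤ nvzY g n t R ∧
      nvzY g n t R < 4 * g := by
  have g1 : (1 : ℝ) ≤ g := by exact_mod_cast hg
  have c1 := neg_one_le_cos (π * t)
  have c2 := cos_le_one (π * t)
  have s1 : 0 ≤ sin (π * t) := sin_nonneg_of_nonneg_of_le_pi (by positivity)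
    (by nlinarith [pi_pos])
  have s2 := sin_le_one (π * t)
  unfold nvzX nvzY nvzC nvzE nvzR
  split_ifs with e
  · refine ⟨?_, ?_, ?_, ?_⟩ <;> nlinarith
  · have a : (1 : ℝ) ≤ n := by exact_mod_cast Nat.pos_of_ne_zero e
    have b := Top.cast_le hn
    refine ⟨?_, ?_, ?_, ?_⟩ <;> nlinarith

/-- the point of the half annulus -/
noncomputable def nvzP (g n : ℕ) (t R : ℝ) : Sq g := pr g (nvzX g n t R) (nvzY g n t R)

theorem nvz_P (hg : 0 < g) {n : ℕ} (hn : n < 4 * g) {t R : ℝ} (t0 : 0 ≤ t) (t1 : t ≤ 1)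
    (h0 : 0 < R) (h1 : R < 1) :
    (nvzP g n t R).1.1 = nvzX g n t R ∧ (nvzP g n t R).1.2 = nvzY g n t R := by
  obtain ⟨a, b, c, d⟩ := nvz_co hg hn t0 t1 h0 h1
  exact ⟨Top.pr_x _ a.le b.le, Top.pr_y _ c d.le⟩

theorem nvz_left (hg : 0 < g) {n : ℕ} (hn : n < 4 * g) {t R : ℝ} (t0 : 0 ≤ t) (t1 : t ≤ 1)
    (h0 : 0 < R) (h1 : R < 1) :
    nvzR g n (nvzD g n (nvzP g n t R)) = R ∧ nvzT g n (nvzP g n t R) = t := by
  obtain ⟨a, b⟩ := nvz_P hg hn t0 t1 h0 h1
  have r := nvz_Rpos hg n h0 h1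
  have e := nvz_EE n
  have d : nvzD g n (nvzP g n t R) = nvzR g n R := by
    rw [nvzD, a, b, sqrt_eq_iff_mul_self_eq (by positivity) r.le, nvzX, nvzY]
    have := cos_sq_add_sin_sq (π * t)
    linear_combination (nvzR g n R) ^ 2 * this + (nvzR g n R * cos (π * t)) ^ 2 * e
  refine ⟨by rw [d, nvz_RR], ?_⟩
  rw [nvzT, d, a, nvzX, show nvzE n * (nvzC g n + nvzE n * nvzR g n R * cos (π * t) - nvzC g n) /
    nvzR g n R = cos (π * t) by
      rw [div_eq_iff r.ne']; linear_combination (nvzR g n R * cos (π * t)) * e,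
    arccos_cos (by positivity) (by nlinarith [pi_pos])]
  exact mul_div_cancel_left₀ _ pi_ne_zero

theorem nvz_right {n : ℕ} {z : Sq g} (h : 0 < nvzD g n z) : 0 ≤ nvzT g n z ∧ nvzT g n z ≤ 1 ∧
    nvzP g n (nvzT g n z) (nvzR g n (nvzD g n z)) = z := by
  have e := nvz_EE n
  have d : nvzD g n z ^ 2 = (z.1.1 - nvzC g n) ^ 2 + z.1.2 ^ 2 := sq_sqrt (by positivity)
  set u := nvzE n * (z.1.1 - nvzC g n) / nvzD g n z with hu
  have u1 : u * nvzD g n z = nvzE n * (z.1.1 - nvzC g n) := div_mul_cancel₀ _ h.ne'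
  have u2 : (1 - u ^ 2) * nvzD g n z ^ 2 = z.1.2 ^ 2 := by
    linear_combination d - (u * nvzD g n z + nvzE n * (z.1.1 - nvzC g n)) * u1 -
      (z.1.1 - nvzC g n) ^ 2 * e
  have u3 : 0 ≤ 1 - u ^ 2 := by
    by_contra k
    nlinarith [mul_pos (neg_pos.2 (not_le.1 k)) (pow_pos h 2), sq_nonneg z.1.2]
  have u4 := abs_le.1 ((sq_le_one_iff_abs_le_one u).1 (by linarith))
  have t : π * nvzT g n z = arccos u := mul_div_cancel₀ _ pi_ne_zero
  refine ⟨div_nonneg (arccos_nonneg _) pi_pos.le, (div_le_one pi_pos).2 (arccos_le_pi _),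
    (Top.eq_pr ?_ ?_).symm⟩
  · rw [nvzX, nvz_RR, t, cos_arccos u4.1 u4.2]
    linear_combination (-nvzE n) * u1 - (z.1.1 - nvzC g n) * e
  · rw [nvzY, nvz_RR, t, sin_arccos]
    refine (pow_left_inj₀ z.2.2.1 (by positivity) two_ne_zero).1 ?_
    rw [mul_pow, sq_sqrt u3, ← u2]; ring

theorem nvz_disj {n n' : ℕ} (hn : n < 4 * g) (hn' : n' < 4 * g) {z : Sq g}
    (h : nvzR g n (nvzD g n z) < 1 / 2) (h' : nvzR g n' (nvzD g n' z) < 1 / 2) : n = n' := by
  have k : ∀ n, |z.1.1 - nvzC g n| ≤ nvzD g n z := fun n =>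
    abs_le_sqrt (by nlinarith [sq_nonneg z.1.2])
  have key : ∀ n < 4 * g, n ≠ 0 → nvzR g 0 (nvzD g 0 z) < 1 / 2 → nvzR g n (nvzD g n z) < 1 / 2 →
      False := by
    intro n hn e a b
    have n1 : (1 : ℝ) ≤ n := by exact_mod_cast Nat.pos_of_ne_zero e
    have n2 := Top.cast_le hn
    have k1 := abs_le.1 (k n)
    simp only [nvzR, nvzD, nvzC, if_true, if_neg e] at a b k1
    have b1 := (sqrt_lt' (by norm_num)).1 b
    have a1 : 2 * g - 1 / 2 < √((z.1.1 - 2 * g) ^ 2 + z.1.2 ^ 2) := by linarith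
    have a2 := (lt_sqrt (by linarith)).1 a1
    nlinarith [mul_nonneg (sub_nonneg.2 n1) (sub_nonneg.2 n2), abs_le.1 (k n),
      mul_nonneg (show 0 ≤ 2 * g - 1 - (n - 2 * g : ℝ) by linarith)
        (show 0 ≤ 1 / 2 + (z.1.1 - n) by linarith),
      mul_nonneg (show 0 ≤ 2 * g - 1 + (n - 2 * g : ℝ) by linarith)
        (show 0 ≤ 1 / 2 - (z.1.1 - n) by linarith)]
  by_cases e : n = 0 <;> by_cases e' : n' = 0
  · rw [e, e']
  · subst e; exact (key n' hn' e' h h').elim
  · subst e'; exact (key n hn e h' h).elim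
  · have a := abs_le.1 (k n)
    have b := abs_le.1 (k n')
    simp only [nvzR, nvzC, if_neg e, if_neg e'] at a b h h'
    have i : (n : ℝ) < (n' + 1 : ℕ) := by push_cast; linarith
    have j : (n' : ℝ) < (n + 1 : ℕ) := by push_cast; linarith
    have := Nat.cast_lt.1 i
    have := Nat.cast_lt.1 j
    omega

theorem nvz_y0 (hg : 0 < g) (n : ℕ) {t R : ℝ} (t0 : 0 ≤ t) (t1 : t < 1) (h0 : 0 < R)
    (h1 : R < 1) (h : nvzY g n t R = 0) : t = 0 := by
  by_contra k
  have : 0 < sin (π * t) := sin_pos_of_pos_of_lt_pi (mul_pos pi_pos (t0.lt_of_ne' k))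
    (by nlinarith [pi_pos])
  exact (mul_pos (nvz_Rpos hg n h0 h1) this).ne' h

theorem nvz_cx (hg : 0 < g) {n : ℕ} (hn : n < 4 * g) {t R : ℝ} (t0 : 0 ≤ t) (t1 : t ≤ 1)
    (h0 : 0 < R) (h1 : R < 1) : cx g (nvzP g n t R) = nvzC g n + nvzE n * Complex.exp
      (nvzE n * π * Complex.I * (⟨t, -nvzE n * log (nvzR g n R) / π⟩ : ℂ)) := by
  obtain ⟨a, b⟩ := nvz_P hg hn t0 t1 h0 h1
  have r := exp_log (nvz_Rpos hg n h0 h1)
  have e := nvz_EE n
  have k : (nvzE n * π * Complex.I * (⟨t, -nvzE n * log (nvzR g n R) / π⟩ : ℂ)) =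
      ⟨log (nvzR g n R), nvzE n * (π * t)⟩ := by
    apply Complex.ext
    · simp; field_simp; linear_combination log (nvzR g n R) * e
    · simp; ring
  rw [k]
  apply Complex.ext <;> simp only [cx, a, b, nvzX, nvzY, Complex.add_re, Complex.add_im,
    Complex.ofReal_re, Complex.ofReal_im, Complex.re_ofReal_mul, Complex.im_ofReal_mul,
    Complex.exp_re, Complex.exp_im, r] <;> unfold nvzE <;> split_ifs <;> simp

theorem exists_par (hg : 0 < g) : ∃ φ, Ann g φ ∧ Par g (core g φ) := by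
  obtain ⟨N, N1, N2, N3, N4⟩ := nvz_idx hg
  obtain ⟨x, y, cx', cy', d0, d1, d2, d3⟩ := nvz_D hg
  have g4 : (0 : ℝ) < 4 * g := by positivity
  set ρ : ℝ → ℝ := fun s => 3 / 8 + arctan s / (4 * π) with hρ
  have ρ1 : ∀ s, 1 / 4 < ρ s ∧ ρ s < 1 / 2 := fun s => by
    have a : -(1 / 8) < arctan s / (4 * π) :=
      (lt_div_iff₀ (by positivity)).2 (by linarith [neg_pi_div_two_lt_arctan s])
    have b : arctan s / (4 * π) < 1 / 8 :=
      (div_lt_iff₀ (by positivity)).2 (by linarith [arctan_lt_pi_div_two s])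
    constructor <;> simp only [hρ] <;> linarith
  have ρ0 : ∀ s, 0 < ρ s := fun s => by linarith [(ρ1 s).1]
  have ρ2 : ∀ s, ρ s < 1 := fun s => by linarith [(ρ1 s).2]
  have ρm : StrictMono ρ := fun a b h => by
    simp only [hρ]
    linarith [div_lt_div_of_pos_right (arctan_strictMono h) (show 0 < 4 * π by positivity)]
  have ρc : Continuous ρ := by simp only [hρ]; fun_prop
  have ρi : ∀ R, 1 / 4 < R → R < 1 / 2 → ρ (tan (4 * π * (R - 3 / 8))) = R := fun R a b => by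
    simp only [hρ]
    rw [arctan_tan (by nlinarith [pi_pos]) (by nlinarith [pi_pos])]
    field_simp; ring
  have cX : ∀ n, Continuous fun p : ℝ × ℝ => nvzX g n p.1 p.2 := fun n => by
    have := nvz_cR (g := g) n
    unfold nvzX; fun_prop
  have cY : ∀ n, Continuous fun p : ℝ × ℝ => nvzY g n p.1 p.2 := fun n => by
    have := nvz_cR (g := g) n
    unfold nvzY; fun_prop
  have cpt : Continuous (pt g) := (X g).q.continuous
  let f : ℤ → ℝ → ℝ → Surf g := fun k t s => pt g (nvzP g (N k) t (ρ s))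
  have fm : ∀ k s, f k 1 s = f (k + 1) 0 s := fun k s => by
    simp only [f, nvzP, nvz_X0]
    exact N4 k _ (ρ1 s).1.le (by linarith [(ρ1 s).2])
  have fc : Continuous fun p : ℝ × ℝ => nvzG f p.1 p.2 := nvz_cont fm fun k =>
    cpt.comp (cont_pr g ((cX _).comp (f := fun p : ℝ × ℝ => (p.1, ρ p.2)) (by fun_prop))
      ((cY _).comp (f := fun p : ℝ × ℝ => (p.1, ρ p.2)) (by fun_prop)))
  have per : ∀ {Y : Type} (F : ℕ → ℝ → Y → Surf g) (t : ℝ) (k : ℤ) (s : Y),
      nvzG (fun k => F (N k)) (4 * g * (t + k)) s = nvzG (fun k => F (N k)) (4 * g * t) s := by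
    intro Y F t k s
    rw [show 4 * (g : ℝ) * (t + k) = 4 * g * t + ((4 * g * k : ℤ) : ℝ) by push_cast; ring]
    simp only [nvzG, Int.floor_add_intCast, Int.fract_add_intCast,
      ← (N2 ⌊4 * (g : ℝ) * t⌋ _).2 ⟨k, rfl⟩]
  have inj : ∀ s t : ℝ, N ⌊4 * g * s⌋ = N ⌊4 * g * t⌋ → Int.fract (4 * g * s) =
      Int.fract (4 * g * t) → ∃ k : ℤ, t = s + k := fun s t a b => by
    obtain ⟨k, hk⟩ := (N2 _ _).1 a
    refine ⟨k, mul_left_cancel₀ g4.ne' ?_⟩
    have := congrArg (Int.cast : ℤ → ℝ) hk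
    push_cast at this
    simp only [Int.fract] at b
    linarith
  have fib : ∀ k t s z, 0 ≤ t → t < 1 → pt g z = f k t s → z = nvzP g (N k) t (ρ s) ∨
      (t = 0 ∧ z = nvzP g (N (k - 1)) 1 (ρ s)) := fun k t s z t0 t1 h => by
    by_cases e : t = 0
    · subst e
      have := fm (k - 1) s
      rw [sub_add_cancel] at this
      refine (nvz_two h this.symm fun e1 => ?_).imp_right fun e1 => ⟨rfl, e1⟩
      have e2 := congrArg (·.1.1) e1
      simp only [(nvz_P hg (N1 _) le_rfl zero_le_one (ρ0 s) (ρ2 s)).1,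
        (nvz_P hg (N1 _) zero_le_one le_rfl (ρ0 s) (ρ2 s)).1, nvz_X0] at e2
      exact nvz_int (a := nvzS g (N k)) (b := N (k - 1)) (x := 2 * ρ s) (lo := 0) (hi := 1)
        (by push_cast; linarith) (by linarith [ρ0 s]) (by linarith [(ρ1 s).2]) 0 (by simp)
        (by simp)
    · refine Or.inl (pt_in (lt_of_le_of_ne (nvzP g (N k) t (ρ s)).2.2.1 fun e1 => e ?_) h.symm).symm
      rw [(nvz_P hg (N1 _) t0 t1.le (ρ0 s) (ρ2 s)).2] at e1
      exact nvz_y0 hg _ t0 t1 (ρ0 s) (ρ2 s) e1.symm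
  have f0 := fun t : ℝ => Int.fract_nonneg t
  have f1 := fun t : ℝ => Int.fract_lt_one t
  refine ⟨fun q => nvzG f (4 * g * q.re) q.im, ⟨fc.comp (f := fun q : ℂ => (4 * g * q.re, q.im))
    (by fun_prop), fun U hU => ?_, fun p q => ⟨fun h => ?_, ?_⟩, fun p z hz h => ?_,
    fun p z h hz => ?_⟩, ?_⟩
  · refine (X g).quo.isOpen_preimage.1 ?_
    let ψ : ℤ → Sq g → ℂ := fun k z => ⟨(k + nvzT g (N k) z) / (4 * g),
      tan (4 * π * (nvzR g (N k) (nvzD g (N k) z) - 3 / 8))⟩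
    let A : ℤ → Set (Sq g) := fun k =>
      {z | 1 / 4 < nvzR g (N k) (nvzD g (N k) z) ∧ nvzR g (N k) (nvzD g (N k) z) < 1 / 2}
    have cD : ∀ n, Continuous (nvzD g n) := fun n => by unfold nvzD; fun_prop
    have D0 : ∀ k, ∀ z ∈ A k, 0 < nvzD g (N k) z := fun k z hz => by
      have := nvz_Rpos hg (N k) (R := nvzR g (N k) (nvzD g (N k) z)) (by linarith [hz.1])
        (by linarith [hz.2])
      rwa [nvz_RR] at this
    have : (X g).q ⁻¹' ((fun q : ℂ => nvzG f (4 * g * q.re) q.im) '' U) =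
        ⋃ k, A k ∩ ψ k ⁻¹' U := by
      ext z
      simp only [mem_preimage, mem_image, mem_iUnion, mem_inter_iff]
      constructor
      · rintro ⟨q, hq, h⟩
        have back : ∀ (k : ℤ) t, 0 ≤ t → t ≤ 1 → 4 * g * q.re = k + t →
            nvzP g (N k) t (ρ q.im) ∈ A k ∧ ψ k (nvzP g (N k) t (ρ q.im)) ∈ U := by
          intro k t t0 t1 e
          obtain ⟨a, b⟩ := nvz_left hg (N1 k) t0 t1 (ρ0 q.im) (ρ2 q.im)
          refine ⟨by simp only [A, mem_ofPred_eq, a]; exact ρ1 q.im, ?_⟩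
          convert hq using 1
          apply Complex.ext
          · simp only [ψ, b, ← e]; exact mul_div_cancel_left₀ _ g4.ne'
          · simp only [ψ, a]; exact ρm.injective (ρi _ (ρ1 _).1 (ρ1 _).2)
        rcases fib ⌊4 * g * q.re⌋ (Int.fract (4 * g * q.re)) q.im z (f0 _) (f1 _) h.symm
          with rfl | ⟨e, rfl⟩
        · exact ⟨_, back _ _ (f0 _) (f1 _).le (Int.floor_add_fract _).symm⟩
        · exact ⟨_, back _ _ zero_le_one le_rfl (by
            have := Int.floor_add_fract (4 * g * q.re)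
            push_cast; linarith)⟩
      · rintro ⟨k, a, b⟩
        obtain ⟨t0, t1, e⟩ := nvz_right (D0 k z a)
        have e1 : 4 * g * (ψ k z).re = k + nvzT g (N k) z := mul_div_cancel₀ _ g4.ne'
        refine ⟨_, b, ?_⟩
        rw [e1, nvz_on fm (k := k) (by linarith) (by linarith), add_sub_cancel_left]
        simp only [f, ψ, ρi _ a.1 a.2, e]
        rfl
    rw [this]
    refine isOpen_iUnion fun k => ContinuousOn.isOpen_inter_preimage ?_ ?_ hU
    · have e : ψ k = fun z => Complex.equivRealProdCLM.symm ((k + nvzT g (N k) z) / (4 * g),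
          tan (4 * π * (nvzR g (N k) (nvzD g (N k) z) - 3 / 8))) := by
        funext z; apply Complex.ext <;> simp [ψ]
      rw [e]
      refine Complex.equivRealProdCLM.symm.continuous.comp_continuousOn (ContinuousOn.prodMk ?_ ?_)
      · refine (continuousOn_const.add (ContinuousOn.div_const
          (continuous_arccos.comp_continuousOn ?_) _)).div_const _
        exact ContinuousOn.div (by fun_prop) (cD _).continuousOn fun z hz => (D0 k z hz).ne'
      · refine continuousOn_tan_Ioo.comp ?_ fun z hz =>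
          ⟨by nlinarith [pi_pos, hz.1], by nlinarith [pi_pos, hz.2]⟩
        have := (nvz_cR (g := g) (N k)).comp (cD (N k))
        exact (continuous_const.mul (this.sub continuous_const)).continuousOn
    · have := (nvz_cR (g := g) (N k)).comp (cD (N k))
      exact (isOpen_lt continuous_const this).inter (isOpen_lt this continuous_const)
  · obtain ⟨a, b⟩ := nvz_left hg (N1 ⌊4 * g * p.re⌋) (f0 (4 * g * p.re)) (f1 _).le (ρ0 p.im)
      (ρ2 _)
    rcases fib ⌊4 * g * q.re⌋ (Int.fract (4 * g * q.re)) q.im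
      (nvzP g (N ⌊4 * g * p.re⌋) (Int.fract (4 * g * p.re)) (ρ p.im)) (f0 _) (f1 _) h with e | ⟨-, e⟩
    · obtain ⟨c, d⟩ := nvz_left hg (N1 ⌊4 * g * q.re⌋) (f0 (4 * g * q.re)) (f1 _).le (ρ0 q.im)
        (ρ2 _)
      have n := nvz_disj (N1 _) (N1 _) (a.trans_lt (ρ1 _).2) (e ▸ c.trans_lt (ρ1 _).2)
      rw [← e, ← n] at c d
      obtain ⟨k, hk⟩ := inj _ _ n (b.symm.trans d)
      exact ⟨k, Complex.ext (by simpa using hk) (by simpa using ρm.injective (c.symm.trans a))⟩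
    · obtain ⟨c, d⟩ := nvz_left hg (N1 (⌊4 * g * q.re⌋ - 1)) zero_le_one le_rfl (ρ0 q.im) (ρ2 _)
      have n := nvz_disj (N1 _) (N1 _) (a.trans_lt (ρ1 _).2) (e ▸ c.trans_lt (ρ1 _).2)
      rw [← e, ← n] at d
      exact absurd (b.symm.trans d) (f1 _).ne
  · rintro ⟨k, rfl⟩
    simpa using (per (fun n t s => pt g (nvzP g n t (ρ s))) p.re k p.im).symm
  · have bd : ∀ n < 4 * g, ∀ t, 0 ≤ t → t ≤ 1 → nvzP g n t (ρ p.im) ∉ Bd g := by
      intro n hn t t0 t1 k
      obtain ⟨a, b⟩ := nvz_P hg hn t0 t1 (ρ0 p.im) (ρ2 _)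
      obtain ⟨c1, c2, c3, c4⟩ := nvz_co hg hn t0 t1 (ρ0 p.im) (ρ2 _)
      have r := ρ1 p.im
      simp only [Bd, mem_ofPred_eq, a, b] at k
      rcases k with k | k | k | ⟨k, l⟩
      · linarith
      · linarith
      · linarith
      rcases t1.lt_or_eq with e | rfl
      · obtain rfl := nvz_y0 hg n t0 e (ρ0 _) (ρ2 _) k
        obtain ⟨m, hm⟩ : ∃ m, nvzS g n = m + 1 :=
          ⟨nvzS g n - 1, by unfold nvzS; split_ifs <;> omega⟩
        have := l m
        rw [(nvz_X0 n _).1, hm] at this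
        push_cast at this
        rcases this with i | i <;> linarith
      · have := l n
        rw [(nvz_X0 n _).2.2.1] at this
        rcases this with i | i <;> linarith
    rcases fib ⌊4 * g * p.re⌋ (Int.fract (4 * g * p.re)) p.im z (f0 _) (f1 _) h.symm
      with rfl | ⟨-, rfl⟩
    · exact bd _ (N1 _) _ (f0 _) (f1 _).le hz
    · exact bd _ (N1 _) _ zero_le_one le_rfl hz
  · set k := ⌊4 * g * p.re⌋ with hk
    obtain rfl : z = nvzP g (N k) (4 * g * p.re - k) (ρ p.im) := pt_in hz h.symm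
    have t0 : 0 ≤ 4 * g * p.re - k := f0 _
    have t1 : 4 * g * p.re - k < 1 := f1 _
    have t2 : 0 < 4 * g * p.re - k := t0.lt_of_ne fun e => by
      rw [(nvz_P hg (N1 k) t0 t1.le (ρ0 _) (ρ2 _)).2, ← e, (nvz_X0 _ (ρ p.im)).2.1] at hz
      exact lt_irrefl _ hz
    have E0 : (nvzE (N k) : ℂ) ≠ 0 := by
      exact_mod_cast left_ne_zero_of_mul_eq_one (nvz_EE (N k))
    have cr := (nvz_cR (g := g) (N k)).comp ρc
    obtain ⟨r, hr, l, cl, hl⟩ := nvz_deg (κ := nvzE (N k) * π * Complex.I) E0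
      (mul_ne_zero (mul_ne_zero E0 (by exact_mod_cast pi_ne_zero)) Complex.I_ne_zero) g4
      (β := -k) (m := fun s => -nvzE (N k) * log (nvzR g (N k) (ρ s)) / π) (fun a b hab => by
        refine div_lt_div_of_pos_right ?_ pi_pos
        have i := nvz_Rpos hg (N k) (ρ0 a) (ρ2 a)
        have j := nvz_Rpos hg (N k) (ρ0 b) (ρ2 b)
        have := ρm hab
        unfold nvzE nvzR at *
        split_ifs at *
        · linarith [log_lt_log j (show 2 * g - ρ b < 2 * g - ρ a by linarith)]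
        · linarith [log_lt_log i this])
      ((continuous_const.mul (cr.log fun s => (nvz_Rpos hg _ (ρ0 s) (ρ2 s)).ne')).div_const _) p
    obtain ⟨r', hr', hb⟩ := Metric.isOpen_iff.1 (IsOpen.and
      (isOpen_lt (f := fun _ : ℂ => (0 : ℝ)) (g := fun q => 4 * g * q.re - k) continuous_const
        (by fun_prop))
      (isOpen_lt (f := fun q : ℂ => 4 * g * q.re - k) (g := fun _ => (1 : ℝ)) (by fun_prop)
        continuous_const)) p ⟨t2, t1⟩
    have s1 : Metric.ball p (min r r') \ {p} ⊆ Metric.ball p r \ {p} :=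
      sdiff_subset_sdiff_left (Metric.ball_subset_ball (min_le_left _ _))
    refine ⟨min r r', lt_min hr hr', fun q => nvzP g (N k) (4 * g * q.re - k) (ρ q.im), l,
      cl.mono s1, fun q hq => ?_⟩
    obtain ⟨a, b⟩ := hb (Metric.ball_subset_ball (min_le_right _ _) hq.1)
    refine ⟨nvz_on fm (by linarith) (by linarith) _, ?_⟩
    rw [nvz_cx hg (N1 k) a.le b.le (ρ0 _) (ρ2 _), nvz_cx hg (N1 k) t0 t1.le (ρ0 _) (ρ2 _),
      ← hl q (s1 hq), add_sub_add_left_eq_sub]
    rfl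
  · let c : ℝ → ℝ := fun s => max 0 (min 1 s)
    let F : ℕ → ℝ → ℝ → Surf g := fun n t s =>
      pt g (pr g ((1 - c s) * nvzX g n t (ρ (1 / 2)) + c s * x n t)
        ((1 - c s) * nvzY g n t (ρ (1 / 2)) + c s * y n t))
    have Fm : ∀ k s, F (N k) 1 s = F (N (k + 1)) 0 s := fun k s => by
      have c0 : 0 ≤ c s := le_max_left _ _
      have c1 : c s ≤ 1 := max_le zero_le_one (min_le_left _ _)
      have := N4 k ((1 - c s) * ρ (1 / 2) + c s / 4) (by nlinarith [ρ1 (1 / 2)])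
        (by nlinarith [ρ1 (1 / 2)])
      simp only [F, nvz_X0, d0, mul_zero, add_zero]
      convert this using 3 <;> ring
    have F1 : ∀ n t, F n t 1 = pt g (pr g (x n t) (y n t)) := fun n t => by simp [F, c]
    refine ⟨fun t => nvzG (fun k => F (N k)) (4 * g * t) 1, fun s t => ⟨fun h => ?_, ?_⟩, ?_,
      fun p => nvzG (fun k => F (N k)) (4 * g * p.1) p.2, ?_, fun t s => ?_, fun t => ?_,
      fun t => rfl⟩
    · simp only [nvzG, F1] at h
      obtain ⟨a, b⟩ := d2 _ (N1 _) _ (N1 _) _ _ (f0 _) (f1 _) (f0 _) (f1 _) h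
      exact inj _ _ a b
    · rintro ⟨k, rfl⟩
      exact (per F s k 1).symm
    · ext e
      constructor
      · rintro ⟨t, rfl⟩
        exact ⟨_, d1 _ (N1 _) _ (f0 _) (f1 _).le, (F1 _ _).symm⟩
      · rintro ⟨z, hz, rfl⟩
        obtain ⟨n, hn, a, a0, a1, rfl⟩ := d3 z hz
        obtain ⟨k, rfl⟩ := N3 n hn
        refine ⟨(k + a) / (4 * g), ?_⟩
        simp only
        rw [mul_div_cancel₀ _ g4.ne', nvz_on Fm (k := k) (by linarith) (by linarith),
          add_sub_cancel_left, F1]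
    · refine (nvz_cont Fm fun k => ?_).comp (f := fun p : ℝ × ℝ => (4 * g * p.1, p.2))
        (by fun_prop)
      have a := (cX (N k)).comp (f := fun p : ℝ × ℝ => (p.1, ρ (1 / 2))) (by fun_prop)
      have b := (cY (N k)).comp (f := fun p : ℝ × ℝ => (p.1, ρ (1 / 2))) (by fun_prop)
      have cc : Continuous fun p : ℝ × ℝ => c p.2 := by simp only [c]; fun_prop
      exact cpt.comp (cont_pr g (((continuous_const.sub cc).mul a).add
        (cc.mul ((cx' _).comp continuous_fst))) (((continuous_const.sub cc).mul b).add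
        (cc.mul ((cy' _).comp continuous_fst))))
    · simpa using per F t 1 s
    · simp [nvzG, F, c, core, f, nvzP]

end Pool.Agent.Lib.MP_294da1_gt.Br
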