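import Pool.Agent.Lib.MP_294da1_gt.Br.Strip
import Pool.Agent.Lib.MP_294da1_gt.Br.Alg
import Pool.Agent.Lib.MP_294da1_gt.Br.Cross

/-! Classes of curves: simple, invariant under homotopy, crossing at most once. -/

set_option autoImplicit false

namespace Pool.Agent.Lib.MP_294da1_gt.Br

open Pool.Agent.Lib.MP_a47850_al Pool.Agent.Lib.MP_a47850_al.Mcg Set Filter Topology

variable {g : ℕ}

variable {φ ψ : ℂ → Surf g} {σ τ : ℂ → E g} {h d : F g} {u : E g → ℝ} {α β : ℝ → Surf g}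

theorem simple (L : Lf φ σ h) (h1 : h ≠ 1) (U : Side σ u) (W : Wall u h) : Simple h := by
  refine ⟨h1, fun t ht => ?_, fun t c => ?_⟩
  · by_contra hn
    push Not at hn
    obtain ⟨ε, ε', a, b, -, -, H⟩ := U.nest L hn
    have same : ∀ x, u (t⁻¹ • bp x) = u (bp x) := fun x => by
      have k : u (bp (t⁻¹ * x)) = 1 ↔ u (bp x) = 1 := by
        rw [W, W, ← ht, mul_inv_cancel_left]
      rw [smul_bp]
      rcases U.bd L (bp_mem (t⁻¹ * x)) with p | p <;> rcases U.bd L (bp_mem x) with q | q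
      · rw [p, q]
      · exact (k.2 q).trans q.symm
      · exact p.trans (k.1 p).symm
      · rw [p, q]
    have ne : ε ≠ ε' := by
      rintro rfl
      obtain ⟨x, hx⟩ := Q_nonempty h1
      obtain ⟨y, hy⟩ := exists_not_Q h1
      have e : ∀ z, u (bp z) = ε := fun z => (H (bp z)).elim id fun k => (same z).symm.trans k
      exact hy ((W y).1 ((e y).trans ((e x).symm.trans ((W x).2 hx))))
    have u0 : u (σ ⟨0, 1 / 2⟩) = 1 / 2 := by
      rw [U.on]
      norm_num
    have st : ∀ e, u e ≠ ε' → u (t • e) = ε := fun e he =>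
      (H (t • e)).resolve_right (by rwa [inv_smul_smul])
    have it : ∀ k : ℕ, u (t ^ (k + 1) • σ ⟨0, 1 / 2⟩) = ε := fun k => by
      induction k with
      | zero =>
        rw [zero_add, pow_one]
        refine st _ ?_
        rw [u0]
        rcases b with rfl | rfl <;> norm_num
      | succ k ih =>
        rw [pow_succ', mul_smul]
        exact st _ (ih ▸ ne)
    obtain ⟨k, m, k0, e⟩ := stab_fin h1 ht
    obtain ⟨k, rfl⟩ := Nat.exists_eq_add_one_of_ne_zero k0.ne'
    have := it k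
    rw [e, U.inv L, u0] at this
    rcases a with rfl | rfl <;> norm_num at this
  · by_cases hn : ∃ k : ℤ, t = h ^ k
    · obtain ⟨k, rfl⟩ := hn
      rw [show h ^ k * h * (h ^ k)⁻¹ = h by group] at c
      exact not_cross_self h c
    push Not at hn
    obtain ⟨ε, ε', a, b, -, -, H⟩ := U.nest L hn
    have k : ∀ x, u (t⁻¹ • bp x) = 1 ↔ x ∈ Q (t * h * t⁻¹) := fun x => by
      rw [smul_bp, W, Q_conj']
    obtain ⟨⟨x, x1, x2⟩, ⟨y, y1, y2⟩, ⟨z, z1, z2⟩, w, w1, w2⟩ := c
    rcases a with rfl | rfl <;> rcases b with rfl | rfl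
    · have := H (bp x)
      rw [(W x).2 x1, (k x).2 x2] at this
      norm_num at this
    · have := H (bp y)
      rw [(W y).2 y1, k] at this
      exact this.elim one_ne_zero y2
    · have := H (bp z)
      rw [(k z).2 z2, W] at this
      exact this.elim z1 one_ne_zero
    · have := H (bp w)
      rw [k, W] at this
      exact this.elim w1 w2

theorem Cls.htp (H : Htp g α β) (c : Cls α h) : Cls β h := by
  obtain ⟨K, cK, per, k0, k1⟩ := H
  obtain ⟨a, ca, pa, ha⟩ := c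
  obtain ⟨A, cA, pA, a0⟩ := exists_lift cK (0, 0) (e := a 0) ((pa 0).trans (k0 0).symm)
  have e0 : ∀ t, A (t, 0) = a t := fun t =>
    Top.Pat.uniq (X := X g) (a := fun t => A (t, 0)) (b := a) (by fun_prop) ca
      (fun t => by rw [pA, k0, pa]) 0 a0 t
  refine ⟨fun t => A (t, 1), by fun_prop, fun t => (pA _).trans (k1 t), fun t => ?_⟩
  exact Top.Pat.uniq (X := X g) (a := fun y : ℝ × ℝ => A (y.1 + 1, y.2)) (b := fun y => h • A y)
    (by fun_prop) (((X g).cont_smul h).comp cA)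
    (fun y => by rw [Top.Pat.p_smul, pA, pA, per]) (0, 0) (by simp only [e0, ha]) (t, 1)

theorem Cls.conj (c : Cls α h) (c' : Cls α d) : ∃ γ, d = γ * h * γ⁻¹ := by
  obtain ⟨a, ca, pa, ha⟩ := c
  obtain ⟨b, cb, pb, hb⟩ := c'
  obtain ⟨γ, hγ⟩ := ((X g).fib (b 0) (a 0)).1 ((pb 0).trans (pa 0).symm)
  have e : ∀ t, γ • a t = b t := fun t =>
    Top.Pat.uniq (X := X g) (a := fun t => γ • a t) (b := b) (((X g).cont_smul γ).comp ca) cb
      (fun t => by rw [Top.Pat.p_smul, pa, pb]) 0 hγ t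
  refine ⟨γ, Top.Pat.smul_inj (X := X g) (e := b 0) ?_⟩
  rw [← hb, ← e, ← e, ha, mul_smul, mul_smul, inv_smul_smul]

theorem sim_per {a : ℝ → E g} (ha : ∀ t, a (t + 1) = h • a t) (t : ℝ) (k : ℤ) :
    a (t + k) = h ^ k • a t := by
  induction k using Int.induction_on with
  | zero => simp
  | succ n ih =>
    rw [Int.cast_add, Int.cast_one, ← add_assoc, ha, ih, ← mul_smul, add_comm (n : ℤ), zpow_add,
      zpow_one]
  | pred n ih =>
    have e : t + ((-(n : ℤ) : ℤ) : ℝ) = t + ((-(n : ℤ) - 1 : ℤ) : ℝ) + 1 := by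
      push_cast
      ring
    rw [e, ha] at ih
    rw [← inv_smul_eq_iff.2 ih.symm, ← mul_smul]
    congr 1
    group

/-- paths in the range of a simple loop lift to the parameter line -/
theorem sim_lift {Y : Type} [TopologicalSpace Y] [T2Space Y] {δ : ℝ → Y} (cδ : Continuous δ)
    (hδ : ∀ s t, δ s = δ t ↔ ∃ k : ℤ, t = s + k) {f : unitInterval → Y} (cf : Continuous f)
    (hf : ∀ s, f s ∈ range δ) {t : ℝ} (h0 : f 0 = δ t) :
    ∃ r : unitInterval → ℝ, Continuous r ∧ (∀ s, δ (r s) = f s) ∧ r 0 = t := by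
  have per : Function.Periodic δ 1 := fun x => ((hδ x (x + 1)).2 ⟨1, by simp⟩).symm
  have cl : Continuous (per.lift : AddCircle (1 : ℝ) → Y) :=
    (QuotientAddGroup.isQuotientMap_mk _).continuous_iff.2 cδ
  have inj : Function.Injective (per.lift : AddCircle (1 : ℝ) → Y) := by
    rintro ⟨x⟩ ⟨y⟩ e
    obtain ⟨k, rfl⟩ := (hδ x y).1 e
    exact QuotientAddGroup.eq.2 ⟨k, by simp⟩
  have emb := cl.isClosedEmbedding inj
  choose m hm using hf
  have cm : Continuous fun s => (m s : AddCircle (1 : ℝ)) :=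
    emb.isInducing.continuous_iff.2 (cf.congr fun s => (hm s).symm)
  obtain ⟨r, hr, r0⟩ := (AddCircle.isCoveringMap_coe (1 : ℝ)).exists_path_lifts ⟨_, cm⟩ t
    (inj ((hm 0).trans h0))
  exact ⟨r, r.continuous, fun s => (congrArg per.lift (congrFun hr s)).trans (hm s), r0⟩

theorem par (hg : 0 < g) (c : Cls α h) (P : Par g α) : h ∈ cl (zt g) := by
  obtain ⟨δ, hδ, rδ, H⟩ := P
  obtain ⟨a, ca, pa, ha⟩ := c.htp H
  have cδ : Continuous δ := ((X g).cont_p.comp ca).congr pa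
  obtain ⟨t, ht⟩ : (X g).p (bp 1) ∈ range δ := rδ ▸ bp_mem 1
  obtain ⟨y, hy⟩ := ((X g).fib (a t) (bp 1)).1 ((pa t).trans ht)
  have hy' : bp y = a t := by rw [← hy, ← mul_one y, ← smul_bp, mul_one]
  obtain ⟨c, hc⟩ := joined_zt y
  obtain ⟨r, cr, pr, r0⟩ := sim_lift cδ hδ ((X g).cont_p.comp c.continuous)
    (fun s => rδ ▸ hc s) (t := t) (by rw [Function.comp_apply, c.source, hy', pa])
  have e1 : a (r 1) = c 1 :=
    Top.Pat.uniq (X := X g) (a := fun s => a (r s)) (b := c) (ca.comp cr) c.continuous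
      (fun s => (pa _).trans (pr s)) 0 (by rw [r0, c.source, hy']) 1
  have e2 : c 1 = (y * zt g * y⁻¹) • a t := by
    rw [c.target, ← hy', smul_bp, inv_mul_cancel_right]
  obtain ⟨k, hk⟩ := (hδ t (r 1)).1 (by rw [← pa, ← pa, e1, e2, Top.Pat.p_smul])
  rw [hk, sim_per ha, e2] at e1
  have e := Top.Pat.smul_inj (X := X g) e1
  have S := (simple_zt hg).of_mem (cl_conj (self_mem_cl _) y)
  obtain ⟨n, hn⟩ := S.prim h (Q_comm (by rw [← e]; group))
  have nk : n * k - 1 = 0 := zpow_eq_one' S.ne (by rw [zpow_sub, zpow_mul, ← hn, e]; simp)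
  rcases Int.eq_one_or_neg_one_of_mul_eq_one (sub_eq_zero.1 nk) with rfl | rfl
  · exact ⟨y, Or.inl (by rw [hn, zpow_one])⟩
  · exact ⟨y, Or.inr (by rw [hn]; group)⟩

end Pool.Agent.Lib.MP_294da1_gt.Br
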