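import Pool.Agent.Lib.MP_294da1_gt.Br.Strip
import Pool.Agent.Lib.MP_294da1_gt.Br.Alg

/-! The twist acts on the free group through the potential over the walls. -/

set_option autoImplicit false

namespace Pool.Agent.Lib.MP_294da1_gt.Br

open Pool.Agent.Lib.MP_a47850_al Pool.Agent.Lib.MP_a47850_al.Mcg Set Filter Topology

variable {g : ℕ}

variable {φ : ℂ → Surf g} {σ : ℂ → E g} {h : F g} {u : E g → ℝ}

/-- the walls on whose side a point lies -/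
def twV (u : E g → ℝ) (h : F g) (e : E g) : Set (F g) :=
  {k | ∃ δ : F g, (k = δ * h * δ⁻¹ ∧ u (δ⁻¹ • e) = 1) ∨ (k = δ * h⁻¹ * δ⁻¹ ∧ u (δ⁻¹ • e) = 0)}

/-- the complement of the open strips -/
def twZ (σ : ℂ → E g) : Set (E g) := {e | ∀ (γ : F g) (q : ℂ), 0 < q.im → q.im < 1 → γ • σ q ≠ e}

theorem tw_same (L : Lf φ σ h) (U : Side σ u) (δ : F g) (k : ℤ) (e : E g) :
    u ((δ * h ^ k)⁻¹ • e) = u (δ⁻¹ • e) := by
  rw [mul_inv_rev, mul_smul, ← zpow_neg, U.inv L]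

theorem tw_ne (S : Simple h) (γ δ : F g) : γ * h * γ⁻¹ ≠ δ * h⁻¹ * δ⁻¹ := fun e =>
  conj_ne_inv S (δ⁻¹ * γ) (by
    rw [show δ⁻¹ * γ * h * (δ⁻¹ * γ)⁻¹ = δ⁻¹ * (γ * h * γ⁻¹) * δ by group, e]; group)

theorem tw_eq' (S : Simple h) {γ δ : F g} (e : γ * h⁻¹ * γ⁻¹ = δ * h⁻¹ * δ⁻¹) :
    ∃ k : ℤ, γ = δ * h ^ k := conj_eq S (by
  rw [show γ * h * γ⁻¹ = (γ * h⁻¹ * γ⁻¹)⁻¹ by group, e]; group)

theorem tw_mem1 (L : Lf φ σ h) (U : Side σ u) (S : Simple h) (γ : F g) (e : E g) :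
    γ * h * γ⁻¹ ∈ twV u h e ↔ u (γ⁻¹ • e) = 1 := by
  refine ⟨?_, fun a => ⟨γ, Or.inl ⟨rfl, a⟩⟩⟩
  rintro ⟨δ, ⟨a, b⟩ | ⟨a, -⟩⟩
  · obtain ⟨k, rfl⟩ := conj_eq S a
    rwa [tw_same L U]
  · exact (tw_ne S _ _ a).elim

theorem tw_mem0 (L : Lf φ σ h) (U : Side σ u) (S : Simple h) (γ : F g) (e : E g) :
    γ * h⁻¹ * γ⁻¹ ∈ twV u h e ↔ u (γ⁻¹ • e) = 0 := by
  refine ⟨?_, fun a => ⟨γ, Or.inr ⟨rfl, a⟩⟩⟩
  rintro ⟨δ, ⟨a, -⟩ | ⟨a, b⟩⟩
  · exact (tw_ne S _ _ a.symm).elim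
  · obtain ⟨k, rfl⟩ := tw_eq' S a
    rwa [tw_same L U]

theorem tw_sub (e : E g) : twV u h e ⊆ cl h := by
  rintro k ⟨δ, a | a⟩
  exacts [⟨δ, Or.inl a.1⟩, ⟨δ, Or.inr a.1⟩]

theorem tw_val (U : Side σ u) {e : E g} (he : e ∈ twZ σ) (γ : F g) :
    u (γ⁻¹ • e) = 0 ∨ u (γ⁻¹ • e) = 1 :=
  U.off _ fun q a b c => he γ q a b (by rw [c, smul_inv_smul])

theorem tw_xor (L : Lf φ σ h) (U : Side σ u) (S : Simple h) {e : E g} (he : e ∈ twZ σ) {k : F g}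
    (hk : k ∈ cl h) : k ∈ twV u h e ↔ k⁻¹ ∉ twV u h e := by
  obtain ⟨γ, rfl | rfl⟩ := hk
  · rw [show (γ * h * γ⁻¹)⁻¹ = γ * h⁻¹ * γ⁻¹ by group, tw_mem1 L U S, tw_mem0 L U S]
    rcases tw_val U he γ with a | a <;> simp [a]
  · rw [show (γ * h⁻¹ * γ⁻¹)⁻¹ = γ * h * γ⁻¹ by group, tw_mem1 L U S, tw_mem0 L U S]
    rcases tw_val U he γ with a | a <;> simp [a]

theorem tw_bd (x : F g) : bp x ∈ dE g :=
  ⟨(X g).x0, Or.inl (Top.pr_x _ le_rfl (Top.g4 g)), rfl⟩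

theorem tw_bpZ (L : Lf φ σ h) (x : F g) : bp x ∈ twZ σ := fun γ q _ _ e =>
  L.not_bd γ q (e ▸ tw_bd x)

theorem tw_bp (L : Lf φ σ h) (U : Side σ u) (W : Wall u h) (S : Simple h) (x : F g) :
    twV u h (bp x) = pv (cl h) x := by
  ext k
  refine (and_iff_right_of_imp fun a => tw_sub _ a).symm.trans (and_congr_right ?_)
  rintro ⟨γ, rfl | rfl⟩
  · rw [tw_mem1 L U S, smul_bp, W, Q_conj']
  · rw [tw_mem0 L U S, Q_conj', Q_inv S.ne, ← W, ← smul_bp]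
    rcases tw_val U (tw_bpZ L x) γ with a | a <;> simp [a]

theorem tw_nest (L : Lf φ σ h) (U : Side σ u) {γ δ : F g} (hγ : ∀ k : ℤ, δ ≠ γ * h ^ k) :
    ∃ k k', (k = γ * h * γ⁻¹ ∨ k = γ * h⁻¹ * γ⁻¹) ∧ (k' = δ * h * δ⁻¹ ∨ k' = δ * h⁻¹ * δ⁻¹) ∧
      (∀ q, k' ∈ twV u h (γ • σ q)) ∧ ∀ e, k ∈ twV u h e ∨ k' ∈ twV u h e := by
  obtain ⟨a, b, ha, hb, -, h2, h3⟩ := U.nest L (γ := γ⁻¹ * δ) fun k e =>
    hγ k (by rw [← e, mul_inv_cancel_left])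
  have h2' : ∀ q, u (δ⁻¹ • γ • σ q) = b := fun q => by
    rw [← h2 q, ← mul_smul, mul_inv_rev, inv_inv]
  have h3' : ∀ e : E g, u (γ⁻¹ • e) = a ∨ u (δ⁻¹ • e) = b := fun e => by
    have := h3 (γ⁻¹ • e)
    rwa [← mul_smul, mul_inv_rev, inv_inv, mul_inv_cancel_right] at this
  rcases ha with rfl | rfl <;> rcases hb with rfl | rfl
  · exact ⟨_, _, Or.inr rfl, Or.inr rfl, fun q => ⟨δ, Or.inr ⟨rfl, h2' q⟩⟩, fun e =>
      (h3' e).imp (fun a => ⟨γ, Or.inr ⟨rfl, a⟩⟩) fun a => ⟨δ, Or.inr ⟨rfl, a⟩⟩⟩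
  · exact ⟨_, _, Or.inr rfl, Or.inl rfl, fun q => ⟨δ, Or.inl ⟨rfl, h2' q⟩⟩, fun e =>
      (h3' e).imp (fun a => ⟨γ, Or.inr ⟨rfl, a⟩⟩) fun a => ⟨δ, Or.inl ⟨rfl, a⟩⟩⟩
  · exact ⟨_, _, Or.inl rfl, Or.inr rfl, fun q => ⟨δ, Or.inr ⟨rfl, h2' q⟩⟩, fun e =>
      (h3' e).imp (fun a => ⟨γ, Or.inl ⟨rfl, a⟩⟩) fun a => ⟨δ, Or.inr ⟨rfl, a⟩⟩⟩
  · exact ⟨_, _, Or.inl rfl, Or.inl rfl, fun q => ⟨δ, Or.inl ⟨rfl, h2' q⟩⟩, fun e =>
      (h3' e).imp (fun a => ⟨γ, Or.inl ⟨rfl, a⟩⟩) fun a => ⟨δ, Or.inl ⟨rfl, a⟩⟩⟩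

theorem tw_pm {γ k m : F g} (a : k = γ * h * γ⁻¹ ∨ k = γ * h⁻¹ * γ⁻¹)
    (b : m = γ * h * γ⁻¹ ∨ m = γ * h⁻¹ * γ⁻¹) : m = k ∨ m = k⁻¹ := by
  rcases a with rfl | rfl <;> rcases b with rfl | rfl
  exacts [Or.inl rfl, Or.inr (by group), Or.inr (by group), Or.inl rfl]

theorem tw_cls (S : Simple h) {γ δ k : F g} (a : k = γ * h * γ⁻¹ ∨ k = γ * h⁻¹ * γ⁻¹)
    (b : k = δ * h * δ⁻¹ ∨ k = δ * h⁻¹ * δ⁻¹) : ∃ n : ℤ, δ = γ * h ^ n := by
  rcases a with rfl | rfl <;> rcases b with b | b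
  exacts [conj_eq S b.symm, (tw_ne S _ _ b).elim, (tw_ne S _ _ b.symm).elim, tw_eq' S b.symm]

theorem tw_shift {γ k : F g} (n : ℤ)
    (a : k = γ * h ^ n * h * (γ * h ^ n)⁻¹ ∨ k = γ * h ^ n * h⁻¹ * (γ * h ^ n)⁻¹) :
    k = γ * h * γ⁻¹ ∨ k = γ * h⁻¹ * γ⁻¹ :=
  a.imp (fun e => by rw [e]; group) fun e => by rw [e]; group

theorem tw_vx (L : Lf φ σ h) (U : Side σ u) (W : Wall u h) (S : Simple h) {e : E g}
    (he : e ∈ twZ σ) : Vx (cl h) (twV u h e) := by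
  refine ⟨tw_sub e, fun k => tw_xor L U S he, fun m hm m' hm' => ?_, ?_⟩
  · have c := tw_sub _ hm
    have c' := tw_sub _ hm'
    have n := S.fam.ne _ c
    have n' := S.fam.ne _ c'
    obtain ⟨γ, hγ⟩ := tw_sub _ hm
    obtain ⟨δ, hδ⟩ := tw_sub _ hm'
    by_cases d : ∃ n : ℤ, δ = γ * h ^ n
    · obtain ⟨j, rfl⟩ := d
      obtain ⟨x, hx⟩ := Q_nonempty n
      rcases tw_pm hγ (tw_shift j hδ) with rfl | rfl
      · exact ⟨x, hx, hx⟩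
      · exact ((tw_xor L U S he c).1 hm hm').elim
    obtain ⟨k, k', a, a', -, H⟩ := tw_nest L U (not_exists.1 d)
    have H' : ∀ x, x ∈ Q k ∨ x ∈ Q k' := fun x => by
      have := H (bp x)
      rw [tw_bp L U W S] at this
      exact this.imp (·.2) (·.2)
    rcases tw_pm hγ a with rfl | rfl <;> rcases tw_pm hδ a' with rfl | rfl
    · by_contra hc
      have e1 : k = k'⁻¹ := S.fam.inj c (cl_inv c')
        (fun x hx => (Q_inv n').2 fun b => hc ⟨x, hx, b⟩)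
        fun x hx => (H' x).resolve_right ((Q_inv n').1 hx)
      refine d (tw_cls S hγ ?_)
      rw [e1]
      rcases hδ with rfl | rfl
      exacts [Or.inr (by group), Or.inl (by group)]
    · obtain ⟨x, hx⟩ := Q_nonempty n'
      exact ⟨x, (H' x).resolve_right fun b => (Q_inv n').1 b hx, hx⟩
    · obtain ⟨x, hx⟩ := Q_nonempty n
      exact ⟨x, hx, (H' x).resolve_left fun b => (Q_inv n).1 b hx⟩
    · exact ((H e).elim ((tw_xor L U S he c).1 hm) ((tw_xor L U S he c').1 hm')).elim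
  · obtain ⟨y, z, rfl⟩ := (X g).s_surj e
    obtain ⟨G, G1, G2⟩ := L.walls y
    refine (((G1.image fun δ => δ * h * δ⁻¹).union (G1.image fun δ => δ * h⁻¹ * δ⁻¹)).union
      (S.fam.lf 1 y)).subset ?_
    rintro k ⟨hk, h1⟩
    by_cases hy : y ∈ Q k
    · exact Or.inr ⟨tw_sub _ hk, h1, hy⟩
    obtain ⟨γ, hγ⟩ := hk
    by_cases d : ∃ δ ∈ G, ∃ n : ℤ, γ = δ * h ^ n
    · obtain ⟨δ, hδ, n, rfl⟩ := d
      exact Or.inl ((tw_shift n (hγ.imp (·.1) (·.1))).imp (fun a => ⟨δ, hδ, a.symm⟩)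
        fun a => ⟨δ, hδ, a.symm⟩)
    have e1 : u (γ⁻¹ • (X g).s y z) = u (γ⁻¹ • bp y) :=
      (U.smul γ).const (C := sq y) (isPreconnected_range ((X g).cont_s y))
        (fun q a b c => d (G2 γ q a.le b.le c)) ⟨z, rfl⟩ ⟨_, rfl⟩
    have : k ∈ twV u h (bp y) := ⟨γ, by rwa [← e1]⟩
    rw [tw_bp L U W S] at this
    exact absurd this.2 hy

theorem tw_mn (L : Lf φ σ h) (U : Side σ u) (W : Wall u h) (S : Simple h) (γ : F g)
    (he : γ • σ 0 ∈ twZ σ) : Mn (twV u h (γ • σ 0)) (γ * h⁻¹ * γ⁻¹) := by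
  have m : γ * h⁻¹ * γ⁻¹ ∈ twV u h (γ • σ 0) :=
    ⟨γ, Or.inr ⟨rfl, by rw [inv_smul_smul, U.on]; simp⟩⟩
  have c := tw_sub _ m
  refine ⟨m, fun m' hm' hs => ?_⟩
  have c' := tw_sub _ hm'
  obtain ⟨δ, hδ⟩ := tw_sub _ hm'
  by_cases d : ∃ n : ℤ, δ = γ * h ^ n
  · obtain ⟨j, rfl⟩ := d
    exact (tw_pm (Or.inr rfl) (tw_shift j hδ)).resolve_right fun e =>
      (tw_xor L U S he c).1 m (e ▸ hm')
  obtain ⟨k, k', a, a', H0, H⟩ := tw_nest L U (not_exists.1 d)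
  have H' : ∀ x, x ∈ Q k ∨ x ∈ Q k' := fun x => by
    have := H (bp x)
    rw [tw_bp L U W S] at this
    exact this.imp (·.2) (·.2)
  obtain rfl : k' = m' :=
    (tw_pm hδ a').resolve_right fun e => (tw_xor L U S he c').1 hm' (e ▸ H0 0)
  rcases tw_pm (Or.inr rfl) a with rfl | rfl
  · obtain ⟨x, hx⟩ := exists_not_Q (S.fam.ne _ c)
    exact (hx ((H' x).elim id fun b => hs b)).elim
  · exact S.fam.inj c' c hs fun x hx =>
      (H' x).resolve_left fun b => (Q_inv (S.fam.ne _ c)).1 b hx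

theorem tw_out (L : Lf φ σ h) (γ : F g) {q : ℂ} (hq : q.im ≤ 0 ∨ 1 ≤ q.im) : γ • σ q ∈ twZ σ := by
  intro δ r a b e
  obtain ⟨k, e1, -⟩ := (L.eq_iff (γ⁻¹ * δ) r q).1 (by rw [mul_smul, e, inv_smul_smul])
  have : q.im = r.im := by rw [e1]; simp
  rcases hq with c | c <;> linarith

theorem tw_oth (L : Lf φ σ h) (U : Side σ u) {γ δ : F g} (d : ∀ k : ℤ, δ ≠ γ * h ^ k) (q : ℂ) :
    u (δ⁻¹ • γ • σ q) = u (δ⁻¹ • γ • σ 0) := by
  obtain ⟨a, b, -, -, -, h2, -⟩ := U.nest L (γ := γ⁻¹ * δ) fun k e =>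
    d k (by rw [← e, mul_inv_cancel_left])
  have h2' : ∀ q, u (δ⁻¹ • γ • σ q) = b := fun q => by
    rw [← h2 q, ← mul_smul, mul_inv_rev, inv_inv]
  rw [h2', h2']

theorem tw_low (L : Lf φ σ h) (U : Side σ u) (γ : F g) {q : ℂ} (hq : q.im ≤ 0) :
    twV u h (γ • σ q) = twV u h (γ • σ 0) := by
  have : ∀ δ : F g, u (δ⁻¹ • γ • σ q) = u (δ⁻¹ • γ • σ 0) := fun δ => by
    by_cases d : ∃ n : ℤ, δ = γ * h ^ n
    · obtain ⟨n, rfl⟩ := d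
      rw [tw_same L U, tw_same L U, inv_smul_smul, inv_smul_smul, U.on, U.on,
        max_eq_left ((min_le_right _ _).trans hq)]
      simp
    · exact tw_oth L U (not_exists.1 d) q
  simp only [twV, this]

theorem tw_up (L : Lf φ σ h) (U : Side σ u) (S : Simple h) (γ : F g) {q : ℂ} (hq : 1 ≤ q.im) :
    twV u h (γ • σ q) = flp (twV u h (γ • σ 0)) (γ * h⁻¹ * γ⁻¹) := by
  have u1 : u (γ⁻¹ • γ • σ q) = 1 := by rw [inv_smul_smul, U.on, min_eq_left hq]; simp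
  have i1 : (γ * h⁻¹ * γ⁻¹)⁻¹ = γ * h * γ⁻¹ := by group
  ext k
  rw [flp, mem_ofPred_eq, i1]
  constructor
  · rintro ⟨δ, hδ⟩
    by_cases d : ∃ n : ℤ, δ = γ * h ^ n
    · obtain ⟨n, rfl⟩ := d
      rw [tw_same L U, u1] at hδ
      rcases hδ with ⟨a, -⟩ | ⟨-, a⟩
      · exact Or.inl (by rw [a]; group)
      · exact absurd a one_ne_zero
    · refine Or.inr ⟨⟨δ, by rwa [← tw_oth L U (not_exists.1 d) q]⟩, fun e => ?_⟩
      exact d (tw_cls S (Or.inr e) (hδ.imp (·.1) (·.1)))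
  · rintro (rfl | ⟨⟨δ, hδ⟩, n⟩)
    · exact ⟨γ, Or.inl ⟨rfl, u1⟩⟩
    by_cases d : ∃ n : ℤ, δ = γ * h ^ n
    · obtain ⟨j, rfl⟩ := d
      obtain rfl := (tw_shift j (hδ.imp (·.1) (·.1))).resolve_right n
      exact ⟨γ, Or.inl ⟨rfl, u1⟩⟩
    · exact ⟨δ, by rwa [tw_oth L U (not_exists.1 d) q]⟩

theorem tw_closedZ (L : Lf φ σ h) : IsClosed (twZ σ) := by
  have : (twZ σ)ᶜ = ⋃ γ : F g, (fun q => γ • σ q) '' {q | 0 < q.im ∧ q.im < 1} := by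
    ext e
    simp [twZ, and_assoc]
  rw [← isOpen_compl_iff, this]
  exact isOpen_iUnion fun γ => (L.smul γ).isOpenMap _
    ((isOpen_lt continuous_const Complex.continuous_im).inter
      (isOpen_lt Complex.continuous_im continuous_const))

theorem tw_loc (L : Lf φ σ h) (U : Side σ u) (y : F g) {z : Sq g} (hz : (X g).s y z ∈ twZ σ) :
    ∀ᶠ w in 𝓝 z, (X g).s y w ∈ twZ σ → twV u h ((X g).s y w) = twV u h ((X g).s y z) := by
  obtain ⟨G, G1, G2⟩ := L.walls y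
  have : ∀ δ ∈ G, ∀ᶠ w in 𝓝 z, dist (u (δ⁻¹ • (X g).s y w)) (u (δ⁻¹ • (X g).s y z)) < 1 :=
    fun δ _ => Metric.tendsto_nhds.1
      (((U.smul δ).cont.comp ((X g).cont_s y)).tendsto z) 1 one_pos
  filter_upwards [(eventually_all_finite G1).2 this] with w hw hZ
  have : ∀ γ : F g, u (γ⁻¹ • (X g).s y w) = u (γ⁻¹ • (X g).s y z) := fun γ => by
    by_cases d : ∃ δ ∈ G, ∃ n : ℤ, γ = δ * h ^ n
    · obtain ⟨δ, hδ, n, rfl⟩ := d
      have := hw δ hδ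
      rw [tw_same L U, tw_same L U]
      rcases tw_val U hZ δ with a | a <;> rcases tw_val U hz δ with b | b <;>
        simp [a, b] at this ⊢
    · exact (U.smul γ).const (C := sq y) (isPreconnected_range ((X g).cont_s y))
        (fun q a b c => d (G2 γ q a.le b.le c)) ⟨w, rfl⟩ ⟨z, rfl⟩
  simp only [twV, this]

theorem tw_closed {Z : Set (E g)} (hZ : IsClosed Z) {R : E g → Prop}
    (H : ∀ y z, (X g).s y z ∈ Z →
      ∀ᶠ w in 𝓝 z, (X g).s y w ∈ Z → (R ((X g).s y w) ↔ R ((X g).s y z))) :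
    IsClosed {e | e ∈ Z ∧ R e} := by
  rw [← isOpen_compl_iff]
  refine (X g).open_E fun y => isOpen_iff_mem_nhds.2 fun z hz => ?_
  by_cases a : (X g).s y z ∈ Z
  · filter_upwards [H y z a] with w hw b
    exact hz ⟨a, (hw b.1).1 b.2⟩
  · filter_upwards [(hZ.isOpen_compl.preimage ((X g).cont_s y)).mem_nhds a] with w hw b
    exact hw b.1

theorem tw_lift {f : Surf g → Surf g} {M : Sq g → E g} {τ : F g →* F g} (I : (X g).IsL f M τ) :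
    ∃ N : E g → E g, Continuous N ∧ (∀ e, (X g).p (N e) = f ((X g).p e)) ∧
      ∀ x, N (bp x) = τ x • bp 1 := by
  let N : E g → E g := Quot.lift (fun x => τ x.1 • M x.2) (by
    rintro x y ⟨l, t, a, b, c⟩
    rw [a, b, c, I.deck, map_mul, mul_smul])
  have Ns : ∀ a z, N ((X g).s a z) = τ a • M z := fun _ _ => rfl
  refine ⟨N, (X g).cont_E fun a => ((X g).cont_smul (τ a)).comp I.cont, fun e => ?_, fun x => ?_⟩
  · obtain ⟨a, z, rfl⟩ := (X g).s_surj e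
    rw [Ns, Top.Pat.p_smul, I.lifts]
    rfl
  · rw [bp, Ns, I.base]
    rfl

theorem twist (L : Lf φ σ h) (U : Side σ u) (W : Wall u h) (S : Simple h) {T : Homeo g}
    (hT : Tw g φ T) {M : Sq g → E g} {τ : MulAut (F g)}
    (I : (X g).IsL (hom g T) M τ.toMonoidHom) : IsTw h τ := by
  obtain ⟨κ, k1, k2⟩ := exists_pot_nest S.fam S.nest id (fun _ => rfl)
  obtain ⟨N, cN, pN, bN⟩ := tw_lift I
  refine ⟨κ, k1, k2, ?_⟩
  let P : E g → Prop := fun e => N e = κ (twV u h e) • e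
  have orb : ∀ e ∈ twZ σ, ∃ c : F g, c • e = N e := fun e he => by
    refine ((X g).fib _ _).1 ?_
    rw [pN]
    by_cases a : (X g).p e ∈ range φ
    swap
    · exact hT.2 _ a
    obtain ⟨q, hq⟩ := a
    obtain ⟨γ, hγ⟩ := ((X g).fib e (σ q)).1 (by rw [L.lifts, hq])
    rw [← hq, hT.1]
    refine ((L.ann.2.2.1 _ _).2 ?_).symm
    by_cases a : q.im ≤ 0
    · exact ⟨0, by rw [max_eq_left ((min_le_right _ _).trans a)]; simp⟩
    by_cases b : 1 ≤ q.im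
    · exact ⟨1, by rw [min_eq_left b]; simp⟩
    exact (he γ q (not_le.1 a) (not_le.1 b) hγ).elim
  have loc : ∀ y z, (X g).s y z ∈ twZ σ →
      ∀ᶠ w in 𝓝 z, (X g).s y w ∈ twZ σ → (P ((X g).s y w) ↔ P ((X g).s y z)) := by
    intro y z hz
    obtain ⟨c, hc⟩ := orb _ hz
    obtain ⟨O, hO, hd⟩ := (X g).cov.disjoint (N ((X g).s y z))
    have e1 : ∀ᶠ w in 𝓝 z, N ((X g).s y w) ∈ O := (cN.comp ((X g).cont_s y)).tendsto z hO
    have e2 : ∀ᶠ w in 𝓝 z, c • (X g).s y w ∈ O :=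
      (((X g).cont_smul c).comp ((X g).cont_s y)).tendsto z (by
        simpa only [Function.comp, hc] using hO)
    filter_upwards [e1, e2, tw_loc L U y hz] with w a b d hw
    obtain ⟨c', hc'⟩ := orb _ hw
    have : c' * c⁻¹ = 1 := hd _ ⟨_, ⟨_, b, by
      change (c' * c⁻¹) • c • _ = _
      rw [← mul_smul, inv_mul_cancel_right, hc']⟩, a⟩
    obtain rfl := mul_inv_eq_one.1 this
    simp only [P, d hw, ← hc, ← hc']
    exact ⟨fun e => by rw [Top.Pat.smul_inj e], fun e => by rw [Top.Pat.smul_inj e]⟩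
  have str : ∀ (γ : F g) (q : ℂ), γ • σ q ∈ twZ σ → (P (γ • σ q) ↔ P (γ • σ 0)) := by
    intro γ q hq
    have z0 : γ • σ 0 ∈ twZ σ := tw_out L γ (Or.inl le_rfl)
    obtain ⟨c, hc⟩ := orb _ z0
    have e1 : N (γ • σ q) = c • γ • σ (q + (max 0 (min 1 q.im) : ℝ)) :=
      Top.Pat.uniq (X := X g) (a := fun q : ℂ => N (γ • σ q))
        (b := fun q : ℂ => c • γ • σ (q + (max 0 (min 1 q.im) : ℝ)))
        (cN.comp (L.smul γ).cont)
        (((X g).cont_smul c).comp ((L.smul γ).cont.comp (by fun_prop)))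
        (fun q => by
          simp only [pN, Top.Pat.p_smul, L.lifts, hT.1]) 0 (by simp [hc]) q
    by_cases a : q.im ≤ 0
    · rw [max_eq_left ((min_le_right _ _).trans a)] at e1
      simp only [P, tw_low L U γ a, ← hc, e1, Complex.ofReal_zero, add_zero]
      exact ⟨fun e => by rw [Top.Pat.smul_inj e], fun e => by rw [Top.Pat.smul_inj e]⟩
    by_cases b : 1 ≤ q.im
    swap
    · exact (hq γ q (not_le.1 a) (not_le.1 b) rfl).elim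
    rw [min_eq_left b, max_eq_right zero_le_one, Complex.ofReal_one, L.per] at e1
    have e2 : N (γ • σ q) = (c * (γ * h⁻¹ * γ⁻¹)⁻¹) • γ • σ q := by
      simp only [e1, ← mul_smul]
      congr 1
      group
    simp only [P, tw_up L U S γ b, k2 _ _ (tw_vx L U W S z0) (tw_mn L U W S γ z0), ← hc, e2, id]
    exact ⟨fun e => by rw [mul_right_cancel (Top.Pat.smul_inj e)],
      fun e => by rw [Top.Pat.smul_inj e]⟩
  let Y : (E g → Prop) → Set (E g) := fun R => {e | e ∈ twZ σ ∧ R e} ∪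
    ⋃ γ ∈ {γ : F g | R (γ • σ 0)}, (γ • ·) '' (σ '' {q | 0 ≤ q.im ∧ q.im ≤ 1})
  have c1 : IsClosed (Y P) := (tw_closed (tw_closedZ L) loc).union (L.closed 0 1 _)
  have c2 : IsClosed (Y fun e => ¬ P e) := (tw_closed (tw_closedZ L) fun y z hz =>
    (loc y z hz).mono fun w a b => not_congr (a b)).union (L.closed 0 1 _)
  have cp : (Y P)ᶜ = Y fun e => ¬ P e := by
    ext e
    simp only [Y, mem_compl_iff, mem_union, mem_iUnion, mem_ofPred_eq]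
    constructor
    · intro H
      by_cases a : e ∈ twZ σ
      · exact Or.inl ⟨a, fun b => H (Or.inl ⟨a, b⟩)⟩
      simp only [twZ, mem_ofPred_eq, not_forall, not_not] at a
      obtain ⟨γ, q, a, b, c⟩ := a
      exact Or.inr ⟨γ, fun d => H (Or.inr ⟨γ, d, _, ⟨q, ⟨a.le, b.le⟩, rfl⟩, c⟩),
        _, ⟨q, ⟨a.le, b.le⟩, rfl⟩, c⟩
    · rintro (⟨a, b⟩ | ⟨γ, a, _, ⟨q, -, rfl⟩, rfl⟩) (⟨c, d⟩ | ⟨δ, c, _, ⟨r, -, rfl⟩, d⟩)
      · exact b d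
      · subst d
        exact b ((str δ r a).2 c)
      · exact a ((str γ q c).1 d)
      · obtain ⟨k, -, e1⟩ := (L.eq_iff (γ⁻¹ * δ) r q).1 (by
          rw [mul_smul, inv_smul_eq_iff]; exact d)
        have e2 : δ • σ 0 = γ • σ (0 + k) := by
          rw [L.per_int, ← e1, ← mul_smul, mul_inv_cancel_left]
        rw [e2] at c
        exact a ((str γ _ (tw_out L γ (Or.inl (by simp)))).1 c)
  have all : Y P = univ := IsClopen.eq_univ ⟨c1, by rw [← isClosed_compl_iff, cp]; exact c2⟩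
    ⟨bp 1, Or.inl ⟨tw_bpZ L 1, by simp only [P, bN, tw_bp L U W S, k1, map_one]⟩⟩
  intro x
  rcases all.symm ▸ mem_univ (bp x) with ⟨-, a⟩ | a
  · simp only [P, bN, tw_bp L U W S] at a
    refine Top.Pat.smul_inj (X := X g) (e := bp 1) (a.trans ?_)
    rw [mul_smul, smul_bp x, mul_one]
  · obtain ⟨γ, -, _, ⟨q, -, rfl⟩, e⟩ := mem_iUnion₂.1 a
    exact (L.not_bd γ q (by rw [show γ • σ q = bp x from e]; exact tw_bd x)).elim

end Pool.Agent.Lib.MP_294da1_gt.Br
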