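import Pool.Agent.Lib.MP_294da1_gt.Br.Sign
import Pool.Agent.Lib.MP_294da1_gt.Br.Simple
import Pool.Agent.Lib.MP_294da1_gt.Br.Tw
import Pool.Agent.Lib.MP_294da1_gt.Br.Disk
import Pool.Agent.Lib.MP_294da1_gt.Br.NvA
import Pool.Agent.Lib.MP_294da1_gt.Br.NvB

/-! Restricted positive factorizations of the boundary twist have bounded length. -/

set_option autoImplicit false

namespace Pool.Agent.Lib.MP_294da1_gt.Br

open Pool.Agent.Lib.MP_a47850_al Pool.Agent.Lib.MP_a47850_al.Mcg Set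

variable {g : ℕ} {φ ψ : ℂ → Surf g} {σ τ : ℂ → E g} {h d : F g}

theorem exists_Phi (g : ℕ) : ∃ Φ : Mod g →* MulAut (F g),
    ∀ f : Homeo g, ∃ L, (X g).IsL (hom g f) L (Φ (cls g f)).toMonoidHom := Top.exists_Phi g

theorem Lf.data (hg : 0 < g) (L : Lf φ σ h) (h1 : h ≠ 1) :
    ∃ u, Side σ u ∧ Wall u h ∧ Simple h := by
  obtain ⟨u, U⟩ := L.exists_side
  exact ⟨u, U, wall hg L h1 U, simple L h1 U (wall hg L h1 U)⟩

theorem cl_of_conj {γ : F g} (e : d = γ * h * γ⁻¹) : d ∈ cl h := ⟨γ, Or.inl e⟩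

theorem near_one (hg : 0 < g) (L : Lf φ σ h) (M : Lf ψ τ d) (Sd : Simple d)
    (N : Near g (core g φ) (core g ψ)) : One h (cl d) := by
  obtain ⟨φ', ψ', A, B, H, K, R⟩ := N
  obtain ⟨σ', h', L'⟩ := exists_lf A
  obtain ⟨τ', d', M'⟩ := exists_lf B
  obtain ⟨γ, e⟩ := L'.cls.conj (L.cls.htp H)
  obtain ⟨δ, f⟩ := (M.cls.htp K).conj M'.cls
  have m := cl_of_conj f
  obtain ⟨u, U, W, S⟩ := M'.data hg (Sd.of_mem m).ne
  rw [← cl_eq m]
  exact (one L' M' U W S R).of_mem S (cl_of_conj e)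

theorem bdd (hg : 0 < g) : BddAbove {n | Fact g n} := by
  obtain ⟨N, hN⟩ := main' hg
  obtain ⟨Φ, hΦ⟩ := exists_Phi g
  refine ⟨N, ?_⟩
  rintro n ⟨φ, T, φ₀, T₀, h1, h2, A, h3, h4, h5⟩
  choose σ c L using fun i => exists_lf (h1 i).1
  have ne : ∀ i, c i ≠ 1 := fun i e => (h1 i).2.2 (disk hg (e ▸ L i))
  choose u U W S using fun i => (L i).data hg (ne i)
  refine hN n c (fun i => Φ (cls g (T i))) S (fun i => ?_)
    (fun i j => near_one hg (L i) (L j) (S j) (h2 i j)) ?_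
  · obtain ⟨M, I⟩ := hΦ (T i)
    exact twist (L i) (U i) (W i) (S i) (h1 i).2.1 I
  · obtain ⟨σ₀, c₀, L₀⟩ := exists_lf A
    have m := par hg L₀.cls h4
    obtain ⟨u₀, U₀, W₀, S₀⟩ := L₀.data hg ((simple_zt hg).of_mem m).ne
    obtain ⟨M, I⟩ := hΦ T₀
    rw [(isTw_zt hg).unique (simple_zt hg) (twist L₀ U₀ W₀ S₀ h3 I) (cl_eq m), ← h5,
      map_list_prod, List.map_ofFn]
    rfl

theorem htp_refl {α : ℝ → Surf g} (hc : Continuous α) (hp : ∀ t, α (t + 1) = α t) : Htp g α α :=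
  ⟨fun p => α p.1, hc.comp continuous_fst, fun t _ => hp t, fun _ => rfl, fun _ => rfl⟩

theorem fact_one (hg : 0 < g) : Fact g 1 := by
  obtain ⟨φ, A, P⟩ := exists_par hg
  obtain ⟨T, hT⟩ := exists_tw A
  obtain ⟨σ, c, L⟩ := exists_lf A
  have H : Htp g (core g φ) (core g φ) := by
    refine htp_refl (A.1.comp (Complex.continuous_ofReal.add (continuous_const (y := Complex.I / 2))
      |>.congr fun t => by apply Complex.ext <;> simp)) fun t => ((A.2.2.1 _ _).2 ⟨1, ?_⟩).symm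
    apply Complex.ext <;> simp
  exact ⟨fun _ => φ, fun _ => T, φ, T,
    fun _ => ⟨A, hT, not_disk L ((simple_zt hg).of_mem (par hg L.cls P)).ne⟩,
    fun _ _ => ⟨φ, φ, A, A, H, H, Or.inl rfl⟩, A, hT, P, by simp⟩

theorem final (hg : 1 ≤ g) : ∃ N, IsGreatest {n | Fact g n} N :=
  ⟨_, Nat.sSup_mem ⟨1, fact_one hg⟩ (bdd hg), fun _ h => le_csSup (bdd hg) h⟩

end Pool.Agent.Lib.MP_294da1_gt.Br
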