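import Pool.Agent.Lib.MP_294da1_gt.Br.Base

/-! Tools for the annulus parallel to the boundary. -/

set_option autoImplicit false

namespace Pool.Agent.Lib.MP_294da1_gt.Br

open Pool.Agent.Lib.MP_a47850_al Pool.Agent.Lib.MP_a47850_al.Mcg Set Filter Topology

variable {g : ℕ}

/-- pieces laid end to end -/
noncomputable def nvzG {Y Z : Type} (f : ℤ → ℝ → Y → Z) (x : ℝ) (y : Y) : Z :=
  f ⌊x⌋ (Int.fract x) y

theorem nvz_on {Y Z : Type} {f : ℤ → ℝ → Y → Z} (hm : ∀ k y, f k 1 y = f (k + 1) 0 y) {k : ℤ}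
    {x : ℝ} (h0 : (k : ℝ) ≤ x) (h1 : x ≤ k + 1) (y : Y) : nvzG f x y = f k (x - k) y := by
  rcases h1.lt_or_eq with h | h
  · have e : ⌊x⌋ = k := Int.floor_eq_iff.2 ⟨h0, h⟩
    rw [nvzG, Int.fract, e]
  · have e : x = ((k + 1 : ℤ) : ℝ) := by push_cast; exact h
    rw [nvzG, e, Int.floor_intCast, Int.fract_intCast, ← hm]
    congr 1; push_cast; ring

theorem nvz_cont {Y Z : Type} [TopologicalSpace Y] [TopologicalSpace Z] {f : ℤ → ℝ → Y → Z}
    (hm : ∀ k y, f k 1 y = f (k + 1) 0 y) (hc : ∀ k, Continuous fun p : ℝ × Y => f k p.1 p.2) :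
    Continuous fun p : ℝ × Y => nvzG f p.1 p.2 := by
  have lf : LocallyFinite fun k : ℤ => Icc (k : ℝ) (k + 1) :=
    locallyFinite_Icc_of_tendsto tendsto_intCast_atTop_atTop
      (tendsto_atBot_add_const_right _ _ (tendsto_intCast_atBot_iff.2 tendsto_id))
  refine (lf.preimage_continuous (continuous_fst (Y := Y))).continuous ?_
    (fun k => isClosed_Icc.preimage continuous_fst) fun k => ?_
  · exact eq_univ_of_forall fun p =>
      mem_iUnion.2 ⟨⌊p.1⌋, Int.floor_le _, (Int.lt_floor_add_one _).le⟩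
  · exact ((hc k).comp (f := fun p : ℝ × Y => (p.1 - k, p.2)) (by fun_prop)).continuousOn.congr
      fun p hp => nvz_on hm hp.1 hp.2 _

/-- left end number of a gap -/
def nvzS (g n : ℕ) : ℕ := if n = 0 then 4 * g else n

theorem nvz_gl {m : ℕ} (h1 : m < 4 * g) (h2 : m % 4 < 2) {x x' : ℝ} (a : (m : ℝ) + 1 / 4 ≤ x)
    (b : x ≤ m + 3 / 4) (c : x + x' = 2 * m + 3) : pt g (pr g x 0) = pt g (pr g x' 0) := by
  have : (m : ℝ) + 2 + 1 ≤ 4 * g := by exact_mod_cast (show m + 2 + 1 ≤ 4 * g by omega)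
  have : (0 : ℝ) ≤ m := by positivity
  have e1 : (pr g x 0).1.1 = x := Top.pr_x _ (by linarith) (by linarith)
  have e2 : (pr g x' 0).1.1 = x' := Top.pr_x _ (by linarith) (by linarith)
  exact Quot.sound ⟨m, h1, h2, Top.pr_y0 _, Top.pr_y0 _, by rwa [e1], by rwa [e1], by
    rwa [e1, e2]⟩

theorem nvz_idx (hg : 0 < g) : ∃ N : ℤ → ℕ, (∀ k, N k < 4 * g) ∧
    (∀ k k', N k = N k' ↔ ∃ d : ℤ, k' = k + 4 * g * d) ∧ (∀ n < 4 * g, ∃ k, N k = n) ∧
    ∀ k (R : ℝ), 1 / 4 ≤ R → R ≤ 3 / 4 →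
      pt g (pr g (N k + R) 0) = pt g (pr g (nvzS g (N (k + 1)) - R) 0) := by
  let c : ℕ → ℕ := fun j => if j % 2 = 0 then j else if j % 4 = 1 then j + 2 else j - 2
  have cc : ∀ j, c (c j) = j := fun j => by simp only [c]; split_ifs <;> omega
  have cl : ∀ j < 4 * g, c j < 4 * g := fun j hj => by simp only [c]; split_ifs <;> omega
  have p : (0 : ℤ) < 4 * g := by omega
  have r0 : ∀ k : ℤ, 0 ≤ k % (4 * g) := fun k => Int.emod_nonneg _ p.ne'
  have r1 : ∀ k : ℤ, k % (4 * g) < 4 * g := fun k => Int.emod_lt_of_pos _ p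
  refine ⟨fun k => c (k % (4 * g)).toNat, fun k => cl _ (by have := r0 k; have := r1 k; omega),
    fun k k' => ⟨fun e => ?_, ?_⟩, fun n hn => ⟨c n, ?_⟩, fun k R a b => ?_⟩
  · have e1 := congrArg c e
    rw [cc, cc] at e1
    have e2 : k % (4 * g) = k' % (4 * g) := by have := r0 k; have := r0 k'; omega
    obtain ⟨d, hd⟩ := Int.ModEq.dvd e2
    exact ⟨d, by linarith⟩
  · rintro ⟨d, rfl⟩
    simp only [Int.add_mul_emod_self_left]
  · have := cl n hn
    simp only
    rw [Int.emod_eq_of_lt (by omega) (by omega), Int.toNat_natCast, cc]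
  · obtain ⟨j, hj⟩ : ∃ j : ℕ, k % (4 * g) = j := ⟨_, (Int.toNat_of_nonneg (r0 k)).symm⟩
    have j1 : j < 4 * g := by have := r1 k; omega
    have e : nvzS g (c ((k + 1) % (4 * g)).toNat) = c (j + 1) := by
      rw [← Int.emod_add_emod, hj]
      by_cases h : j + 1 = 4 * g
      · have : (j : ℤ) + 1 = 4 * g := by omega
        rw [this, Int.emod_self, h, Int.toNat_zero,
          show c 0 = 0 by simp only [c]; split_ifs <;> omega,
          show c (4 * g) = 4 * g by simp only [c]; split_ifs <;> omega]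
        rfl
      · rw [Int.emod_eq_of_lt (by omega) (by omega), show ((j : ℤ) + 1).toNat = j + 1 by omega]
        refine if_neg fun e0 => ?_
        have e1 := congrArg c e0
        rw [cc] at e1
        exact absurd e1 (Nat.succ_ne_zero j)
    simp only
    rw [e, hj, Int.toNat_natCast]
    obtain ⟨i, rfl | rfl | rfl | rfl⟩ : ∃ i, j = 4 * i ∨ j = 4 * i + 1 ∨ j = 4 * i + 2 ∨
      j = 4 * i + 3 := ⟨j / 4, by omega⟩
    · rw [show c (4 * i) = 4 * i by simp only [c]; split_ifs <;> omega,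
        show c (4 * i + 1) = 4 * i + 3 by simp only [c]; split_ifs <;> omega]
      exact nvz_gl (m := 4 * i) j1 (by omega) (by linarith) (by linarith) (by push_cast; ring)
    · rw [show c (4 * i + 1) = 4 * i + 3 by simp only [c]; split_ifs <;> omega,
        show c (4 * i + 1 + 1) = 4 * i + 2 by simp only [c]; split_ifs <;> omega]
      exact (nvz_gl (m := 4 * i + 1) j1 (by omega) (by push_cast; linarith)
        (by push_cast; linarith) (by push_cast; ring)).symm
    · rw [show c (4 * i + 2) = 4 * i + 2 by simp only [c]; split_ifs <;> omega,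
        show c (4 * i + 2 + 1) = 4 * i + 1 by simp only [c]; split_ifs <;> omega]
      exact (nvz_gl (m := 4 * i) (by omega) (by omega) (by push_cast; linarith)
        (by push_cast; linarith) (by push_cast; ring)).symm
    · rw [show c (4 * i + 3) = 4 * i + 1 by simp only [c]; split_ifs <;> omega,
        show c (4 * i + 3 + 1) = 4 * i + 4 by simp only [c]; split_ifs <;> omega]
      exact nvz_gl (m := 4 * i + 1) (by omega) (by omega) (by linarith) (by linarith)
        (by push_cast; ring)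

theorem nvz_two {z a b : Sq g} (h1 : pt g z = pt g a) (h2 : pt g a = pt g b) (h : a ≠ b) :
    z = a ∨ z = b := by
  rcases ((X g).eq a b).1 h2 with e | ⟨k, t, rfl, rfl⟩ | ⟨k, t, rfl, rfl⟩
  · exact absurd e h
  · rcases ((X g).eq _ _).1 h1 with e | ⟨k', t', rfl, e⟩ | ⟨k', t', e, rfl⟩
    · exact Or.inl e
    · exact absurd e ((X g).AB _ _ _ _)
    · obtain ⟨rfl, rfl⟩ := (X g).AA _ _ _ _ e
      exact Or.inr rfl
  · rcases ((X g).eq _ _).1 h1 with e | ⟨k', t', rfl, e⟩ | ⟨k', t', e, rfl⟩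
    · exact Or.inl e
    · obtain ⟨rfl, rfl⟩ := (X g).BB _ _ _ _ e
      exact Or.inr rfl
    · exact absurd e.symm ((X g).AB _ _ _ _)

theorem nvz_deg {ε κ : ℂ} (hε : ε ≠ 0) (hκ : κ ≠ 0) {α β : ℝ} (hα : 0 < α) {m : ℝ → ℝ}
    (hm : StrictMono m) (cm : Continuous m) (p : ℂ) : ∃ r > 0, ∃ l : ℂ → ℂ,
      ContinuousOn l (Metric.ball p r \ {p}) ∧ ∀ q ∈ Metric.ball p r \ {p},
        ε * Complex.exp (κ * ⟨α * q.re + β, m q.im⟩) -
          ε * Complex.exp (κ * ⟨α * p.re + β, m p.im⟩) = (q - p) * Complex.exp (l q) := by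
  set w : ℂ → ℂ := fun q => ⟨α * q.re + β, m q.im⟩ with hw
  have cw : Continuous w := by
    have : w = fun q => Complex.equivRealProdCLM.symm (α * q.re + β, m q.im) := by
      funext z; apply Complex.ext <;> simp [hw]
    rw [this]; fun_prop
  have cu : Continuous fun q => κ * (w q - w p) := by fun_prop
  obtain ⟨r, hr, hb⟩ := Metric.isOpen_iff.1 (isOpen_lt cu.norm (continuous_const (y := (1 : ℝ))))
    p (by simp)
  have G : ∀ q, q ≠ p → 0 < ((w q - w p) / (q - p)).re := fun q hq => by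
    have n : 0 < Complex.normSq (q - p) := Complex.normSq_pos.2 (sub_ne_zero.2 hq)
    rw [Complex.div_re, ← add_div]
    refine div_pos ?_ n
    simp only [hw, Complex.sub_re, Complex.sub_im]
    have a : 0 ≤ (α * q.re + β - (α * p.re + β)) * (q.re - p.re) := by
      nlinarith [mul_nonneg hα.le (mul_self_nonneg (q.re - p.re))]
    rcases lt_trichotomy q.im p.im with h | h | h
    · nlinarith [mul_pos (sub_pos.2 (hm h)) (sub_pos.2 h)]
    · have : q.re - p.re ≠ 0 := fun e => hq (Complex.ext (by linarith) h)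
      rw [h]
      nlinarith [mul_pos hα (mul_self_pos.2 this)]
    · nlinarith [mul_pos (sub_pos.2 (hm h)) (sub_pos.2 h)]
  have G0 : ∀ q, q ≠ p → w q - w p ≠ 0 := fun q hq e => by simpa [e] using G q hq
  have S : ∀ q ∈ Metric.ball p r \ {p},
      (Complex.exp (κ * (w q - w p)) - 1) / (κ * (w q - w p)) ∈ Complex.slitPlane := by
    intro q hq
    have u0 := mul_ne_zero hκ (G0 q hq.2)
    have u1 : ‖κ * (w q - w p)‖ < 1 := hb hq.1
    generalize κ * (w q - w p) = u at u0 u1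
    rw [show (Complex.exp u - 1) / u = 1 + (Complex.exp u - 1 - u) / u by field_simp; ring]
    refine Complex.mem_slitPlane_of_norm_lt_one ?_
    have n := norm_pos_iff.2 u0
    rw [norm_div, div_lt_one n]
    nlinarith [Complex.norm_exp_sub_one_sub_id_le u1.le]
  refine ⟨r, hr, fun q => Complex.log (ε * κ * Complex.exp (κ * w p)) +
    Complex.log ((Complex.exp (κ * (w q - w p)) - 1) / (κ * (w q - w p))) +
    Complex.log ((w q - w p) / (q - p)), ?_, fun q hq => ?_⟩
  · refine (continuousOn_const.add (ContinuousOn.clog ?_ S)).add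
      (ContinuousOn.clog ?_ fun q hq => Or.inl (G q hq.2))
    · exact ContinuousOn.div (by fun_prop) cu.continuousOn fun q hq => mul_ne_zero hκ (G0 q hq.2)
    · exact ContinuousOn.div (by fun_prop) (by fun_prop) fun q hq => sub_ne_zero.2 hq.2
  · have q0 : q - p ≠ 0 := sub_ne_zero.2 hq.2
    have w0 := G0 q hq.2
    change ε * Complex.exp (κ * w q) - ε * Complex.exp (κ * w p) = _
    rw [Complex.exp_add, Complex.exp_add,
      Complex.exp_log (mul_ne_zero (mul_ne_zero hε hκ) (Complex.exp_ne_zero _)),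
      Complex.exp_log (Complex.slitPlane_ne_zero (S q hq)), Complex.exp_log (div_ne_zero w0 q0),
      show κ * w q = κ * w p + κ * (w q - w p) by ring, Complex.exp_add]
    field_simp

theorem nvz_out (g : ℕ) : ∃ x y : ℝ → ℝ, Continuous x ∧ Continuous y ∧
    (∀ τ : ℝ, 0 ≤ τ → τ ≤ 1 / 4 → x τ = 4 * g - 1 / 4 + τ ∧ y τ = 0) ∧
    (∀ τ : ℝ, 1 / 4 ≤ τ → τ ≤ 1 / 4 + 4 * g → x τ = 4 * g ∧ y τ = τ - 1 / 4) ∧
    (∀ τ : ℝ, 1 / 4 + 4 * g ≤ τ → τ ≤ 1 / 4 + 8 * g → x τ = 8 * g + 1 / 4 - τ ∧ y τ = 4 * g) ∧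
    (∀ τ : ℝ, 1 / 4 + 8 * g ≤ τ → τ ≤ 1 / 4 + 12 * g → x τ = 0 ∧ y τ = 12 * g + 1 / 4 - τ) ∧
    ∀ τ : ℝ, 1 / 4 + 12 * g ≤ τ → τ ≤ 1 / 2 + 12 * g → x τ = τ - 1 / 4 - 12 * g ∧ y τ = 0 := by
  have g0 : (0 : ℝ) ≤ g := by positivity
  have lo : ∀ u b : ℝ, u ≤ 0 → max 0 (min u b) = 0 := fun u b h =>
    max_eq_left ((min_le_left _ _).trans h)
  have mi : ∀ u b : ℝ, 0 ≤ u → u ≤ b → max 0 (min u b) = u := fun u b h k => by
    rw [min_eq_left k, max_eq_right h]
  have hi : ∀ u b : ℝ, 0 ≤ b → b ≤ u → max 0 (min u b) = b := fun u b h k => by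
    rw [min_eq_right k, max_eq_right h]
  refine ⟨fun τ => 4 * g - 1 / 4 + max 0 (min τ (1 / 4)) -
      max 0 (min (τ - (1 / 4 + 4 * g)) (4 * g)) + max 0 (min (τ - (1 / 4 + 12 * g)) (1 / 4)),
    fun τ => max 0 (min (τ - 1 / 4) (4 * g)) - max 0 (min (τ - (1 / 4 + 8 * g)) (4 * g)),
    by fun_prop, by fun_prop, fun τ a b => ?_, fun τ a b => ?_, fun τ a b => ?_,
    fun τ a b => ?_, fun τ a b => ?_⟩ <;> simp only
  · rw [mi τ _ a b, lo _ _ (by linarith), lo _ _ (by linarith), lo _ _ (by linarith),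
      lo _ _ (by linarith)]
    constructor <;> ring
  · rw [hi τ _ (by norm_num) a, lo _ _ (by linarith), lo _ _ (by linarith),
      mi (τ - 1 / 4) _ (by linarith) (by linarith), lo _ _ (by linarith)]
    constructor <;> ring
  · rw [hi τ _ (by norm_num) (by linarith), mi (τ - (1 / 4 + 4 * g)) _ (by linarith) (by linarith),
      lo _ _ (by linarith), hi (τ - 1 / 4) _ (by linarith) (by linarith), lo _ _ (by linarith)]
    constructor <;> ring
  · rw [hi τ _ (by norm_num) (by linarith), hi (τ - (1 / 4 + 4 * g)) _ (by linarith) (by linarith),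
      lo _ _ (by linarith), hi (τ - 1 / 4) _ (by linarith) (by linarith),
      mi (τ - (1 / 4 + 8 * g)) _ (by linarith) (by linarith)]
    constructor <;> ring
  · rw [hi τ _ (by norm_num) (by linarith), hi (τ - (1 / 4 + 4 * g)) _ (by linarith) (by linarith),
      mi (τ - (1 / 4 + 12 * g)) _ (by linarith) (by linarith),
      hi (τ - 1 / 4) _ (by linarith) (by linarith),
      hi (τ - (1 / 4 + 8 * g)) _ (by linarith) (by linarith)]
    constructor <;> ring

end Pool.Agent.Lib.MP_294da1_gt.Br
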