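import Pool.Agent.Lib.MP_294da1_gt.Br.NvZa

/-! The pieces of the boundary circle and the half annuli round them. -/

set_option autoImplicit false

namespace Pool.Agent.Lib.MP_294da1_gt.Br

open Pool.Agent.Lib.MP_a47850_al Pool.Agent.Lib.MP_a47850_al.Mcg Set Filter Topology

variable {g : ℕ}

theorem nvz_int {a b : ℤ} {x lo hi : ℝ} (h : (a : ℝ) - b = x) (h0 : lo < x) (h1 : x < hi)
    (c : ℤ) (l : (c : ℝ) ≤ lo) (u : hi ≤ c + 1) : False := by
  have h2 : (c : ℝ) < ((a - b : ℤ) : ℝ) := by push_cast; linarith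
  have h3 : ((a - b : ℤ) : ℝ) < ((c + 1 : ℤ) : ℝ) := by push_cast; linarith
  have := Int.cast_lt.1 h2
  have := Int.cast_lt.1 h3
  omega

theorem nvz_D (hg : 0 < g) : ∃ x y : ℕ → ℝ → ℝ, (∀ n, Continuous (x n)) ∧ (∀ n, Continuous (y n)) ∧
    (∀ n, x n 0 = nvzS g n - 1 / 4 ∧ y n 0 = 0 ∧ x n 1 = n + 1 / 4 ∧ y n 1 = 0) ∧
    (∀ n < 4 * g, ∀ a, 0 ≤ a → a ≤ 1 → pr g (x n a) (y n a) ∈ Bd g) ∧
    (∀ n < 4 * g, ∀ n' < 4 * g, ∀ a a', 0 ≤ a → a < 1 → 0 ≤ a' → a' < 1 →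
      pt g (pr g (x n a) (y n a)) = pt g (pr g (x n' a') (y n' a')) → n = n' ∧ a = a') ∧
    ∀ z ∈ Bd g, ∃ n < 4 * g, ∃ a, 0 ≤ a ∧ a ≤ 1 ∧ pr g (x n a) (y n a) = z := by
  obtain ⟨x, y, cx, cy, s1, s2, s3, s4, s5⟩ := nvz_out g
  have g1 : (1 : ℝ) ≤ g := by exact_mod_cast hg
  set Λ : ℝ := 1 / 2 + 12 * g with hΛ
  have Λ0 : 0 < Λ := by linarith
  let x' : ℕ → ℝ → ℝ := fun n a => if n = 0 then x (a * Λ) else n - 1 / 4 + a / 2
  let y' : ℕ → ℝ → ℝ := fun n a => if n = 0 then y (a * Λ) else 0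
  have cs : ∀ τ, 0 ≤ τ → τ ≤ Λ → (τ ≤ 1 / 4 ∧ x τ = 4 * g - 1 / 4 + τ ∧ y τ = 0) ∨
      (1 / 4 ≤ τ ∧ τ ≤ 1 / 4 + 4 * g ∧ x τ = 4 * g ∧ y τ = τ - 1 / 4) ∨
      (1 / 4 + 4 * g ≤ τ ∧ τ ≤ 1 / 4 + 8 * g ∧ x τ = 8 * g + 1 / 4 - τ ∧ y τ = 4 * g) ∨
      (1 / 4 + 8 * g ≤ τ ∧ τ ≤ 1 / 4 + 12 * g ∧ x τ = 0 ∧ y τ = 12 * g + 1 / 4 - τ) ∨
      (1 / 4 + 12 * g ≤ τ ∧ x τ = τ - 1 / 4 - 12 * g ∧ y τ = 0) := fun τ a b => by
    rcases le_total τ (1 / 4) with h1 | h1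
    · exact Or.inl ⟨h1, s1 τ a h1⟩
    rcases le_total τ (1 / 4 + 4 * g) with h2 | h2
    · exact Or.inr (Or.inl ⟨h1, h2, s2 τ h1 h2⟩)
    rcases le_total τ (1 / 4 + 8 * g) with h3 | h3
    · exact Or.inr (Or.inr (Or.inl ⟨h2, h3, s3 τ h2 h3⟩))
    rcases le_total τ (1 / 4 + 12 * g) with h4 | h4
    · exact Or.inr (Or.inr (Or.inr (Or.inl ⟨h3, h4, s4 τ h3 h4⟩)))
    · exact Or.inr (Or.inr (Or.inr (Or.inr ⟨h4, s5 τ h4 b⟩)))
  have rg : ∀ a : ℝ, 0 ≤ a → a ≤ 1 → 0 ≤ a * Λ ∧ a * Λ ≤ Λ := fun a a0 a1 =>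
    ⟨by positivity, by nlinarith⟩
  have nb : ∀ n < 4 * g, n ≠ 0 → (1 : ℝ) ≤ n ∧ (n : ℝ) + 1 ≤ 4 * g := fun n a b =>
    ⟨by exact_mod_cast Nat.pos_of_ne_zero b, Top.cast_le a⟩
  have co : ∀ n < 4 * g, ∀ a, 0 ≤ a → a ≤ 1 →
      (pr g (x' n a) (y' n a)).1.1 = x' n a ∧ (pr g (x' n a) (y' n a)).1.2 = y' n a := by
    intro n hn a a0 a1
    by_cases e : n = 0
    · simp only [x', y', if_pos e]
      obtain ⟨r0, r1⟩ := rg a a0 a1
      rcases cs _ r0 r1 with h | h | h | h | h <;>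
        exact ⟨Top.pr_x _ (by linarith [h.1, h.2.1, h.2.2]) (by linarith [h.1, h.2.1, h.2.2]),
          Top.pr_y _ (by linarith [h.1, h.2.1, h.2.2]) (by linarith [h.1, h.2.1, h.2.2])⟩
    · simp only [x', y', if_neg e]
      obtain ⟨r0, r1⟩ := nb n hn e
      exact ⟨Top.pr_x _ (by linarith) (by linarith), Top.pr_y0 _⟩
  have arc : ∀ n < 4 * g, ∀ a, 0 ≤ a → a < 1 → ∀ m : ℕ, (m : ℝ) + 1 ≤ 4 * g → y' n a = 0 →
      (m : ℝ) + 1 / 4 ≤ x' n a → x' n a ≤ m + 3 / 4 → a = 0 := by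
    intro n hn a a0 a1 m hm h0 h1 h2
    have m0 : (0 : ℝ) ≤ m := by positivity
    by_cases e : n = 0
    · simp only [x', y', if_pos e] at h0 h1 h2
      obtain ⟨r0, r1⟩ := rg a a0 a1.le
      have r2 : a * Λ < Λ := by nlinarith
      have : a * Λ = 0 := by
        rcases cs _ r0 r1 with ⟨h, k, l⟩ | ⟨h, k, l, o⟩ | ⟨h, k, l, o⟩ | ⟨h, k, l, o⟩ |
          ⟨h, k, l⟩ <;> linarith
      exact (mul_eq_zero.1 this).resolve_right Λ0.ne'
    · simp only [x', if_neg e] at h1 h2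
      by_contra a2
      have := lt_of_le_of_ne a0 (Ne.symm a2)
      exact nvz_int (a := n) (b := m) (x := n - m) (lo := 0) (hi := 1) (by push_cast; rfl)
        (by linarith) (by linarith) 0 (by simp) (by simp)
  have e0 : ∀ n, x' n 0 = nvzS g n - 1 / 4 ∧ y' n 0 = 0 ∧ x' n 1 = n + 1 / 4 ∧ y' n 1 = 0 := by
    intro n
    by_cases e : n = 0
    · simp only [x', y', nvzS, if_pos e, zero_mul, one_mul]
      obtain ⟨a, b⟩ := s1 0 le_rfl (by norm_num)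
      obtain ⟨c, d⟩ := s5 Λ (by linarith) le_rfl
      refine ⟨by push_cast; linarith, b, ?_, d⟩
      rw [c, e]; push_cast; linarith
    · simp only [x', y', nvzS, if_neg e]
      exact ⟨by ring, trivial, by ring, trivial⟩
  refine ⟨x', y', fun n => ?_, fun n => ?_, e0, fun n hn a a0 a1 => ?_,
    fun n hn n' hn' a a' a0 a1 b0 b1 h => ?_, fun z hz => ?_⟩
  · by_cases e : n = 0 <;> simp only [x', e, if_true, if_false] <;> fun_prop
  · by_cases e : n = 0 <;> simp only [y', e, if_true, if_false] <;> fun_prop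
  · obtain ⟨c1, c2⟩ := co n hn a a0 a1
    simp only [Bd, mem_ofPred_eq, c1, c2]
    by_cases e : n = 0
    · simp only [x', y', if_pos e]
      obtain ⟨r0, r1⟩ := rg a a0 a1
      rcases cs _ r0 r1 with ⟨h, k, l⟩ | ⟨h, k, l, o⟩ | ⟨h, k, l, o⟩ | ⟨h, k, l, o⟩ | ⟨h, k, l⟩
      · refine Or.inr (Or.inr (Or.inr ⟨l, fun m => ?_⟩))
        rcases lt_or_ge m (4 * g) with i | i
        · exact Or.inr (by linarith [Top.cast_le i])
        · have : (4 * g : ℝ) ≤ m := by exact_mod_cast i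
          exact Or.inl (by linarith)
      · exact Or.inr (Or.inl l)
      · exact Or.inr (Or.inr (Or.inl o))
      · exact Or.inl l
      · refine Or.inr (Or.inr (Or.inr ⟨l, fun m => Or.inl ?_⟩))
        have m0 : (0 : ℝ) ≤ m := by positivity
        linarith
    · simp only [x', y', if_neg e]
      refine Or.inr (Or.inr (Or.inr ⟨trivial, fun m => ?_⟩))
      rcases le_or_gt n m with i | i
      · have : (n : ℝ) ≤ m := by exact_mod_cast i
        exact Or.inl (by linarith)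
      · have : (m : ℝ) + 1 ≤ n := by exact_mod_cast i
        exact Or.inr (by linarith)
  · have gl : ∀ n < 4 * g, ∀ n' < 4 * g, ∀ a a', 0 ≤ a → a < 1 → 0 ≤ a' → a' < 1 →
        ¬ Top.Glue g (pr g (x' n a) (y' n a)) (pr g (x' n' a') (y' n' a')) := by
      rintro n hn n' hn' a a' a0 a1 b0 b1 ⟨m, m1, m2, z0, w0, k1, k2, k3⟩
      obtain ⟨c1, c2⟩ := co n hn a a0 a1.le
      obtain ⟨d1, d2⟩ := co n' hn' a' b0 b1.le
      rw [c2] at z0; rw [d2] at w0; rw [c1] at k1 k2 k3; rw [d1] at k3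
      obtain rfl := arc n hn a a0 a1 m (Top.cast_le m1) z0 k1 k2
      obtain rfl := arc n' hn' a' b0 b1 (m + 2) (Top.cast_le (by omega)) w0
        (by push_cast; linarith) (by push_cast; linarith)
      rw [(e0 n).1, (e0 n').1] at k3
      exact nvz_int (a := nvzS g n + nvzS g n') (b := 2 * m + 3) (x := 1 / 2) (lo := 0) (hi := 1)
        (by push_cast; linarith) (by norm_num) (by norm_num) 0 (by simp) (by simp)
    rcases (Top.mk_eq _ _).1 h with h | h | h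
    swap
    · exact (gl n hn n' hn' a a' a0 a1 b0 b1 h).elim
    swap
    · exact (gl n' hn' n hn a' a b0 b1 a0 a1 h).elim
    obtain ⟨c1, c2⟩ := co n hn a a0 a1.le
    obtain ⟨d1, d2⟩ := co n' hn' a' b0 b1.le
    have k1 : x' n a = x' n' a' := by rw [← c1, ← d1]; exact congrArg (·.1.1) h
    have k2 : y' n a = y' n' a' := by rw [← c2, ← d2]; exact congrArg (·.1.2) h
    obtain ⟨r0, r1⟩ := rg a a0 a1.le
    obtain ⟨r2, r3⟩ := rg a' b0 b1.le
    have r4 : a * Λ < Λ := by nlinarith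
    have r5 : a' * Λ < Λ := by nlinarith
    by_cases e : n = 0 <;> by_cases e' : n' = 0 <;>
      simp only [x', y', e, e', if_true, if_false] at k1 k2
    · refine ⟨e.trans e'.symm, mul_right_cancel₀ Λ0.ne' ?_⟩
      rcases cs _ r0 r1 with ⟨h, k, l⟩ | ⟨h, k, l, o⟩ | ⟨h, k, l, o⟩ | ⟨h, k, l, o⟩ |
          ⟨h, k, l⟩ <;>
        rcases cs _ r2 r3 with ⟨h', k', l'⟩ | ⟨h', k', l', o'⟩ | ⟨h', k', l', o'⟩ |
          ⟨h', k', l', o'⟩ | ⟨h', k', l'⟩ <;> linarith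
    · exfalso
      obtain ⟨i, j⟩ := nb n' hn' e'
      rcases cs _ r0 r1 with ⟨h, k, l⟩ | ⟨h, k, l, o⟩ | ⟨h, k, l, o⟩ | ⟨h, k, l, o⟩ |
          ⟨h, k, l⟩ <;> linarith
    · exfalso
      obtain ⟨i, j⟩ := nb n hn e
      rcases cs _ r2 r3 with ⟨h, k, l⟩ | ⟨h, k, l, o⟩ | ⟨h, k, l, o⟩ | ⟨h, k, l, o⟩ |
          ⟨h, k, l⟩ <;> linarith
    · have : n = n' := Top.sep (x := n + 1 / 4 + a / 2) (by linarith) (by linarith) (by linarith)
        (by linarith)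
      subst this
      exact ⟨rfl, by linarith⟩
  · have z1 := z.2.1.1
    have z2 := z.2.1.2
    have z3 := z.2.2.1
    have z4 := z.2.2.2
    have out : ∀ τ, 0 ≤ τ → τ ≤ Λ → x τ = z.1.1 → y τ = z.1.2 →
        ∃ n < 4 * g, ∃ a, 0 ≤ a ∧ a ≤ 1 ∧ pr g (x' n a) (y' n a) = z := fun τ a b c d =>
      ⟨0, by omega, τ / Λ, by positivity, (div_le_one Λ0).2 b, by
        simp only [x', y', if_true, div_mul_cancel₀ _ Λ0.ne', c, d]
        exact Top.pr_self z⟩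
    rcases hz with h | h | h | ⟨h, k⟩
    · obtain ⟨a, b⟩ := s4 (12 * g + 1 / 4 - z.1.2) (by linarith) (by linarith)
      exact out _ (by linarith) (by linarith) (a.trans h.symm) (by linarith)
    · obtain ⟨a, b⟩ := s2 (z.1.2 + 1 / 4) (by linarith) (by linarith)
      exact out _ (by linarith) (by linarith) (a.trans h.symm) (by linarith)
    · obtain ⟨a, b⟩ := s3 (8 * g + 1 / 4 - z.1.1) (by linarith) (by linarith)
      exact out _ (by linarith) (by linarith) (by linarith) (b.trans h.symm)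
    rcases le_or_gt z.1.1 (1 / 4) with i | i
    · obtain ⟨a, b⟩ := s5 (z.1.1 + 1 / 4 + 12 * g) (by linarith) (by linarith)
      exact out _ (by linarith) (by linarith) (by linarith) (b.trans h.symm)
    rcases le_or_gt (4 * g - 1 / 4 : ℝ) z.1.1 with j | j
    · obtain ⟨a, b⟩ := s1 (z.1.1 - (4 * g - 1 / 4)) (by linarith) (by linarith)
      exact out _ (by linarith) (by linarith) (by linarith) (b.trans h.symm)
    obtain ⟨m, m1, m2⟩ : ∃ m : ℕ, (m : ℝ) ≤ z.1.1 - 1 / 4 ∧ z.1.1 - 1 / 4 < m + 1 :=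
      ⟨_, Nat.floor_le (by linarith), Nat.lt_floor_add_one _⟩
    have fin : ∀ n : ℕ, (n : ℝ) - 1 / 4 ≤ z.1.1 → z.1.1 ≤ n + 1 / 4 →
        ∃ n < 4 * g, ∃ a, 0 ≤ a ∧ a ≤ 1 ∧ pr g (x' n a) (y' n a) = z := fun n a b => by
      have n0 : n ≠ 0 := by rintro rfl; simp only [Nat.cast_zero] at b; linarith
      have n1 : (n : ℝ) < (4 * g : ℕ) := by push_cast; linarith
      refine ⟨n, Nat.cast_lt.1 n1, 2 * (z.1.1 - n + 1 / 4), by linarith, by linarith, ?_⟩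
      simp only [x', y', if_neg n0]
      exact (Top.eq_pr (by ring) h).symm
    rcases k m with l | l
    · exact fin m (by linarith) l
    · exact fin (m + 1) (by push_cast; linarith) (by push_cast; linarith)

end Pool.Agent.Lib.MP_294da1_gt.Br
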