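import Pool.Agent.Lib.MP_294da1_gt.Br.Defs
import Pool.Agent.Lib.MP_294da1_gt.Main
import Pool.Agent.Lib.MP_a47850_al.Top.Model

/-! The universal cover of the surface, lifted annuli and their side functions: definitions. -/

set_option autoImplicit false

namespace Pool.Agent.Lib.MP_294da1_gt.Br

open Pool.Agent.Lib.MP_a47850_al Pool.Agent.Lib.MP_a47850_al.Mcg Set

noncomputable section

/-- the gluing pattern of the surface -/
def X (g : ℕ) : Top.Pat (Fin g × Bool) (Sq g) (Surf g) := Top.pat g

/-- the universal cover, a tree of squares -/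
abbrev E (g : ℕ) : Type := (X g).E

instance (g : ℕ) : ContractibleSpace (Sq g) := inferInstanceAs (ContractibleSpace (Top.Sq g))

instance (g : ℕ) : LocallyPathConnectedSpace (Sq g) :=
  inferInstanceAs (LocallyPathConnectedSpace (Top.Sq g))

instance (g : ℕ) : CompactSpace (Sq g) :=
  isCompact_iff_compactSpace.1 (isCompact_Icc.prod isCompact_Icc)

/-- retraction of the plane onto the square -/
def pr (g : ℕ) (x y : ℝ) : Sq g := Top.pr g x y

variable {g : ℕ}

@[fun_prop]
theorem cont_pr (g : ℕ) {Y : Type} [TopologicalSpace Y] {a b : Y → ℝ} (ha : Continuous a)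
    (hb : Continuous b) : Continuous fun y => pr g (a y) (b y) := Top.cont_pr g ha hb

theorem X_q (z : Sq g) : (X g).q z = pt g z := rfl

theorem X_x0 : (X g).x0 = pr g 0 (4 * g) := rfl

theorem p_s (x : F g) (z : Sq g) : (X g).p ((X g).s x z) = pt g z := rfl

/-- the lifts of the base point -/
def bp (x : F g) : E g := (X g).s x (X g).x0

theorem smul_bp (γ x : F g) : γ • bp x = bp (γ * x) := rfl

/-- the square with index `x` -/
def sq (x : F g) : Set (E g) := range ((X g).s x)

/-- the boundary of the cover -/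
def dE (g : ℕ) : Set (E g) := {e | (X g).p e ∈ pt g '' Bd g}

/-- `σ` lifts the annulus `φ` and `h` is its deck transformation -/
structure Lf (φ : ℂ → Surf g) (σ : ℂ → E g) (h : F g) : Prop where
  ann : Ann g φ
  cont : Continuous σ
  lifts : ∀ q, (X g).p (σ q) = φ q
  per : ∀ q, σ (q + 1) = h • σ q

/-- `u` is the height in the strip and is `0` or `1` off the open strip -/
structure Side (σ : ℂ → E g) (u : E g → ℝ) : Prop where
  cont : Continuous u
  on : ∀ q, u (σ q) = max 0 (min 1 q.im)
  off : ∀ e, (∀ q : ℂ, 0 < q.im → q.im < 1 → σ q ≠ e) → u e = 0 ∨ u e = 1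

/-- the upper side of the strip is the algebraic wall -/
def Wall (u : E g → ℝ) (h : F g) : Prop := ∀ x, u (bp x) = 1 ↔ x ∈ Q h

/-- `h` is the deck transformation of some lift of the loop -/
def Cls (α : ℝ → Surf g) (h : F g) : Prop :=
  ∃ a : ℝ → E g, Continuous a ∧ (∀ t, (X g).p (a t) = α t) ∧ ∀ t, a (t + 1) = h • a t

/-- left or right of the vertical line `x = n` -/
def sg (n : ℕ) (t : F g) : ℝ := if n < hd t then 1 / 4 else -1 / 4

/-- `v` is the side function of the vertical band round `x = n` in the square `x` -/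
structure Band (x : F g) (n : ℕ) (v : E g → ℝ) : Prop where
  cont : Continuous v
  on : ∀ z, v ((X g).s x z) = max (-1 / 4) (min (1 / 4) (z.1.1 - n))
  off : ∀ y, y ≠ x → ∀ z, v ((X g).s y z) = sg n (x⁻¹ * y)

/-- local degree at an isolated zero -/
def DegAt (f : ℂ → ℂ) (p : ℂ) (d : ℤ) : Prop :=
  ∃ r > 0, ∃ l : ℂ → ℂ, ContinuousOn l (Metric.ball p r \ {p}) ∧
    ∀ q ∈ Metric.ball p r \ {p}, f q = (q - p) ^ d * Complex.exp (l q)

/-- degree at infinity -/
def DegInf (f : ℂ → ℂ) (d : ℤ) : Prop :=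
  ∃ M > 0, ∃ l : ℂ → ℂ, ContinuousOn l {q | M ≤ ‖q‖} ∧
    ∀ q, M ≤ ‖q‖ → f q = q ^ d * Complex.exp (l q)

end

end Pool.Agent.Lib.MP_294da1_gt.Br
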