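import Pool.Agent.Lib.MP_294da1_gt.Br.StripA

/-! Side functions of lifted annuli. -/

set_option autoImplicit false

namespace Pool.Agent.Lib.MP_294da1_gt.Br

open Pool.Agent.Lib.MP_a47850_al Pool.Agent.Lib.MP_a47850_al.Mcg Set Filter Topology

variable {g : ℕ}

variable {φ : ℂ → Surf g} {σ : ℂ → E g} {h : F g} {u : E g → ℝ}

theorem side_const {Y : Type} [TopologicalSpace Y] {f : Y → ℝ} (hf : Continuous f) {C : Set Y}
    (hC : IsPreconnected C) (h : ∀ y ∈ C, f y = 0 ∨ f y = 1) {a b : Y} (ha : a ∈ C) (hb : b ∈ C) :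
    f a = f b := by
  have k : ∀ a ∈ C, ∀ b ∈ C, f a = 0 → f b = 1 → False := fun a ha b hb p q => by
    obtain ⟨y, hy, e⟩ := hC.intermediate_value ha hb hf.continuousOn
      (show (1 / 2 : ℝ) ∈ Icc (f a) (f b) by rw [p, q]; constructor <;> norm_num)
    rcases h y hy with r | r <;> norm_num [r] at e
  rcases h a ha with p | p <;> rcases h b hb with q | q
  · rw [p, q]
  · exact (k a ha b hb p q).elim
  · exact (k b hb a ha q p).elim
  · rw [p, q]

theorem side_clamp {t : ℝ} (h : t ≤ 0 ∨ 1 ≤ t) : max 0 (min 1 t) = 0 ∨ max 0 (min 1 t) = 1 :=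
  h.imp (fun h => max_eq_left ((min_le_right _ _).trans h)) fun h => by
    rw [min_eq_left h, max_eq_right zero_le_one]

theorem Lf.exists_side (L : Lf φ σ h) : ∃ u, Side σ u := by
  have cG : Continuous fun q : ℂ => ((max 0 (min 1 q.im) : ℝ) : ℂ) * (2 * Real.pi * Complex.I) := by
    fun_prop
  obtain ⟨f, cf, on, off⟩ := ext_cont L.cont L.isOpenMap cG.cexp
    (fun q q' e => by
      obtain ⟨k, rfl, -⟩ := (L.eq_iff 1 q q').1 (by rw [one_smul, e])
      simp)
    (C := {q | 0 ≤ q.im ∧ q.im ≤ 1}) (by simpa using L.closed 0 1 {1}) (y := 1) fun q hq => by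
      rcases side_clamp ((not_and_or.1 hq).imp (fun a => (not_le.1 a).le) fun a => (not_le.1 a).le)
        with e | e <;> simp [e]
  have f0 (e : E g) : f e ≠ 0 := by
    by_cases a : e ∈ σ '' {q | 0 ≤ q.im ∧ q.im ≤ 1}
    · obtain ⟨q, -, rfl⟩ := a
      rw [on]
      exact Complex.exp_ne_zero _
    · rw [off e a]
      exact one_ne_zero
  obtain ⟨l, hl⟩ := exists_log univ f (fun x _ => cf.comp ((X g).cont_s x)) fun _ _ _ => f0 _
  have cl : Continuous l := (X g).cont_E fun x => (hl x trivial).1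
  have el (e : E g) : Complex.exp (l e) = f e := by
    obtain ⟨x, z, rfl⟩ := (X g).s_surj e
    exact (hl x trivial).2 z
  have e0 : Complex.exp (l (σ 0)) = 1 := by simp [el, on]
  have k := Complex.isCoveringMap_exp.eq_of_comp_eq (cl.comp L.cont)
    (continuous_const (y := l (σ 0)).add cG) (funext fun q => Subtype.ext (by
      change Complex.exp (l (σ q)) = Complex.exp (l (σ 0) + _)
      rw [Complex.exp_add, e0, one_mul, el, on])) 0 (by simp)
  have p : 2 * Real.pi ≠ 0 := Real.two_pi_pos.ne'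
  have w (q : ℂ) : (l (σ q) - l (σ 0)).im / (2 * Real.pi) = max 0 (min 1 q.im) := by
    rw [show l (σ q) = _ from congrFun k q, div_eq_iff p]
    simp
  have o (q : ℂ) : max 0 (min 1 ((l (σ q) - l (σ 0)).im / (2 * Real.pi))) =
      max 0 (min 1 q.im) := by
    rw [w, min_eq_right (max_le zero_le_one (min_le_left _ _)), ← max_assoc, max_self]
  refine ⟨fun e => max 0 (min 1 ((l e - l (σ 0)).im / (2 * Real.pi))), by fun_prop, o,
    fun e he => ?_⟩
  by_cases a : e ∈ σ '' {q | 0 ≤ q.im ∧ q.im ≤ 1}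
  · obtain ⟨q, -, rfl⟩ := a
    rw [o]
    exact side_clamp (by_contra fun b => he q (not_le.1 fun c => b (.inl c))
      (not_le.1 fun c => b (.inr c)) rfl)
  · obtain ⟨n, hn⟩ := Complex.exp_eq_one_iff.1
      (show Complex.exp (l e - l (σ 0)) = 1 by rw [Complex.exp_sub, e0, el, off e a, div_one])
    have : (l e - l (σ 0)).im / (2 * Real.pi) = n := by
      rw [hn, div_eq_iff p]
      simp
    rw [this]
    exact side_clamp (by exact_mod_cast (by omega : n ≤ 0 ∨ 1 ≤ n))

theorem Side.unique {u' : E g → ℝ} (U : Side σ u) (U' : Side σ u') : u = u' := by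
  funext e
  have := side_const (U.cont.sub U'.cont).abs isPreconnected_univ (fun e _ => by
    by_cases a : ∀ q : ℂ, 0 < q.im → q.im < 1 → σ q ≠ e
    · rcases U.off e a with p | p <;> rcases U'.off e a with q | q <;> simp [p, q]
    · push Not at a
      obtain ⟨q, -, -, rfl⟩ := a
      simp [U.on, U'.on]) (mem_univ e) (mem_univ (σ 0))
  simpa [U.on, U'.on, sub_eq_zero] using this

theorem Side.inv (L : Lf φ σ h) (U : Side σ u) (k : ℤ) (e : E g) : u (h ^ k • e) = u e :=
  congrFun (Side.unique (u := fun e => u (h ^ k • e)) ⟨U.cont.comp ((X g).cont_smul _),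
    fun q => by simp [← L.per_int, U.on], fun e he => U.off _ fun q a b c =>
      he (q + (-k : ℤ)) (by simpa using a) (by simpa using b)
        (by rw [L.per_int, c, zpow_neg, inv_smul_smul])⟩ U) e

theorem Side.smul (U : Side σ u) (γ : F g) : Side (fun q => γ • σ q) fun e => u (γ⁻¹ • e) :=
  ⟨U.cont.comp ((X g).cont_smul _), fun q => by rw [inv_smul_smul, U.on],
    fun e he => U.off _ fun q a b c => he q a b (by rw [c, smul_inv_smul])⟩

theorem Side.mid (U : Side σ u) {e : E g} (h0 : u e ≠ 0) (h1 : u e ≠ 1) :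
    ∃ q : ℂ, σ q = e ∧ q.im = u e ∧ 0 < q.im ∧ q.im < 1 := by
  by_contra a
  refine (U.off e fun q b c d => a ⟨q, d, ?_, b, c⟩).elim h0 h1
  rw [← d, U.on, min_eq_right c.le, max_eq_right b.le]

theorem Side.bd (L : Lf φ σ h) (U : Side σ u) {e : E g} (he : e ∈ dE g) : u e = 0 ∨ u e = 1 :=
  U.off e fun q _ _ c => L.not_bd 1 q (by rwa [one_smul, c])

theorem Side.joined (L : Lf φ σ h) (U : Side σ u) {e e' : E g} (j : JoinedIn (dE g) e e') :
    u e = u e' := by
  obtain ⟨p, hp⟩ := j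
  exact side_const U.cont (isPreconnected_range p.continuous)
    (fun _ ⟨t, a⟩ => U.bd L (a ▸ hp t)) ⟨0, p.source⟩ ⟨1, p.target⟩

/-- constant on a connected set that misses the open strip -/
theorem Side.const (U : Side σ u) {C : Set (E g)} (hC : IsPreconnected C)
    (hd : ∀ q : ℂ, 0 < q.im → q.im < 1 → σ q ∉ C) {e e' : E g} (he : e ∈ C) (he' : e' ∈ C) :
    u e = u e' :=
  side_const U.cont hC (fun y hy => U.off y fun q a b c => hd q a b (c ▸ hy)) he he'

theorem side_other (L : Lf φ σ h) (U : Side σ u) {γ : F g} (hγ : ∀ k : ℤ, γ ≠ h ^ k) :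
    ∃ ε : ℝ, (ε = 0 ∨ ε = 1) ∧ ∀ q, u (γ • σ q) = ε := by
  have a (q : ℂ) : u (γ • σ q) = 0 ∨ u (γ • σ q) = 1 := U.off _ fun q' _ _ c =>
    have ⟨k, _, e⟩ := (L.eq_iff γ q q').1 c.symm
    hγ k e
  exact ⟨_, a 0, fun q => side_const (U.cont.comp (((X g).cont_smul γ).comp L.cont))
    isPreconnected_univ (fun q _ => a q) (mem_univ q) (mem_univ 0)⟩

/-- two different strips are nested: one quadrant is empty -/
theorem Side.nest (L : Lf φ σ h) (U : Side σ u) {γ : F g} (hγ : ∀ k : ℤ, γ ≠ h ^ k) :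
    ∃ ε ε' : ℝ, (ε = 0 ∨ ε = 1) ∧ (ε' = 0 ∨ ε' = 1) ∧ (∀ q, u (γ • σ q) = ε) ∧
      (∀ q, u (γ⁻¹ • σ q) = ε') ∧ ∀ e, u e = ε ∨ u (γ⁻¹ • e) = ε' := by
  obtain ⟨ε, a, b⟩ := side_other L U hγ
  obtain ⟨ε', a', b'⟩ := side_other L U (γ := γ⁻¹) fun k e => hγ (-k) (by
    rw [zpow_neg, ← e, inv_inv])
  refine ⟨ε, ε', a, a', b, b', fun e => ?_⟩
  have := side_const (f := fun e => min |u e - ε| |u (γ⁻¹ • e) - ε'|)
    ((U.cont.sub continuous_const).abs.min
      ((U.cont.comp ((X g).cont_smul _)).sub continuous_const).abs) isPreconnected_univ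
    (fun e _ => by
      by_cases c : ∀ q : ℂ, 0 < q.im → q.im < 1 → σ q ≠ e
      · by_cases d : ∀ q : ℂ, 0 < q.im → q.im < 1 → σ q ≠ γ⁻¹ • e
        · rcases U.off e c with p | p <;> rcases U.off _ d with q | q <;>
            rcases a with rfl | rfl <;> rcases a' with rfl | rfl <;> simp [p, q]
        · push Not at d
          obtain ⟨q, -, -, d⟩ := d
          obtain rfl : e = γ • σ q := by rw [d, smul_inv_smul]
          simp [b]
      · push Not at c
        obtain ⟨q, -, -, rfl⟩ := c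
        simp [b']) (mem_univ e) (mem_univ (σ 0))
  rw [b', sub_self, abs_zero, min_eq_right (abs_nonneg (u (σ 0) - ε))] at this
  rcases min_eq_iff.1 this with c | c
  · exact .inl (sub_eq_zero.1 (abs_eq_zero.1 c.1))
  · exact .inr (sub_eq_zero.1 (abs_eq_zero.1 c.1))

end Pool.Agent.Lib.MP_294da1_gt.Br
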