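import Pool.Agent.Lib.MP_294da1_gt.Br.Band
import Pool.Agent.Lib.MP_294da1_gt.Br.Alg

/-! The upper side of a positive strip is the algebraic wall. -/

set_option autoImplicit false

namespace Pool.Agent.Lib.MP_294da1_gt.Br

open Pool.Agent.Lib.MP_a47850_al Pool.Agent.Lib.MP_a47850_al.Mcg Set Filter Topology

variable {g : ℕ}

variable {φ : ℂ → Surf g} {σ : ℂ → E g} {h : F g} {u v : E g → ℝ}

theorem sgn_arc (n : ℕ) (l : Lt g) {t : ℝ} (h0 : 1 / 4 ≤ t) (h1 : t ≤ 3 / 4) :
    max (-1 / 4) (min (1 / 4) ((pos l : ℝ) - 1 + t - n)) = sg n (L l) := by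
  rw [sg, hd_L]
  split_ifs with e
  · have : (n : ℝ) + 1 ≤ pos l := by exact_mod_cast e
    rw [min_eq_left (by linarith), max_eq_right (by norm_num)]
  · have : (pos l : ℝ) ≤ n := by exact_mod_cast not_lt.1 e
    exact max_eq_left ((min_le_right _ _).trans (by linarith))

theorem exists_band (x : F g) (n : ℕ) : ∃ v, Band x n v := by
  classical
  let G : F g → Sq g → ℝ := fun y z =>
    if y = x then max (-1 / 4) (min (1 / 4) (z.1.1 - n)) else sg n (x⁻¹ * y)
  have key : ∀ y z y' z', (X g).s y z = (X g).s y' z' → G y z = G y' z' := by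
    intro y z y' z' e
    rcases s_cases e with ⟨rfl, rfl⟩ | ⟨l, t, t0, t1, rfl, hz, hz'⟩
    · rfl
    have nl : L l ≠ 1 := fun e1 => by
      have := hd_L l
      have := pos_pos l
      rw [e1, hd_one] at *
      omega
    simp only [G, hz, hz']
    by_cases a : y = x
    · subst a
      rw [if_pos rfl, if_neg (by simpa using nl), inv_mul_cancel_left]
      exact sgn_arc n l t0 t1
    by_cases b : y * L l = x
    · rw [if_neg a, if_pos b, ← b, mul_inv_rev, inv_mul_cancel_right, ← L_linv,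
        ← sgn_arc n (linv l) (t := 1 - t) (by linarith) (by linarith)]
      congr 2; ring
    · rw [if_neg a, if_neg b, sg, sg, ← mul_assoc, hd_mul_L]
      · exact fun e1 => a (inv_mul_eq_one.1 e1).symm
      · intro e1
        rw [L_linv, inv_mul_eq_iff_eq_mul] at e1
        exact b (by rw [e1]; simp)
  refine ⟨Quot.lift (fun p => G p.1 p.2) fun a b r => key _ _ _ _ (Quot.sound r),
    (X g).cont_E fun y => ?_, fun z => ?_, fun y hy z => ?_⟩
  · change Continuous fun z => G y z
    by_cases a : y = x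
    · simp only [G, if_pos a]; fun_prop
    · simp only [G, if_neg a]; exact continuous_const
  · exact if_pos rfl
  · exact if_neg hy

theorem wall (hg : 0 < g) (L : Lf φ σ h) (h1 : h ≠ 1) (U : Side σ u) : Wall u h := by
  obtain ⟨y, z, hy⟩ := (X g).s_surj (σ 0)
  refine alg_wall hg h1 (fun x => u (bp x)) (fun x => U.bd L (bp_mem x)) y
    fun x w n n1 n2 c => ?_
  obtain ⟨v, V⟩ := exists_band (x * w) n
  obtain ⟨T, hT⟩ := band_eq L h1 U n1 n2 V
  have e0 : u ((X g).s (x * w) (pr g n 0)) = u (bp x) := by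
    rw [← U.joined L (joined_ch c (Nat.zero_le _) x)]
    refine (U.joined L (joined_out x (Or.inl ?_))).symm
    rw [Nat.cast_zero]
    exact Top.pr_x _ le_rfl (Top.g4 g)
  filter_upwards [alg_ne h1 y (x * w), alg_ne (inv_ne_one.2 h1) y (x * w),
    tendsto_natCast_atTop_atTop.eventually_ge_atTop T] with k k1 k2 k3
  rw [inv_pow] at k2
  have e1 : σ (0 + ((k : ℤ) : ℂ)) = (X g).s (h ^ k * y) z := by
    rw [L.per_int, hy, zpow_natCast]; rfl
  have e2 : σ (0 + ((-k : ℤ) : ℂ)) = (X g).s ((h ^ k)⁻¹ * y) z := by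
    rw [L.per_int, hy, zpow_neg, zpow_natCast]; rfl
  have := hT (0 + ((k : ℤ) : ℂ)) (0 + ((-k : ℤ) : ℂ)) (by simp) (by simp) (by simp) (by simp)
    (by simpa using k3) (by simpa using k3)
  rw [e0, e1, e2, V.off _ k1, V.off _ k2] at this
  exact this

end Pool.Agent.Lib.MP_294da1_gt.Br
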