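import Pool.Agent.Lib.MP_294da1_gt.Br.Log

/-! Lifted annuli: periodicity, openness, closedness, local finiteness. -/

set_option autoImplicit false

namespace Pool.Agent.Lib.MP_294da1_gt.Br

open Pool.Agent.Lib.MP_a47850_al Pool.Agent.Lib.MP_a47850_al.Mcg Set Filter Topology

variable {g : ℕ}

variable {φ : ℂ → Surf g} {σ : ℂ → E g} {h : F g} {u : E g → ℝ}

theorem sta_surj (x : Surf g) : ∃ e : E g, (X g).p e = x := by
  obtain ⟨z, rfl⟩ := (X g).quo.surjective x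
  exact ⟨(X g).s 1 z, (X g).p_s 1 z⟩

theorem exists_lf (A : Ann g φ) : ∃ σ h, Lf φ σ h := by
  obtain ⟨e, he⟩ := sta_surj (φ 0)
  obtain ⟨a, ca, ha, -⟩ := exists_lift A.1 0 he
  have p1 : ∀ q : ℂ, φ (q + 1) = φ q := fun q => ((A.2.2.1 q (q + 1)).2 ⟨1, by simp⟩).symm
  obtain ⟨h, hh⟩ := ((X g).fib (a (0 + 1)) (a 0)).1 (by rw [ha, ha, p1])
  refine ⟨a, h, A, ca, ha, fun q => ?_⟩
  exact Top.Pat.uniq (X := X g) (a := fun q => a (q + 1)) (b := fun q => h • a q)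
    (ca.comp (continuous_id.add continuous_const)) (((X g).cont_smul h).comp ca)
    (fun q => by rw [Top.Pat.p_smul, ha, ha, p1]) 0 hh.symm q

theorem Lf.per_int (L : Lf φ σ h) (q : ℂ) (k : ℤ) : σ (q + k) = h ^ k • σ q := by
  induction k using Int.induction_on with
  | zero => simp
  | succ n ih =>
    rw [Int.cast_add, Int.cast_one, ← add_assoc, L.per, ih, ← mul_smul, zpow_add_one,
      ← (Commute.self_zpow h n).eq]
  | pred n ih =>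
    have e : σ (q + ((-(n : ℤ) - 1 : ℤ) : ℂ) + 1) = h ^ (-(n : ℤ)) • σ q := by
      rw [← ih]; congr 1; push_cast; ring
    rw [L.per] at e
    rw [zpow_sub_one, (Commute.zpow_left (Commute.refl h).inv_right _).eq, mul_smul, ← e,
      inv_smul_smul]

theorem Lf.eq_iff (L : Lf φ σ h) (γ : F g) (q q' : ℂ) :
    γ • σ q = σ q' ↔ ∃ k : ℤ, q' = q + k ∧ γ = h ^ k := by
  constructor
  · intro e
    have := congrArg (X g).p e
    rw [Top.Pat.p_smul, L.lifts, L.lifts] at this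
    obtain ⟨k, rfl⟩ := (L.ann.2.2.1 q q').1 this
    rw [L.per_int] at e
    exact ⟨k, rfl, Top.Pat.smul_inj e⟩
  · rintro ⟨k, rfl, rfl⟩
    exact (L.per_int q k).symm

theorem Lf.isOpenMap (L : Lf φ σ h) : IsOpenMap σ := by
  have lh : IsLocalHomeomorph (X g).p := (X g).cov.isCoveringMap.isLocalHomeomorph
  rw [isOpenMap_iff_nhds_le]
  intro q
  obtain ⟨c, hc, ec⟩ := lh (σ q)
  intro W hW
  rw [mem_map] at hW
  have hV : σ ⁻¹' (W ∩ c.source) ∈ 𝓝 q :=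
    inter_mem hW (L.cont.continuousAt.preimage_mem_nhds (c.open_source.mem_nhds hc))
  have h1 : φ '' (σ ⁻¹' (W ∩ c.source)) ∈ 𝓝 ((X g).p (σ q)) := by
    rw [L.lifts]; exact L.ann.2.1.image_mem_nhds hV
  have h2 := (X g).cont_p.continuousAt.preimage_mem_nhds h1
  filter_upwards [h2, c.open_source.mem_nhds hc] with e he hs
  obtain ⟨q', ⟨hq, hq'⟩, e'⟩ := he
  have : σ q' = e := c.injOn hq' hs (by rw [← ec, L.lifts, e'])
  exact this ▸ hq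

theorem Lf.not_bd (L : Lf φ σ h) (γ : F g) (q : ℂ) : γ • σ q ∉ dE g := by
  rintro ⟨z, hz, e⟩
  rw [Top.Pat.p_smul, L.lifts] at e
  exact L.ann.2.2.2.1 q z hz e.symm

theorem Lf.cls (L : Lf φ σ h) : Cls (core g φ) h := by
  refine ⟨fun t => σ ⟨t, 1 / 2⟩, L.cont.comp ?_, fun t => L.lifts _, fun t => ?_⟩
  · have : (fun t : ℝ => (⟨t, 1 / 2⟩ : ℂ)) = fun t : ℝ => (t : ℂ) + ⟨0, 1 / 2⟩ := by
      funext t; apply Complex.ext <;> simp
    rw [this]; fun_prop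
  · rw [← L.per]; exact congrArg σ (by apply Complex.ext <;> simp)

theorem Lf.smul (L : Lf φ σ h) (γ : F g) : Lf φ (fun q => γ • σ q) (γ * h * γ⁻¹) :=
  ⟨L.ann, ((X g).cont_smul γ).comp L.cont, fun q => by rw [Top.Pat.p_smul, L.lifts],
    fun q => by rw [L.per, mul_smul, mul_smul, inv_smul_smul]⟩

/-- the fundamental rectangle -/
def staR (a b : ℝ) : Set ℂ := Icc (0 : ℝ) 1 ×ℂ Icc a b

theorem sta_cpt (L : Lf φ σ h) (a b : ℝ) : IsCompact (σ '' staR a b) :=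
  (isCompact_Icc.reProdIm isCompact_Icc).image L.cont

theorem sta_red (L : Lf φ σ h) {a b : ℝ} {q : ℂ} (h0 : a ≤ q.im) (h1 : q.im ≤ b) :
    ∃ e ∈ σ '' staR a b, σ q = h ^ ⌊q.re⌋ • e := by
  refine ⟨σ (q - (⌊q.re⌋ : ℤ)), ⟨_, ⟨⟨?_, ?_⟩, ?_, ?_⟩, rfl⟩, ?_⟩
  · simp
  · simpa using (Int.fract_lt_one q.re).le
  · simpa using h0
  · simpa using h1
  · rw [← L.per_int, sub_add_cancel]

theorem Lf.closed (L : Lf φ σ h) (a b : ℝ) (G : Set (F g)) :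
    IsClosed (⋃ γ ∈ G, (γ • ·) '' (σ '' {q | a ≤ q.im ∧ q.im ≤ b})) := by
  convert closed_orbit (sta_cpt L a b) {δ | ∃ γ ∈ G, ∃ k : ℤ, δ = γ * h ^ k} using 1
  ext e
  simp only [mem_iUnion, exists_prop]
  constructor
  · rintro ⟨γ, hγ, _, ⟨q, ⟨h0, h1⟩, rfl⟩, rfl⟩
    obtain ⟨e, he, ee⟩ := sta_red L h0 h1
    exact ⟨γ * h ^ ⌊q.re⌋, ⟨γ, hγ, _, rfl⟩, e, he, by simp only [ee, mul_smul]⟩
  · rintro ⟨_, ⟨γ, hγ, k, rfl⟩, _, ⟨q, hq, rfl⟩, rfl⟩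
    refine ⟨γ, hγ, σ (q + k), ⟨q + k, ⟨?_, ?_⟩, rfl⟩, by simp only [L.per_int, mul_smul]⟩
    · simpa using hq.2.1
    · simpa using hq.2.2

theorem Lf.far (L : Lf φ σ h) (h1 : h ≠ 1) (x : F g) :
    ∃ T : ℝ, ∀ q : ℂ, 0 ≤ q.im → q.im ≤ 1 → σ q ∈ sq x → |q.re| ≤ T := by
  have inj : Function.Injective fun k : ℤ => h ^ k := fun k k' e => by
    have : h ^ (k - k') = 1 := by
      simp only at e
      rw [zpow_sub, e, mul_inv_cancel]
    exact sub_eq_zero.1 (zpow_eq_one' h1 this)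
  have fin := (fin_orbit (sta_cpt L 0 1) x).preimage inj.injOn
  obtain ⟨T, hT⟩ := (fin.image fun k : ℤ => |(k : ℝ)|).bddAbove
  refine ⟨T + 1, fun q a b hq => ?_⟩
  obtain ⟨e, he, ee⟩ := sta_red L a b
  have := hT ⟨⌊q.re⌋, ⟨e, he, ee ▸ hq⟩, rfl⟩
  have c1 := Int.floor_le q.re
  have c2 := Int.lt_floor_add_one q.re
  have c3 := abs_le.1 this
  exact abs_le.2 ⟨by linarith [c3.1], by linarith [c3.2]⟩

/-- finitely many strips meet a square -/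
theorem Lf.walls (L : Lf φ σ h) (x : F g) : ∃ G : Set (F g), G.Finite ∧
    ∀ (γ : F g) (q : ℂ), 0 ≤ q.im → q.im ≤ 1 → γ • σ q ∈ sq x →
      ∃ δ ∈ G, ∃ k : ℤ, γ = δ * h ^ k := by
  refine ⟨_, fin_orbit (sta_cpt L 0 1) x, fun γ q a b hq => ?_⟩
  obtain ⟨e, he, ee⟩ := sta_red L a b
  refine ⟨γ * h ^ ⌊q.re⌋, ⟨e, he, by rw [mul_smul, ← ee]; exact hq⟩, -⌊q.re⌋, ?_⟩
  rw [mul_assoc, ← zpow_add, add_neg_cancel, zpow_zero, mul_one]

end Pool.Agent.Lib.MP_294da1_gt.Br
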